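import Pool.Agent.TH595.SP.Defs

set_option autoImplicit false

/-!
# Every element of the lamplighter group over the torus is a short product (helper81)
-/

namespace Pool.Agent.TH595.SP

open scoped BigOperators

variable {r : ℕ}

/-- lamps `f` and translation by `c` -/
def cap_T (f : TX r → ZMod 2) (c : TX r) : Gam r := ⟨f, fun i => .r (c i)⟩

/-- the translation vector of a letter -/
def cap_v (a : LA) : TX r := fun i => if a i = 0 then 0 else 1

theorem cap_T_zero : (cap_T (fun _ => 0) 0 : Gam r) = 1 := by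
  ext x
  · rfl
  · exact DihedralGroup.one_def.symm

theorem cap_step (f : TX r → ZMod 2) (c : TX r) (a : LA) (z : ZMod 2) :
    cap_T f c * (iA a * iB (a, z)) =
      cap_T (fun x => f x + if x = c + cap_v a then z else 0) (c + cap_v a) := by
  have h : ∀ x : TX r, qact (iA a : Gam r).q⁻¹ (qact (cap_T f c).q⁻¹ x) = 0 ↔
      x = c + cap_v a := by
    intro x
    rw [funext_iff, funext_iff]
    refine forall_congr' fun i => ?_
    unfold qact iA cap_T cap_v
    simp only [Pi.inv_apply, Pi.add_apply, Pi.zero_apply]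
    unfold dzo
    by_cases ha : a i = 0
    · rw [if_pos ha, if_pos ha, inv_one, dact_one]
      simp only [DihedralGroup.inv_r, dact, add_zero]
      constructor
      · intro h; linear_combination h
      · intro h; linear_combination h
    · rw [if_neg ha, if_neg ha]
      simp only [DihedralGroup.inv_sr, DihedralGroup.inv_r, dact]
      constructor
      · intro h; linear_combination -h
      · intro h; linear_combination -h
  ext x
  · simp only [Gam.mul_lamp]
    have h1 : (iA a : Gam r).lamp (qact (cap_T f c).q⁻¹ x) = 0 := rfl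
    have h2 : (iB (a, z) : Gam r).lamp (qact (iA a : Gam r).q⁻¹ (qact (cap_T f c).q⁻¹ x)) =
        if qact (iA a : Gam r).q⁻¹ (qact (cap_T f c).q⁻¹ x) = 0 then z else 0 := rfl
    rw [h1, h2, zero_add]
    simp only [h x]
    rfl
  · simp only [Gam.mul_q, Pi.mul_apply]
    unfold cap_T iA iB cap_v dzo
    simp only [Pi.add_apply]
    by_cases ha : a x = 0
    · simp [ha]
    · simp [ha]

theorem cap_wprod_append (w w' : List LL) : (wprod (w ++ w') : Gam r) = wprod w * wprod w' := by
  unfold wprod
  rw [List.map_append, List.prod_append]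

theorem cap_list (a : ℕ → LA) (z : ℕ → ZMod 2) (c : ℕ → TX r) (n : ℕ)
    (hc : ∀ j < n, c (j + 1) = c j + cap_v (a j)) :
    cap_T (fun _ => 0) (c 0) * wprod ((List.range n).map fun j => (a j, (a j, z j))) =
      cap_T (fun x => ∑ j ∈ Finset.range n, if x = c (j + 1) then z j else 0) (c n) := by
  induction n with
  | zero =>
    simp [wprod]
  | succ n ih =>
    rw [List.range_succ, List.map_append, cap_wprod_append, ← mul_assoc,
      ih fun j hj => hc j (by omega)]
    have h1 : (wprod (List.map (fun j => (a j, (a j, z j))) [n]) : Gam r) =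
        iA (a n) * iB (a n, z n) := by
      simp [wprod]
    rw [h1, cap_step, ← hc n (by omega)]
    congr 1
    funext x
    rw [Finset.sum_range_succ]

/-- translations -/
theorem cap_trans [NeZero r] (c : TX r) :
    ∃ w : List LL, w.length = r ∧ wprod w = cap_T (fun _ => 0) c := by
  refine ⟨(List.range r).map fun j => ((fun i => if j < (c i).val then 1 else 0 : LA),
    ((fun i => if j < (c i).val then 1 else 0 : LA), 0)), by simp, ?_⟩
  have h := cap_list (r := r) (fun j => (fun i => if j < (c i).val then 1 else 0 : LA))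
    (fun _ => 0) (fun j i => ((min j (c i).val : ℕ) : ZMod r)) r (by
      intro j _
      funext i
      simp only [Pi.add_apply, cap_v]
      by_cases h : j < (c i).val
      · rw [min_eq_left (by omega), min_eq_left (by omega)]
        simp [h]
      · rw [min_eq_right (by omega), min_eq_right (by omega)]
        simp [h])
  have h0 : (fun i => ((min 0 (c i).val : ℕ) : ZMod r)) = (0 : TX r) := by
    funext i
    simp
  have h1 : (fun i => ((min r (c i).val : ℕ) : ZMod r)) = c := by
    funext i
    rw [min_eq_right (ZMod.val_lt (c i)).le, ZMod.natCast_val, ZMod.cast_id]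
  rw [h0, h1, cap_T_zero, one_mul] at h
  rw [h]
  congr 1
  funext x
  simp

/-- motions -/
theorem cap_motion [NeZero r] (q : QQ r) :
    ∃ w : List LL, w.length = r + 1 ∧ wprod w = ⟨fun _ => 0, q⟩ := by
  have h1 : ∀ i, ∃ (c : ZMod r) (b : ZMod 2), q i = .r c * dzo 0 b := by
    intro i
    rcases q i with j | j
    · exact ⟨j, 0, by simp [dzo]⟩
    · exact ⟨-j, 1, by simp [dzo]⟩
  choose c b hcb using h1
  obtain ⟨w, hw, hw'⟩ := cap_trans c
  refine ⟨w ++ [(0, (b, 0))], by simp [hw], ?_⟩
  rw [cap_wprod_append, hw']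
  have h2 : (wprod [((0 : LA), ((b : Fin 3 → ZMod 2), (0 : ZMod 2)))] : Gam r) =
      iB ((b : Fin 3 → ZMod 2), (0 : ZMod 2)) := by
    simp [wprod, iA_zero]
  rw [h2]
  ext x
  · simp only [Gam.mul_lamp]
    unfold cap_T iB
    simp
  · simp only [Gam.mul_q, Pi.mul_apply]
    unfold cap_T iB
    exact (hcb x).symm

/-- block lengths of the sweep -/
def cap_e (r : ℕ) : Fin 3 → ℕ := ![r ^ 2, r, 1]

/-- positions of the sweep -/
def cap_c (r : ℕ) (j : ℕ) : TX r := fun i => ((j / cap_e r i : ℕ) : ZMod r)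

/-- letters of the sweep -/
def cap_a (r : ℕ) (j : ℕ) : LA := fun i => if cap_e r i ∣ j + 1 then 1 else 0

theorem cap_c_succ (j : ℕ) : cap_c r (j + 1) = cap_c r j + cap_v (cap_a r j) := by
  funext i
  simp only [cap_c, cap_v, cap_a, Pi.add_apply]
  rw [Nat.succ_div]
  split_ifs <;> simp_all

theorem cap_c_zero : cap_c r 0 = 0 := by
  funext i
  simp [cap_c]

theorem cap_c_last [NeZero r] : cap_c r (r ^ 3) = 0 := by
  have hr : 0 < r := Nat.pos_of_ne_zero (NeZero.ne r)
  funext i
  fin_cases i
  · have : r ^ 3 / r ^ 2 = r := by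
      rw [Nat.pow_div (by omega) hr]
      simp
    simp [cap_c, cap_e, this]
  · have : r ^ 3 / r = r * r := by
      rw [show r ^ 3 = (r * r) * r by ring, Nat.mul_div_cancel _ hr]
    simp [cap_c, cap_e, this]
  · simp [cap_c, cap_e]

theorem cap_surj [NeZero r] (x : TX r) : ∃ j < r ^ 3, cap_c r (j + 1) = x := by
  have hr : 0 < r := Nat.pos_of_ne_zero (NeZero.ne r)
  have h0 := ZMod.val_lt (x 0)
  have h1 := ZMod.val_lt (x 1)
  have h2 := ZMod.val_lt (x 2)
  set j := (x 0).val * r ^ 2 + (x 1).val * r + (x 2).val with hj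
  have hlt1 : (x 1).val * r + (x 2).val < r ^ 2 := by nlinarith
  have hlt : j < r ^ 3 := by
    have : (x 0).val * r ^ 2 + r ^ 2 ≤ r ^ 3 := by
      calc (x 0).val * r ^ 2 + r ^ 2 = ((x 0).val + 1) * r ^ 2 := by ring
        _ ≤ r * r ^ 2 := Nat.mul_le_mul_right _ h0
        _ = r ^ 3 := by ring
    omega
  have hx : cap_c r j = x := by
    funext i
    fin_cases i
    · have e : j / r ^ 2 = (x 0).val := by
        rw [hj, add_assoc, Nat.mul_comm, Nat.mul_add_div (by positivity),
          Nat.div_eq_of_lt hlt1, add_zero]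
      simp [cap_c, cap_e, e]
    · have e : j / r = (x 0).val * r + (x 1).val := by
        have : j = r * ((x 0).val * r + (x 1).val) + (x 2).val := by rw [hj]; ring
        rw [this, Nat.mul_add_div hr, Nat.div_eq_of_lt h2, add_zero]
      simp [cap_c, cap_e, e]
    · simp [cap_c, cap_e, hj]
  rcases Nat.eq_zero_or_pos j with h | h
  · refine ⟨r ^ 3 - 1, by omega, ?_⟩
    have : r ^ 3 - 1 + 1 = r ^ 3 := by omega
    rw [this, cap_c_last, ← hx, h, cap_c_zero]
  · refine ⟨j - 1, by omega, ?_⟩
    rw [Nat.sub_add_cancel h, hx]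

theorem cap_bij [NeZero r] : Function.Bijective (fun j : Fin (r ^ 3) => cap_c r (j + 1)) := by
  rw [Fintype.bijective_iff_surjective_and_card]
  refine ⟨fun x => ?_, ?_⟩
  · obtain ⟨j, hj, h⟩ := cap_surj x
    exact ⟨⟨j, hj⟩, h⟩
  · simp [ZMod.card]

/-- lamps -/
theorem cap_lamps [NeZero r] (f : TX r → ZMod 2) :
    ∃ w : List LL, w.length = r ^ 3 ∧ wprod w = (⟨f, 1⟩ : Gam r) := by
  refine ⟨(List.range (r ^ 3)).map fun j => (cap_a r j, (cap_a r j, f (cap_c r (j + 1)))),
    by simp, ?_⟩
  have h := cap_list (r := r) (cap_a r) (fun j => f (cap_c r (j + 1))) (cap_c r) (r ^ 3)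
    (fun j _ => cap_c_succ j)
  rw [cap_c_zero, cap_T_zero, one_mul, cap_c_last] at h
  rw [h]
  ext x
  · unfold cap_T
    dsimp only
    rw [← Fin.sum_univ_eq_sum_range
      (fun j => if x = cap_c r (j + 1) then f (cap_c r (j + 1)) else 0)]
    have h2 := cap_bij.sum_comp (fun y : TX r => if x = y then f y else 0)
    rw [h2]
    simp
  · exact DihedralGroup.one_def.symm

theorem cap_lemma {r : ℕ} [NeZero r] (g : Gam r) :
    ∃ w : List LL, w.length ≤ 4 * r ^ 3 + 4 ∧ wprod w = g := by
  obtain ⟨w1, h1, h1'⟩ := cap_lamps g.lamp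
  obtain ⟨w2, h2, h2'⟩ := cap_motion g.q
  have hr : 0 < r := Nat.pos_of_ne_zero (NeZero.ne r)
  refine ⟨w1 ++ w2, ?_, ?_⟩
  · rw [List.length_append, h1, h2]
    have : r ≤ r ^ 3 := Nat.le_self_pow (by omega) r
    omega
  · rw [cap_wprod_append, h1', h2']
    ext x
    · simp only [Gam.mul_lamp, add_zero]
    · simp only [Gam.mul_q, one_mul]

end Pool.Agent.TH595.SP
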