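import Pool.Agent.TH595.SP.Defs

/-!
Return probability of the lazy walk on the cycle.
-/

set_option autoImplicit false

namespace Pool.Agent.TH595.SP

open scoped BigOperators

section cyc

variable {r : ℕ} [NeZero r]

theorem cyc_shift (f : ZMod r → ℝ) (c : ZMod r) : ∑ e, f (e + c) = ∑ e, f e :=
  Equiv.sum_comp (Equiv.addRight c) f

theorem cyc_shift' (f : ZMod r → ℝ) (c : ZMod r) : ∑ e, f (e - c) = ∑ e, f e :=
  Equiv.sum_comp (Equiv.subRight c) f

theorem cyc_sum (f : ZMod r → ℝ) : ∑ e, Lc f e = ∑ e, f e := by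
  unfold Lc
  rw [← Finset.sum_div, Finset.sum_add_distrib, Finset.sum_add_distrib, ← Finset.mul_sum,
    cyc_shift, cyc_shift']
  ring

theorem cyc_adj (u v : ZMod r → ℝ) : ∑ e, Lc u e * v e = ∑ e, u e * Lc v e := by
  have h1 : ∑ e, u (e + 1) * v e = ∑ e, u e * v (e - 1) := by
    rw [← cyc_shift (fun e => u e * v (e - 1)) 1]
    simp only [add_sub_cancel_right]
  have h2 : ∑ e, u (e - 1) * v e = ∑ e, u e * v (e + 1) := by
    rw [← cyc_shift' (fun e => u e * v (e + 1)) 1]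
    simp only [sub_add_cancel]
  have h3 : ∑ e, Lc u e * v e =
      (2 * ∑ e, u e * v e + ∑ e, u (e + 1) * v e + ∑ e, u (e - 1) * v e) / 4 := by
    unfold Lc
    rw [Finset.mul_sum, ← Finset.sum_add_distrib, ← Finset.sum_add_distrib, Finset.sum_div]
    refine Finset.sum_congr rfl fun e _ => ?_
    ring
  have h4 : ∑ e, u e * Lc v e =
      (2 * ∑ e, u e * v e + ∑ e, u e * v (e + 1) + ∑ e, u e * v (e - 1)) / 4 := by
    unfold Lc
    rw [Finset.mul_sum, ← Finset.sum_add_distrib, ← Finset.sum_add_distrib, Finset.sum_div]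
    refine Finset.sum_congr rfl fun e _ => ?_
    ring
  rw [h3, h4, h1, h2]
  ring

omit [NeZero r] in
theorem cyc_nonneg (f : ZMod r → ℝ) (hf : ∀ e, 0 ≤ f e) (e : ZMod r) : 0 ≤ Lc f e := by
  unfold Lc
  have h1 := hf e
  have h2 := hf (e + 1)
  have h3 := hf (e - 1)
  positivity

/-- Dirichlet form -/
noncomputable def cyc_D (w : ZMod r → ℝ) : ℝ := ∑ e, (w (e + 1) - w e) ^ 2

/-- squared norm -/
noncomputable def cyc_E (w : ZMod r → ℝ) : ℝ := ∑ e, w e ^ 2

theorem cyc_form (w : ZMod r → ℝ) : ∑ e, Lc w e * w e = cyc_E w - cyc_D w / 4 := by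
  have h1 : ∑ e, w (e + 1) * w e = ∑ e, w e * w (e - 1) := by
    rw [← cyc_shift (fun e => w e * w (e - 1)) 1]
    simp only [add_sub_cancel_right]
  have h2 : ∑ e, w (e + 1) ^ 2 = ∑ e, w e ^ 2 := cyc_shift (fun e => w e ^ 2) 1
  have h3 : ∑ e, Lc w e * w e =
      (2 * ∑ e, w e ^ 2 + ∑ e, w (e + 1) * w e + ∑ e, w e * w (e - 1)) / 4 := by
    unfold Lc
    rw [Finset.mul_sum, ← Finset.sum_add_distrib, ← Finset.sum_add_distrib, Finset.sum_div]
    refine Finset.sum_congr rfl fun e _ => ?_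
    ring
  have h4 : cyc_D w = ∑ e, w (e + 1) ^ 2 + ∑ e, w e ^ 2 - 2 * ∑ e, w (e + 1) * w e := by
    unfold cyc_D
    rw [Finset.mul_sum, ← Finset.sum_add_distrib, ← Finset.sum_sub_distrib]
    refine Finset.sum_congr rfl fun e _ => ?_
    ring
  rw [h3, h4, cyc_E, h2, ← h1]
  ring

theorem cyc_D_nonneg (w : ZMod r → ℝ) : 0 ≤ cyc_D w := Finset.sum_nonneg fun _ _ => sq_nonneg _

theorem cyc_E_nonneg (w : ZMod r → ℝ) : 0 ≤ cyc_E w := Finset.sum_nonneg fun _ _ => sq_nonneg _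

theorem cyc_E_Lc (w : ZMod r → ℝ) : cyc_E (Lc w) ≤ cyc_E w - cyc_D w / 4 := by
  rw [← cyc_form]
  have h1 : ∀ e, Lc w e ^ 2 ≤
      (((w e + w (e + 1)) / 2) ^ 2 + ((w (e - 1) + w e) / 2) ^ 2) / 2 := by
    intro e
    unfold Lc
    nlinarith [sq_nonneg ((w e + w (e + 1)) / 2 - (w (e - 1) + w e) / 2)]
  have h2 : ∑ e, ((w (e - 1) + w e) / 2) ^ 2 = ∑ e, ((w e + w (e + 1)) / 2) ^ 2 := by
    rw [← cyc_shift' (fun e => ((w e + w (e + 1)) / 2) ^ 2) 1]
    simp only [sub_add_cancel]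
  have h3 : cyc_E (Lc w) ≤ ∑ e, ((w e + w (e + 1)) / 2) ^ 2 := by
    unfold cyc_E
    calc ∑ e, Lc w e ^ 2 ≤ ∑ e, (((w e + w (e + 1)) / 2) ^ 2 + ((w (e - 1) + w e) / 2) ^ 2) / 2 :=
          Finset.sum_le_sum fun e _ => h1 e
      _ = (∑ e, ((w e + w (e + 1)) / 2) ^ 2 + ∑ e, ((w (e - 1) + w e) / 2) ^ 2) / 2 := by
          rw [← Finset.sum_div, Finset.sum_add_distrib]
      _ = _ := by rw [h2]; ring
  refine h3.trans (le_of_eq ?_)
  have h5 : ∑ e, w (e + 1) * w e = ∑ e, w e * w (e - 1) := by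
    rw [← cyc_shift (fun e => w e * w (e - 1)) 1]
    simp only [add_sub_cancel_right]
  have h6 : ∑ e, w (e + 1) ^ 2 = ∑ e, w e ^ 2 := cyc_shift (fun e => w e ^ 2) 1
  have h7 : ∑ e, ((w e + w (e + 1)) / 2) ^ 2 =
      (∑ e, w e ^ 2 + ∑ e, w (e + 1) ^ 2 + 2 * ∑ e, w (e + 1) * w e) / 4 := by
    rw [Finset.mul_sum, ← Finset.sum_add_distrib, ← Finset.sum_add_distrib, Finset.sum_div]
    refine Finset.sum_congr rfl fun e _ => ?_
    ring
  have h8 : ∑ e, Lc w e * w e =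
      (2 * ∑ e, w e ^ 2 + ∑ e, w (e + 1) * w e + ∑ e, w e * w (e - 1)) / 4 := by
    unfold Lc
    rw [Finset.mul_sum, ← Finset.sum_add_distrib, ← Finset.sum_add_distrib, Finset.sum_div]
    refine Finset.sum_congr rfl fun e _ => ?_
    ring
  rw [h7, h8, h6, ← h5]
  ring

/-- variation along an arc -/
theorem cyc_arc (g : ZMod r → ℝ) (e₀ e₁ : ZMod r) :
    g e₁ - g e₀ ≤ ∑ e, |g (e + 1) - g e| := by
  classical
  obtain ⟨k, hk⟩ : ∃ k : ℕ, k = (e₁ - e₀).val := ⟨_, rfl⟩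
  have hkr : k < r := by rw [hk]; exact ZMod.val_lt _
  have he : e₀ + (k : ZMod r) = e₁ := by
    rw [hk, ZMod.natCast_zmod_val]
    ring
  have h1 : g e₁ - g e₀ = ∑ j ∈ Finset.range k,
      (g (e₀ + ((j + 1 : ℕ) : ZMod r)) - g (e₀ + (j : ZMod r))) := by
    rw [Finset.sum_range_sub (fun j : ℕ => g (e₀ + (j : ZMod r))), he]
    simp
  rw [h1]
  have hinj : Set.InjOn (fun j : ℕ => e₀ + (j : ZMod r)) (Finset.range k : Finset ℕ) := by
    intro a ha b hb hab
    rw [Finset.mem_coe, Finset.mem_range] at ha hb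
    have h2 : (a : ZMod r) = (b : ZMod r) := add_left_cancel hab
    have h3 := congrArg ZMod.val h2
    rwa [ZMod.val_cast_of_lt (by omega), ZMod.val_cast_of_lt (by omega)] at h3
  calc ∑ j ∈ Finset.range k, (g (e₀ + ((j + 1 : ℕ) : ZMod r)) - g (e₀ + (j : ZMod r)))
      ≤ ∑ j ∈ Finset.range k, |g ((e₀ + (j : ZMod r)) + 1) - g (e₀ + (j : ZMod r))| := by
        refine Finset.sum_le_sum fun j _ => ?_
        refine le_trans (le_of_eq ?_) (le_abs_self _)
        push_cast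
        rw [add_assoc]
    _ = ∑ x ∈ (Finset.range k).image (fun j : ℕ => e₀ + (j : ZMod r)), |g (x + 1) - g x| := by
        rw [Finset.sum_image hinj]
    _ ≤ _ := Finset.sum_le_sum_of_subset_of_nonneg (Finset.subset_univ _)
        fun _ _ _ => abs_nonneg _

/-- Nash type bound -/
theorem cyc_nash (w : ZMod r → ℝ) (hw : ∀ e, 0 ≤ w e) (hs : ∑ e, w e = 1)
    (hE : 2 / (r : ℝ) ≤ cyc_E w) : cyc_E w ^ 3 / 32 ≤ cyc_D w := by
  classical
  have hr : (0 : ℝ) < r := by exact_mod_cast Nat.pos_of_ne_zero (NeZero.ne r)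
  obtain ⟨u, hu⟩ : ∃ u : ZMod r → ℝ, u = fun e => max (w e - 1 / r) 0 := ⟨_, rfl⟩
  have hu0 : ∀ e, 0 ≤ u e := fun e => by rw [hu]; exact le_max_right _ _
  have huw : ∀ e, u e ≤ w e := fun e => by
    rw [hu]
    refine max_le ?_ (hw e)
    have : (0 : ℝ) ≤ 1 / r := by positivity
    linarith
  have hsu : ∑ e, u e ≤ 1 := by rw [← hs]; exact Finset.sum_le_sum fun e _ => huw e
  obtain ⟨e₀, he₀⟩ : ∃ e₀, w e₀ ≤ 1 / r := by
    obtain ⟨e, -, he⟩ := Finset.exists_le_of_sum_le (s := (Finset.univ : Finset (ZMod r)))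
      (f := w) (g := fun _ => (1 : ℝ) / r) Finset.univ_nonempty (by
        rw [hs, Finset.sum_const, Finset.card_univ, ZMod.card, nsmul_eq_mul]
        rw [mul_one_div_cancel hr.ne'])
    exact ⟨e, he⟩
  have hu1 : u e₀ = 0 := by
    rw [hu]
    exact max_eq_right (by linarith)
  obtain ⟨e₁, -, he₁⟩ := Finset.exists_max_image (Finset.univ : Finset (ZMod r)) u
    Finset.univ_nonempty
  obtain ⟨M, hM⟩ : ∃ M : ℝ, M = u e₁ := ⟨_, rfl⟩
  have hM0 : 0 ≤ M := by rw [hM]; exact hu0 _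
  have huM : ∀ e, u e ≤ M := fun e => by rw [hM]; exact he₁ e (Finset.mem_univ _)
  have hwM : ∀ e, w e ≤ M + 1 / r := by
    intro e
    have h1 : w e - 1 / r ≤ u e := by rw [hu]; exact le_max_left _ _
    linarith [huM e]
  have hEM : cyc_E w ≤ M + 1 / r := by
    unfold cyc_E
    calc ∑ e, w e ^ 2 ≤ ∑ e, (M + 1 / r) * w e := by
          refine Finset.sum_le_sum fun e _ => ?_
          rw [sq]
          exact mul_le_mul_of_nonneg_right (hwM e) (hw e)
      _ = M + 1 / r := by rw [← Finset.mul_sum, hs, mul_one]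
  have h2r : (2 : ℝ) / r = 2 * (1 / r) := by ring
  have hME : cyc_E w / 2 ≤ M := by rw [h2r] at hE; linarith
  -- the main estimate
  have harc := cyc_arc (fun e => u e ^ 2) e₀ e₁
  simp only [hu1, ← hM] at harc
  have hdiff : ∀ e, |u (e + 1) ^ 2 - u e ^ 2| ≤ |w (e + 1) - w e| * (u (e + 1) + u e) := by
    intro e
    have h1 : u (e + 1) ^ 2 - u e ^ 2 = (u (e + 1) - u e) * (u (e + 1) + u e) := by ring
    rw [h1, abs_mul, abs_of_nonneg (add_nonneg (hu0 (e + 1)) (hu0 e))]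
    refine mul_le_mul_of_nonneg_right ?_ (add_nonneg (hu0 _) (hu0 _))
    rw [hu]
    have h2 := abs_max_sub_max_le_abs (w (e + 1) - 1 / r) (w e - 1 / r) 0
    refine h2.trans (le_of_eq ?_)
    congr 1
    ring
  have hM2 : M ^ 2 ≤ ∑ e, |w (e + 1) - w e| * (u (e + 1) + u e) := by
    have := harc.trans (Finset.sum_le_sum fun e _ => hdiff e)
    linarith
  have hCS := Finset.sum_mul_sq_le_sq_mul_sq (Finset.univ : Finset (ZMod r))
    (fun e => |w (e + 1) - w e|) (fun e => u (e + 1) + u e)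
  have hS1 : ∑ e, |w (e + 1) - w e| ^ 2 = cyc_D w := by
    unfold cyc_D
    exact Finset.sum_congr rfl fun e _ => sq_abs _
  have hS2 : ∑ e, (u (e + 1) + u e) ^ 2 ≤ 4 * M := by
    calc ∑ e, (u (e + 1) + u e) ^ 2 ≤ ∑ e, (2 * u (e + 1) ^ 2 + 2 * u e ^ 2) := by
          refine Finset.sum_le_sum fun e _ => ?_
          nlinarith [sq_nonneg (u (e + 1) - u e)]
      _ = 4 * ∑ e, u e ^ 2 := by
          rw [Finset.sum_add_distrib, ← Finset.mul_sum, ← Finset.mul_sum,
            cyc_shift (fun e => u e ^ 2) 1]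
          ring
      _ ≤ 4 * ∑ e, M * u e := by
          refine mul_le_mul_of_nonneg_left (Finset.sum_le_sum fun e _ => ?_) (by norm_num)
          rw [sq]
          exact mul_le_mul_of_nonneg_right (huM e) (hu0 e)
      _ ≤ 4 * M := by
          rw [← Finset.mul_sum]
          nlinarith
  have hM4 : (M ^ 2) ^ 2 ≤ cyc_D w * (4 * M) := by
    calc (M ^ 2) ^ 2 ≤ (∑ e, |w (e + 1) - w e| * (u (e + 1) + u e)) ^ 2 :=
          pow_le_pow_left₀ (by positivity) hM2 2
      _ ≤ _ := hCS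
      _ ≤ cyc_D w * (4 * M) := by
          rw [hS1]
          exact mul_le_mul_of_nonneg_left hS2 (cyc_D_nonneg w)
  have hE0 := cyc_E_nonneg w
  have hM3 : M ^ 3 ≤ 4 * cyc_D w := by
    rcases hM0.eq_or_lt with h | h
    · rw [← h]
      have := cyc_D_nonneg w
      norm_num
      exact this
    · have h1 : M * M ^ 3 ≤ M * (4 * cyc_D w) := by nlinarith
      exact le_of_mul_le_mul_left h1 h
  have h3 : (cyc_E w / 2) ^ 3 ≤ M ^ 3 := pow_le_pow_left₀ (by positivity) hME 3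
  have h4 : (cyc_E w / 2) ^ 3 = cyc_E w ^ 3 / 8 := by ring
  rw [h4] at h3
  linarith

/-- the distribution at time `N` -/
noncomputable def cyc_w (r : ℕ) (N : ℕ) : ZMod r → ℝ :=
  (Lc (r := r))^[N] (Pi.single (0 : ZMod r) (1 : ℝ))

omit [NeZero r] in
theorem cyc_w_succ (N : ℕ) : cyc_w r (N + 1) = Lc (cyc_w r N) := by
  unfold cyc_w
  rw [Function.iterate_succ_apply']

theorem cyc_w_nonneg (N : ℕ) : ∀ e, 0 ≤ cyc_w r N e := by
  induction N with
  | zero =>
    intro e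
    unfold cyc_w
    rw [Function.iterate_zero_apply]
    by_cases h : e = 0
    · subst h; simp
    · simp [Pi.single_eq_of_ne h]
  | succ N ih =>
    rw [cyc_w_succ]
    exact cyc_nonneg _ ih

theorem cyc_w_sum (N : ℕ) : ∑ e, cyc_w r N e = 1 := by
  induction N with
  | zero =>
    unfold cyc_w
    rw [Function.iterate_zero_apply]
    simp
  | succ N ih => rw [cyc_w_succ, cyc_sum, ih]

theorem cyc_w_le_one (N : ℕ) (e : ZMod r) : cyc_w r N e ≤ 1 := by
  rw [← cyc_w_sum (r := r) N]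
  exact Finset.single_le_sum (fun e _ => cyc_w_nonneg N e) (Finset.mem_univ e)

theorem cyc_pair (m : ℕ) : ∀ k : ℕ, ∑ e, cyc_w r m e * cyc_w r k e = cyc_w r (m + k) 0 := by
  induction m with
  | zero =>
    intro k
    rw [zero_add]
    have h : ∀ e : ZMod r, cyc_w r 0 e = if e = 0 then 1 else 0 := by
      intro e
      unfold cyc_w
      rw [Function.iterate_zero_apply, Pi.single_apply]
    simp only [h, ite_mul, one_mul, zero_mul]
    rw [Finset.sum_ite_eq' Finset.univ (0 : ZMod r)]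
    simp
  | succ m ih =>
    intro k
    rw [cyc_w_succ, cyc_adj, ← cyc_w_succ, ih (k + 1)]
    congr 1
    ring

theorem cyc_E_bound (m : ℕ) :
    cyc_E (cyc_w r m) ≤ 2 / (r : ℝ) ∨ cyc_E (cyc_w r m) ^ 2 * (64 + m) ≤ 64 := by
  induction m with
  | zero =>
    right
    have h : cyc_E (cyc_w r 0) ≤ 1 := by
      unfold cyc_E
      calc ∑ e, cyc_w r 0 e ^ 2 ≤ ∑ e, cyc_w r 0 e := by
            refine Finset.sum_le_sum fun e _ => ?_
            have h1 := cyc_w_nonneg (r := r) 0 e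
            have h2 := cyc_w_le_one (r := r) 0 e
            nlinarith
        _ = 1 := cyc_w_sum 0
    have h0 := cyc_E_nonneg (cyc_w r 0)
    push_cast
    nlinarith
  | succ m ih =>
    have h1 := cyc_E_Lc (cyc_w r m)
    rw [← cyc_w_succ] at h1
    have hD := cyc_D_nonneg (cyc_w r m)
    by_cases h2 : cyc_E (cyc_w r m) ≤ 2 / (r : ℝ)
    · left
      linarith
    · right
      rw [not_le] at h2
      have h3 : cyc_E (cyc_w r m) ^ 2 * (64 + m) ≤ 64 := by
        rcases ih with h | h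
        · exact absurd h (not_le.2 h2)
        · exact h
      have h4 := cyc_nash (cyc_w r m) (cyc_w_nonneg m) (cyc_w_sum m) h2.le
      obtain ⟨E, hE⟩ : ∃ E, E = cyc_E (cyc_w r m) := ⟨_, rfl⟩
      obtain ⟨E', hE'⟩ : ∃ E', E' = cyc_E (cyc_w r (m + 1)) := ⟨_, rfl⟩
      rw [← hE] at h1 h3 h4
      rw [← hE'] at h1
      rw [← hE']
      have hE0 : 0 ≤ E := by rw [hE]; exact cyc_E_nonneg _
      have hE'0 : 0 ≤ E' := by rw [hE']; exact cyc_E_nonneg _
      obtain ⟨x, hx⟩ : ∃ x, x = E ^ 2 := ⟨_, rfl⟩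
      have hx0 : 0 ≤ x := by rw [hx]; positivity
      have hm : (0 : ℝ) ≤ m := by positivity
      have hx1 : x ≤ 1 := by
        rw [← hx] at h3
        nlinarith
      have h5 : E' ≤ E * (1 - x / 128) := by
        rw [hx]
        nlinarith
      have h6 : E' ^ 2 ≤ x * (1 - x / 128) ^ 2 := by
        calc E' ^ 2 ≤ (E * (1 - x / 128)) ^ 2 := pow_le_pow_left₀ hE'0 h5 2
          _ = _ := by rw [mul_pow, hx]
      rw [← hx] at h3
      have h7 : x * (1 - x / 128) ^ 2 * (64 + m + 1) ≤ (64 + x) * (1 - x / 128) ^ 2 := by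
        have h8 : x * (64 + m + 1) ≤ 64 + x := by nlinarith
        have h9 := mul_le_mul_of_nonneg_right h8 (sq_nonneg (1 - x / 128))
        nlinarith
      have h8 : (64 + x) * (1 - x / 128) ^ 2 ≤ 64 := by
        have : (64 + x) * (1 - x / 128) ^ 2 = 64 - x ^ 2 * (192 - x) / 16384 := by ring
        rw [this]
        have : 0 ≤ x ^ 2 * (192 - x) := mul_nonneg (sq_nonneg _) (by linarith)
        linarith
      push_cast
      calc E' ^ 2 * (64 + (m + 1)) ≤ x * (1 - x / 128) ^ 2 * (64 + m + 1) := by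
            rw [← add_assoc]
            exact mul_le_mul_of_nonneg_right h6 (by positivity)
        _ ≤ _ := h7
        _ ≤ _ := h8

theorem cyc_w_zero_le (m : ℕ) : cyc_w r (m + m) 0 ≤ cyc_E (cyc_w r m) ∧
    cyc_w r (m + m + 1) 0 ≤ cyc_E (cyc_w r m) := by
  constructor
  · rw [← cyc_pair]
    unfold cyc_E
    refine le_of_eq (Finset.sum_congr rfl fun e _ => ?_)
    ring
  · have h1 := cyc_pair (r := r) (m + 1) m
    rw [cyc_w_succ, cyc_form] at h1
    have h2 : m + m + 1 = m + 1 + m := by ring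
    rw [h2, ← h1]
    have := cyc_D_nonneg (cyc_w r m)
    linarith

theorem cyc_E_le {m : ℕ} (hm : 1 ≤ m) :
    cyc_E (cyc_w r m) ≤ 8 / Real.sqrt m + 2 / (r : ℝ) := by
  have h0 : (0 : ℝ) ≤ 8 / Real.sqrt m := by positivity
  have h1 : (0 : ℝ) ≤ 2 / (r : ℝ) := by positivity
  rcases cyc_E_bound (r := r) m with h | h
  · linarith
  · have hm0 : (0 : ℝ) < m := by exact_mod_cast hm
    have hE0 := cyc_E_nonneg (cyc_w r m)
    have h2 : cyc_E (cyc_w r m) * Real.sqrt m ≤ 8 := by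
      refine le_of_sq_le_sq ?_ (by norm_num)
      rw [mul_pow, Real.sq_sqrt hm0.le]
      nlinarith [sq_nonneg (cyc_E (cyc_w r m))]
    have h3 : cyc_E (cyc_w r m) ≤ 8 / Real.sqrt m := by
      rw [le_div_iff₀ (Real.sqrt_pos.2 hm0)]
      exact h2
    linarith

end cyc

theorem cyc_return {r : ℕ} [NeZero r] (N : ℕ) (hN : 1 ≤ N) :
    ((Lc (r := r))^[N] (Pi.single (0 : ZMod r) (1 : ℝ))) 0 ≤ 16 / Real.sqrt N + 2 / r := by
  have h1 : (0 : ℝ) ≤ 2 / (r : ℝ) := by positivity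
  change cyc_w r N 0 ≤ _
  rcases Nat.lt_or_ge N 2 with h | h
  · have : N = 1 := by omega
    subst this
    have h2 := cyc_w_le_one (r := r) 1 0
    rw [Nat.cast_one, Real.sqrt_one]
    linarith
  · obtain ⟨m, hm⟩ : ∃ m : ℕ, N = m + m ∨ N = m + m + 1 := ⟨N / 2, by omega⟩
    have hm1 : 1 ≤ m := by omega
    have hle : cyc_w r N 0 ≤ cyc_E (cyc_w r m) := by
      rcases hm with hm | hm
      · rw [hm]; exact (cyc_w_zero_le m).1
      · rw [hm]; exact (cyc_w_zero_le m).2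
    refine (hle.trans (cyc_E_le hm1)).trans ?_
    have h3 : (8 : ℝ) / Real.sqrt m ≤ 16 / Real.sqrt N := by
      have hm0 : (0 : ℝ) < m := by exact_mod_cast hm1
      have hN0 : (0 : ℝ) < N := by exact_mod_cast hN
      rw [div_le_div_iff₀ (Real.sqrt_pos.2 hm0) (Real.sqrt_pos.2 hN0)]
      have h4 : Real.sqrt N ≤ 2 * Real.sqrt m := by
        rw [Real.sqrt_le_left (by positivity), mul_pow, Real.sq_sqrt hm0.le]
        have h5 : N ≤ 4 * m := by omega
        have h6 : (N : ℝ) ≤ 4 * m := by exact_mod_cast h5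
        linarith
      linarith
    linarith

end Pool.Agent.TH595.SP
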