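import Mathlib

set_option autoImplicit false

/-!
Definitions for the construction of groups with prescribed speed functions (problem MP_d05e11_al).

* `wlen`, `speed` : word length and speed of a random walk;
* `Gam r` : lamplighter group over the torus `(Z/r)^3` acted on by `D_r^3`;
* `HH r` : diagonal product of `Gam (r s)` wreath `Z/(2*64^s)`, over all `s`, together with the base.
-/

namespace Pool.Agent.TH595.SP

open scoped BigOperators

/-! ### word length and speed -/

/-- word length of `g` with respect to the set `S` -/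
noncomputable def wlen {G : Type*} [Group G] (S : Set G) (g : G) : ℕ :=
  sInf {n | ∃ l : List G, l.length = n ∧ (∀ x ∈ l, x ∈ S) ∧ l.prod = g}

/-- expected word length of the product of `n` independent elements with law `μ` -/
noncomputable def speed {G : Type*} [Group G] (S : Set G) (μ : G →₀ ℝ) (n : ℕ) : ℝ :=
  ∑ w ∈ Fintype.piFinset (fun _ : Fin n => μ.support),
    (∏ i, μ (w i)) * (wlen S (List.ofFn w).prod : ℝ)

/-- averaging operator: `Av e f g` is the mean of `f (g * e i)` over the finite index type -/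
noncomputable def Av {ι G : Type*} [Fintype ι] [Mul G] (e : ι → G) (f : G → ℝ) (g : G) : ℝ :=
  (Fintype.card ι : ℝ)⁻¹ * ∑ i, f (g * e i)

/-! ### letters -/

/-- the first letter group -/
abbrev LA : Type := Fin 3 → ZMod 2
/-- the second letter group -/
abbrev LB : Type := (Fin 3 → ZMod 2) × ZMod 2
/-- all letters -/
abbrev LL : Type := LA × LB

/-! ### the group `Gam r` -/

/-- the action of the dihedral group on `ZMod r` -/
def dact {r : ℕ} : DihedralGroup r → ZMod r → ZMod r
  | .r i, x => x + i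
  | .sr i, x => -x - i

theorem dact_one {r : ℕ} (x : ZMod r) : dact (1 : DihedralGroup r) x = x := by
  rw [DihedralGroup.one_def]; simp [dact]

theorem dact_mul {r : ℕ} (a b : DihedralGroup r) (x : ZMod r) :
    dact (a * b) x = dact a (dact b x) := by
  rcases a with i | i <;> rcases b with j | j <;>
    simp [dact] <;> ring

/-- the torus -/
abbrev TX (r : ℕ) : Type := Fin 3 → ZMod r

/-- the group acting on the torus -/
abbrev QQ (r : ℕ) : Type := Fin 3 → DihedralGroup r

/-- the action on the torus -/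
def qact {r : ℕ} (q : QQ r) (x : TX r) : TX r := fun i => dact (q i) (x i)

theorem qact_one {r : ℕ} (x : TX r) : qact (1 : QQ r) x = x := by
  funext i; exact dact_one _

theorem qact_mul {r : ℕ} (a b : QQ r) (x : TX r) : qact (a * b) x = qact a (qact b x) := by
  funext i; exact dact_mul _ _ _

theorem qact_inv_qact {r : ℕ} (a : QQ r) (x : TX r) : qact a⁻¹ (qact a x) = x := by
  rw [← qact_mul, inv_mul_cancel, qact_one]

theorem qact_qact_inv {r : ℕ} (a : QQ r) (x : TX r) : qact a (qact a⁻¹ x) = x := by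
  rw [← qact_mul, mul_inv_cancel, qact_one]

/-- the lamplighter group over the torus -/
@[ext] structure Gam (r : ℕ) : Type where
  /-- lamps -/
  lamp : TX r → ZMod 2
  /-- motion -/
  q : QQ r

namespace Gam

variable {r : ℕ}

instance : Mul (Gam r) := ⟨fun g h => ⟨fun x => g.lamp x + h.lamp (qact g.q⁻¹ x), g.q * h.q⟩⟩
instance : One (Gam r) := ⟨⟨fun _ => 0, 1⟩⟩
instance : Inv (Gam r) := ⟨fun g => ⟨fun x => -(g.lamp (qact g.q x)), g.q⁻¹⟩⟩

@[simp] theorem mul_lamp (g h : Gam r) (x : TX r) :
    (g * h).lamp x = g.lamp x + h.lamp (qact g.q⁻¹ x) := rfl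
@[simp] theorem mul_q (g h : Gam r) : (g * h).q = g.q * h.q := rfl
@[simp] theorem one_lamp (x : TX r) : (1 : Gam r).lamp x = 0 := rfl
@[simp] theorem one_q : (1 : Gam r).q = 1 := rfl
@[simp] theorem inv_lamp (g : Gam r) (x : TX r) : (g⁻¹).lamp x = -(g.lamp (qact g.q x)) := rfl
@[simp] theorem inv_q (g : Gam r) : (g⁻¹).q = g.q⁻¹ := rfl

instance : Group (Gam r) := Group.ofLeftAxioms
  (by
    intro a b c
    ext x
    · simp [qact_mul, mul_inv_rev, add_assoc]
    · simp [mul_assoc])
  (by
    intro a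
    ext x
    · simp [qact_one]
    · simp)
  (by
    intro a
    ext x
    · simp [CharTwo.add_self_eq_zero]
    · simp)

end Gam

/-- `0 ↦ 1`, `1 ↦ sr j` -/
def dzo {r : ℕ} (j : ZMod r) (a : ZMod 2) : DihedralGroup r := if a = 0 then 1 else .sr j

theorem dzo_zero {r : ℕ} (j : ZMod r) : dzo j 0 = 1 := by simp [dzo]

theorem dzo_add {r : ℕ} (j : ZMod r) (a b : ZMod 2) : dzo j (a + b) = dzo j a * dzo j b := by
  have h01 : ∀ a : ZMod 2, a = 0 ∨ a = 1 := by decide
  have h10 : ¬ ((1 : ZMod 2) = 0) := by decide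
  have h11 : ((1 : ZMod 2) + 1) = 0 := by decide
  rcases h01 a with rfl | rfl <;> rcases h01 b with rfl | rfl
  · simp [dzo]
  · simp [dzo]
  · simp [dzo]
  · rw [h11]
    simp [dzo]

/-- the first letters -/
def iA {r : ℕ} (a : LA) : Gam r := ⟨fun _ => 0, fun i => dzo (-1) (a i)⟩

/-- the second letters -/
def iB {r : ℕ} (b : LB) : Gam r := ⟨fun x => if x = 0 then b.2 else 0, fun i => dzo 0 (b.1 i)⟩

theorem iA_zero {r : ℕ} : (iA 0 : Gam r) = 1 := by
  ext x
  · simp [iA]
  · simp [iA, dzo]

theorem iA_add {r : ℕ} (a b : LA) : (iA (a + b) : Gam r) = iA a * iA b := by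
  ext x
  · simp [iA]
  · simp [iA, dzo_add]

theorem qact_dzo_zero {r : ℕ} (b : Fin 3 → ZMod 2) (x : TX r) :
    qact (fun i => dzo 0 (b i)) x = 0 ↔ x = 0 := by
  constructor
  · intro h
    funext i
    have := congrFun h i
    simp only [qact, dzo] at this
    split_ifs at this with h1
    · simpa [dact_one] using this
    · simpa [dact] using this
  · rintro rfl
    funext i
    simp only [qact, dzo]
    split_ifs with h1
    · simp [dact_one]
    · simp [dact]

theorem iB_zero {r : ℕ} : (iB 0 : Gam r) = 1 := by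
  ext x
  · simp [iB]
  · simp [iB, dzo]

theorem iB_add {r : ℕ} (a b : LB) : (iB (a + b) : Gam r) = iB a * iB b := by
  ext x
  · have h : qact (fun i => dzo 0 (a.1 i))⁻¹ x = 0 ↔ x = 0 := by
      constructor
      · intro h
        have h2 := (qact_dzo_zero a.1 (0 : TX r)).2 rfl
        rw [← h, qact_qact_inv] at h2
        rw [h2]; exact h
      · rintro rfl
        have h2 := (qact_dzo_zero a.1 (0 : TX r)).2 rfl
        conv_lhs => rw [← h2]
        rw [qact_inv_qact]
    simp only [iB, Gam.mul_lamp, h, Prod.snd_add]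
    split_ifs <;> simp
  · simp [iB, dzo_add]

/-- product of a list of pairs of letters -/
def wprod {r : ℕ} (w : List LL) : Gam r := (w.map fun p => iA p.1 * iB p.2).prod

/-- number of lit lamps -/
noncomputable def psi {r : ℕ} (g : Gam r) : ℝ := ({x | g.lamp x ≠ 0} : Set (TX r)).ncard

/-- `WB N` is the mean of `psi` after `N` random second letters, separated by random first letters -/
noncomputable def WB {r : ℕ} : ℕ → Gam r → ℝ
  | 0 => psi
  | N + 1 => Av (iB (r := r)) (Av (iA (r := r)) (WB N))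

/-! ### walks on the cycle and the torus -/

/-- lazy walk on the cycle -/
noncomputable def Lc {r : ℕ} (f : ZMod r → ℝ) (e : ZMod r) : ℝ := (2 * f e + f (e + 1) + f (e - 1)) / 4

/-- step vector -/
def sv {r : ℕ} (β α : Fin 3 → ZMod 2) : TX r :=
  fun i => if α i = 0 then 0 else if β i = 0 then 1 else -1

/-- lazy walk on the torus (independent coordinates) -/
noncomputable def L3 {r : ℕ} (f : TX r → ℝ) (d : TX r) : ℝ :=
  (1 / 64) * ∑ β : Fin 3 → ZMod 2, ∑ α : Fin 3 → ZMod 2, f (d + sv β α)

open Classical in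
/-- probability that the walk started at `d` is at `0` at one of the times `0, ..., N-1` -/
noncomputable def hit {r : ℕ} : ℕ → TX r → ℝ
  | 0, _ => 0
  | N + 1, d => if d = 0 then 1 else L3 (hit N) d

/-! ### the group `HH r` -/

/-- the diagonal product -/
@[ext] structure HH (r : ℕ → ℕ) : Type where
  /-- base configuration -/
  base : ℤ → LL
  /-- configurations in the factors -/
  F : (s : ℕ) → ZMod (2 * 64 ^ s) → Gam (r s)
  /-- position of the cursor -/
  pos : ℤ

namespace HH

variable {r : ℕ → ℕ}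

instance : Mul (HH r) := ⟨fun g h => ⟨fun j => g.base j + h.base (j - g.pos),
  fun s x => g.F s x * h.F s (x - (g.pos : ZMod (2 * 64 ^ s))), g.pos + h.pos⟩⟩
instance : One (HH r) := ⟨⟨fun _ => 0, fun _ _ => 1, 0⟩⟩
instance : Inv (HH r) := ⟨fun g => ⟨fun j => -(g.base (j + g.pos)),
  fun s x => (g.F s (x + (g.pos : ZMod (2 * 64 ^ s))))⁻¹, -g.pos⟩⟩

@[simp] theorem mul_base (g h : HH r) (j : ℤ) :
    (g * h).base j = g.base j + h.base (j - g.pos) := rfl
@[simp] theorem mul_F (g h : HH r) (s : ℕ) (x : ZMod (2 * 64 ^ s)) :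
    (g * h).F s x = g.F s x * h.F s (x - (g.pos : ZMod (2 * 64 ^ s))) := rfl
@[simp] theorem mul_pos (g h : HH r) : (g * h).pos = g.pos + h.pos := rfl
@[simp] theorem one_base (j : ℤ) : (1 : HH r).base j = 0 := rfl
@[simp] theorem one_F (s : ℕ) (x : ZMod (2 * 64 ^ s)) : (1 : HH r).F s x = 1 := rfl
@[simp] theorem one_pos : (1 : HH r).pos = 0 := rfl
@[simp] theorem inv_base (g : HH r) (j : ℤ) : (g⁻¹).base j = -(g.base (j + g.pos)) := rfl
@[simp] theorem inv_F (g : HH r) (s : ℕ) (x : ZMod (2 * 64 ^ s)) :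
    (g⁻¹).F s x = (g.F s (x + (g.pos : ZMod (2 * 64 ^ s))))⁻¹ := rfl
@[simp] theorem inv_pos (g : HH r) : (g⁻¹).pos = -g.pos := rfl

theorem hext {g h : HH r} (h1 : ∀ j, g.base j = h.base j) (h2 : ∀ s x, g.F s x = h.F s x)
    (h3 : g.pos = h.pos) : g = h := by
  ext1
  · funext j; exact h1 j
  · funext s x; exact h2 s x
  · exact h3

instance : Group (HH r) := Group.ofLeftAxioms
  (by
    intro a b c
    refine hext ?_ ?_ ?_
    · intro j; simp [add_assoc, sub_sub]
    · intro s x; simp [mul_assoc, sub_sub]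
    · simp [add_assoc])
  (by
    intro a
    refine hext ?_ ?_ ?_
    · intro j; simp
    · intro s x; simp
    · simp)
  (by
    intro a
    refine hext ?_ ?_ ?_
    · intro j; simp
    · intro s x; simp
    · simp)

end HH

variable {r : ℕ → ℕ}

/-- a pair of letters written at the cursor -/
def lam (u : LL) : HH r := ⟨fun j => if j = 0 then u else 0,
  fun s x => (if x = 0 then iA u.1 else 1) * (if x = ((64 ^ s : ℕ) : ZMod (2 * 64 ^ s)) then iB u.2 else 1),
  0⟩

/-- motion of the cursor -/
def tau (d : ℤ) : HH r := ⟨fun _ => 0, fun _ _ => 1, d⟩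

/-- the generators -/
def gens (r : ℕ → ℕ) : Set (HH r) := {g | g = tau 1 ∨ g = tau (-1) ∨ ∃ u, g = lam u}

/-- evaluation of a path: at each step move by `p.1`, then write `p.2` -/
def ev : HH r → List (ℤ × LL) → HH r
  | g, [] => g
  | g, p :: l => ev (g * tau p.1 * lam p.2) l

/-- all steps are `1` or `-1` -/
def Unit1 (l : List ℤ) : Prop := ∀ d ∈ l, d = 1 ∨ d = -1

/-- the path starting at `i` stays in the window `[a,b]` -/
def InWin (a b : ℤ) : ℤ → List ℤ → Prop
  | i, [] => a ≤ i ∧ i ≤ b
  | i, d :: l => (a ≤ i ∧ i ≤ b) ∧ InWin a b (i + d) l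

/-- greedy number of moves to distance at least `k/4`; the current displacement is `d` -/
def kc (k : ℤ) : ℤ → List ℤ → ℕ
  | _, [] => 0
  | d, e :: l => if k ≤ 4 * |d + e| then 1 + kc k 0 l else kc k (d + e) l

/-- maximal absolute value of the position -/
def Rm : ℤ → List ℤ → ℤ
  | i, [] => |i|
  | i, d :: l => max |i| (Rm (i + d) l)

/-- the factor `s` is determined by the base configuration on `[a,b]` -/
def InvW (a b : ℤ) (s : ℕ) (g : HH r) : Prop := ∀ x : ZMod (2 * 64 ^ s),
  g.F s x = iA (∑ j ∈ Finset.Icc a b, if ((j : ℤ) : ZMod (2 * 64 ^ s)) = x then (g.base j).1 else 0) *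
    iB (∑ j ∈ Finset.Icc a b,
      if ((j + 64 ^ s : ℤ) : ZMod (2 * 64 ^ s)) = x then (g.base j).2 else 0)

/-- the letter totals in factor `s` are determined by the base configuration on `[a,b]` -/
def TotW (a b : ℤ) (s : ℕ) (p : Gam (r s) → LL) (g : HH r) : Prop := ∀ x : ZMod (2 * 64 ^ s),
  p (g.F s x) = (∑ j ∈ Finset.Icc a b,
      (if ((j : ℤ) : ZMod (2 * 64 ^ s)) = x then (g.base j).1 else 0),
    ∑ j ∈ Finset.Icc a b,
      (if ((j + 64 ^ s : ℤ) : ZMod (2 * 64 ^ s)) = x then (g.base j).2 else 0))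

/-- averages over all `2^n` paths of length `n` -/
noncomputable def avgP : ℕ → (List ℤ → ℝ) → ℝ
  | 0, Φ => Φ []
  | n + 1, Φ => (avgP n (fun l => Φ (1 :: l)) + avgP n (fun l => Φ (-1 :: l))) / 2

/-- mean over all letters along a fixed path -/
noncomputable def EL : List ℤ → (HH r → ℝ) → HH r → ℝ
  | [], f => Av (lam (r := r)) f
  | d :: l, f => Av (lam (r := r)) (fun g => EL l f (g * tau d))

/-- one step of the random walk: switch, walk, switch -/
def stp (r : ℕ → ℕ) (i : LL × Bool × LL) : HH r :=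
  lam i.1 * tau (if i.2.1 then 1 else -1) * lam i.2.2

open Classical in
/-- state of the pattern of letters at site `x` of the factor `s`, computed from the end:
number of runs of second letters, and whether the pattern starts with a second letter -/
noncomputable def upd (s : ℕ) (x : ZMod (2 * 64 ^ s)) (i : ℤ) (st : ℕ × Bool) : ℕ × Bool :=
  if (i : ZMod (2 * 64 ^ s)) = x then (st.1, false)
  else if ((i + 64 ^ s : ℤ) : ZMod (2 * 64 ^ s)) = x then
    (if st.2 then st.1 else st.1 + 1, true)
  else st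

/-- state of the whole path -/
noncomputable def nst (s : ℕ) (x : ZMod (2 * 64 ^ s)) : ℤ → List ℤ → ℕ × Bool
  | i, [] => upd s x i (0, false)
  | i, d :: l => upd s x i (nst s x (i + d) l)

/-- the block function -/
noncomputable def blk (r : ℕ → ℕ) (s : ℕ) (n : ℝ) : ℝ := min (n / 64 ^ s) (64 ^ s * (r s : ℝ) ^ 3)

end Pool.Agent.TH595.SP
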