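import Pool.Agent.TH595.SP.Defs

set_option autoImplicit false

namespace Pool.Agent.TH595.SP

open scoped BigOperators

variable {r : ℕ → ℕ}

/-! ### `Av` -/

theorem el_Av_add {ι G : Type*} [Fintype ι] [Mul G] (e : ι → G) (A B : G → ℝ) (g : G) :
    Av e (fun g => A g + B g) g = Av e A g + Av e B g := by
  unfold Av
  rw [Finset.sum_add_distrib, mul_add]

theorem el_Av_smul {ι G : Type*} [Fintype ι] [Mul G] (e : ι → G) (c : ℝ) (A : G → ℝ) (g : G) :
    Av e (fun g => c * A g) g = c * Av e A g := by
  unfold Av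
  rw [← Finset.mul_sum]; ring

theorem el_Av_half {ι G : Type*} [Fintype ι] [Mul G] (e : ι → G) (A B : G → ℝ) (g : G) :
    Av e (fun g => (A g + B g) / 2) g = (Av e A g + Av e B g) / 2 := by
  have h : (fun g => (A g + B g) / 2) = fun g => (1 / 2 : ℝ) * (A g + B g) := by
    funext g; ring
  rw [h, el_Av_smul, el_Av_add]; ring

theorem el_Av_const {ι G : Type*} [Fintype ι] [Nonempty ι] [Mul G] (e : ι → G) (c : ℝ) (g : G) :
    Av e (fun _ => c) g = c := by
  unfold Av
  rw [Finset.sum_const, Finset.card_univ, nsmul_eq_mul, ← mul_assoc,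
    inv_mul_cancel₀ (by exact_mod_cast Fintype.card_ne_zero), one_mul]

theorem el_Av_sum {ι G κ : Type*} [Fintype ι] [Mul G] (e : ι → G) (t : Finset κ)
    (f : κ → G → ℝ) (g : G) :
    Av e (fun g => ∑ x ∈ t, f x g) g = ∑ x ∈ t, Av e (f x) g := by
  unfold Av
  rw [Finset.sum_comm, Finset.mul_sum]

theorem el_Av_mono {ι G : Type*} [Fintype ι] [Mul G] (e : ι → G) (A B : G → ℝ) (g : G)
    (h : ∀ i, A (g * e i) ≤ B (g * e i)) : Av e A g ≤ Av e B g := by
  unfold Av
  exact mul_le_mul_of_nonneg_left (Finset.sum_le_sum fun i _ => h i) (by positivity)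

/-! ### `avgP` -/

theorem avgP_mono (n : ℕ) (f h : List ℤ → ℝ) (hfh : ∀ l, Unit1 l → l.length = n → f l ≤ h l) :
    avgP n f ≤ avgP n h := by
  induction n generalizing f h with
  | zero => exact hfh [] (by intro d hd; simp at hd) rfl
  | succ n ih =>
    have h1 := ih (fun l => f (1 :: l)) (fun l => h (1 :: l)) (by
      intro l hl hn
      refine hfh _ ?_ (by simp [hn])
      intro d hd
      rcases List.mem_cons.1 hd with rfl | hd
      · left; rfl
      · exact hl d hd)
    have h2 := ih (fun l => f (-1 :: l)) (fun l => h (-1 :: l)) (by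
      intro l hl hn
      refine hfh _ ?_ (by simp [hn])
      intro d hd
      rcases List.mem_cons.1 hd with rfl | hd
      · right; rfl
      · exact hl d hd)
    simp only [avgP]
    linarith

theorem avgP_add (n : ℕ) (f h : List ℤ → ℝ) :
    avgP n (fun l => f l + h l) = avgP n f + avgP n h := by
  induction n generalizing f h with
  | zero => rfl
  | succ n ih =>
    simp only [avgP]
    rw [ih, ih]; ring

theorem avgP_smul (n : ℕ) (c : ℝ) (f : List ℤ → ℝ) :
    avgP n (fun l => c * f l) = c * avgP n f := by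
  induction n generalizing f with
  | zero => rfl
  | succ n ih =>
    simp only [avgP]
    rw [ih, ih]; ring

theorem avgP_const (n : ℕ) (c : ℝ) : avgP n (fun _ => c) = c := by
  induction n with
  | zero => rfl
  | succ n ih =>
    simp only [avgP]
    rw [ih]; ring

theorem avgP_sum {κ : Type*} (t : Finset κ) (n : ℕ) (f : κ → List ℤ → ℝ) :
    avgP n (fun l => ∑ x ∈ t, f x l) = ∑ x ∈ t, avgP n (f x) := by
  induction n generalizing f with
  | zero => rfl
  | succ n ih =>
    simp only [avgP]
    rw [ih (fun x l => f x (1 :: l)), ih (fun x l => f x (-1 :: l)), ← Finset.sum_add_distrib,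
      Finset.sum_div]

theorem el_Av_avgP {ι : Type*} [Fintype ι] (e : ι → HH r) (n : ℕ) (Φ : List ℤ → HH r → ℝ)
    (g : HH r) :
    Av e (fun g => avgP n (fun l => Φ l g)) g = avgP n (fun l => Av e (Φ l) g) := by
  induction n generalizing Φ with
  | zero => rfl
  | succ n ih =>
    simp only [avgP]
    rw [el_Av_half, ih (fun l => Φ (1 :: l)), ih (fun l => Φ (-1 :: l))]

/-! ### letters -/

theorem el_half_ne (s : ℕ) : ((64 ^ s : ℕ) : ZMod (2 * 64 ^ s)) ≠ 0 := by
  intro h
  rw [ZMod.natCast_eq_zero_iff] at h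
  have h1 : 0 < 64 ^ s := by positivity
  have h2 := Nat.le_of_dvd h1 h
  omega

theorem el_lam_mul (u v : LL) : (lam u * lam v : HH r) = lam (u + v) := by
  refine HH.hext ?_ ?_ ?_
  · intro j
    by_cases hj : j = 0
    · simp [lam, hj]
    · simp [lam, hj]
  · intro s x
    have h0 := el_half_ne s
    by_cases hx : x = 0
    · subst hx
      have h1 : ¬ ((0 : ZMod (2 * 64 ^ s)) = ((64 ^ s : ℕ) : ZMod (2 * 64 ^ s))) := fun h => h0 h.symm
      simp only [lam, HH.mul_F, Int.cast_zero, sub_zero, if_true, if_neg h1, mul_one,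
        Prod.fst_add, iA_add]
    · by_cases hy : x = ((64 ^ s : ℕ) : ZMod (2 * 64 ^ s))
      · simp only [lam, HH.mul_F, Int.cast_zero, sub_zero, if_neg hx, if_pos hy, one_mul,
          Prod.snd_add, iB_add]
      · simp only [lam, HH.mul_F, Int.cast_zero, sub_zero, if_neg hx, if_neg hy, one_mul]
  · simp [lam]

theorem el_U_idem (f : HH r → ℝ) (g : HH r) :
    Av (lam (r := r)) (fun g => Av (lam (r := r)) f g) g = Av (lam (r := r)) f g := by
  have h : ∀ u : LL, Av (lam (r := r)) f (g * lam u) = Av (lam (r := r)) f g := by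
    intro u
    unfold Av
    congr 1
    refine Fintype.sum_equiv (Equiv.addLeft u) _ _ ?_
    intro v
    rw [mul_assoc, el_lam_mul]
    rfl
  have h3 : Av (lam (r := r)) (fun g => Av (lam (r := r)) f g) g =
      (Fintype.card LL : ℝ)⁻¹ * ∑ u : LL, Av (lam (r := r)) f (g * lam u) := rfl
  rw [h3]
  simp only [h]
  rw [Finset.sum_const, Finset.card_univ, nsmul_eq_mul, ← mul_assoc,
    inv_mul_cancel₀ (by exact_mod_cast Fintype.card_ne_zero), one_mul]

theorem el_sum3 (F : LL → Bool → LL → ℝ) :
    ∑ i : LL × Bool × LL, F i.1 i.2.1 i.2.2 = ∑ u : LL, (∑ v : LL, F u true v + ∑ v : LL, F u false v) := by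
  rw [Fintype.sum_prod_type]
  refine Finset.sum_congr rfl fun u _ => ?_
  rw [Fintype.sum_prod_type, Fintype.sum_bool]

theorem el_stp (f : HH r → ℝ) (g : HH r) :
    Av (stp r) f g = Av (lam (r := r)) (fun g =>
      (Av (lam (r := r)) f (g * tau 1) + Av (lam (r := r)) f (g * tau (-1))) / 2) g := by
  have hc : (Fintype.card (LL × Bool × LL) : ℝ) = (Fintype.card LL : ℝ) * (2 * (Fintype.card LL : ℝ)) := by
    have h1 : Fintype.card (LL × Bool × LL) = Fintype.card LL * (2 * Fintype.card LL) := by
      rw [Fintype.card_prod LL (Bool × LL), Fintype.card_prod Bool LL, Fintype.card_bool]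
    rw [h1]; push_cast; ring
  have hL : (Fintype.card LL : ℝ) ≠ 0 := by exact_mod_cast Fintype.card_ne_zero
  have h1 : Av (stp r) f g = (Fintype.card (LL × Bool × LL) : ℝ)⁻¹ *
      ∑ i : LL × Bool × LL, (fun u b v => f (g * lam u * tau (if b then 1 else -1) * lam v))
        i.1 i.2.1 i.2.2 := by
    unfold Av stp
    simp only [mul_assoc]
  have h2 : ∀ (u : LL) (d : ℤ), Av (lam (r := r)) f (g * lam u * tau d) =
      (Fintype.card LL : ℝ)⁻¹ * ∑ v : LL, f (g * lam u * tau d * lam v) := fun u d => rfl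
  have h3 : Av (lam (r := r)) (fun g =>
      (Av (lam (r := r)) f (g * tau 1) + Av (lam (r := r)) f (g * tau (-1))) / 2) g =
      (Fintype.card LL : ℝ)⁻¹ * ∑ u : LL, (Av (lam (r := r)) f (g * lam u * tau 1) +
        Av (lam (r := r)) f (g * lam u * tau (-1))) / 2 := rfl
  rw [h1, h3, el_sum3 (fun u b v => f (g * lam u * tau (if b then 1 else -1) * lam v)), hc]
  simp only [h2, if_true, Bool.false_eq_true, if_false]
  rw [Finset.mul_sum, Finset.mul_sum]
  refine Finset.sum_congr rfl fun u _ => ?_
  generalize (Fintype.card LL : ℝ) = L at hL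
  field_simp

theorem iter_eq (f : HH r → ℝ) (n : ℕ) (g : HH r) :
    ((Av (stp r))^[n + 1] f) g = avgP (n + 1) (fun l => EL l f g) := by
  induction n generalizing g with
  | zero =>
    simp only [zero_add, Function.iterate_one, avgP, EL]
    rw [el_stp, el_Av_half]
  | succ n ih =>
    rw [Function.iterate_succ', Function.comp_apply, el_stp]
    have h1 : ∀ g, Av (lam (r := r)) ((Av (stp r))^[n + 1] f) g =
        avgP (n + 1) (fun l => EL l f g) := by
      intro g
      have h2 : ((Av (stp r))^[n + 1] f) = fun g => avgP (n + 1) (fun l => EL l f g) := by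
        funext g; exact ih g
      rw [h2, el_Av_avgP (lam (r := r)) (n + 1) (fun l => EL l f) g]
      congr 1
      funext l
      cases l with
      | nil => exact el_U_idem f g
      | cons d l => exact el_U_idem (fun g => EL l f (g * tau d)) g
    simp only [h1]
    rw [el_Av_half, el_Av_avgP (lam (r := r)) (n + 1) (fun l g => EL l f (g * tau 1)) g,
      el_Av_avgP (lam (r := r)) (n + 1) (fun l g => EL l f (g * tau (-1))) g]
    rfl

/-! ### `EL` -/

theorem EL_le (f : HH r → ℝ) (B : ℝ) (l : List ℤ) (g : HH r)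
    (h : ∀ (u : LL) (us : List LL), us.length = l.length → f (ev (g * lam u) (l.zip us)) ≤ B) :
    EL l f g ≤ B := by
  induction l generalizing g with
  | nil =>
    rw [EL, ← el_Av_const (lam (r := r)) B g]
    refine el_Av_mono _ _ _ _ ?_
    intro u
    exact h u [] rfl
  | cons d l ih =>
    rw [EL, ← el_Av_const (lam (r := r)) B g]
    refine el_Av_mono _ _ _ _ ?_
    intro u
    refine ih _ ?_
    intro v vs hvs
    have := h u (v :: vs) (by simp [hvs])
    simpa [ev] using this

theorem el_tau_mem (d : ℤ) (hd : d = 1 ∨ d = -1) :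
    (tau d : HH r) ∈ Subgroup.closure (gens r) := by
  refine Subgroup.subset_closure ?_
  rcases hd with rfl | rfl
  · left; rfl
  · right; left; rfl

theorem el_lam_mem (u : LL) : (lam u : HH r) ∈ Subgroup.closure (gens r) :=
  Subgroup.subset_closure (Or.inr (Or.inr ⟨u, rfl⟩))

theorem EL_mono (f h : HH r → ℝ) (hfh : ∀ g ∈ Subgroup.closure (gens r), h g ≤ f g) (l : List ℤ)
    (hl : Unit1 l) (g : HH r) (hg : g ∈ Subgroup.closure (gens r)) : EL l h g ≤ EL l f g := by
  induction l generalizing g with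
  | nil =>
    rw [EL, EL]
    exact el_Av_mono _ _ _ _ fun u => hfh _ (mul_mem hg (el_lam_mem u))
  | cons d l ih =>
    rw [EL, EL]
    refine el_Av_mono _ _ _ _ fun u => ?_
    refine ih (fun x hx => hl x (List.mem_cons_of_mem _ hx)) _ ?_
    exact mul_mem (mul_mem hg (el_lam_mem u)) (el_tau_mem d (hl d List.mem_cons_self))

theorem EL_pos (φ : ℤ → ℝ) (l : List ℤ) (g : HH r) :
    EL l (fun g => φ g.pos) g = φ (g.pos + l.sum) := by
  induction l generalizing g with
  | nil =>
    rw [EL, ← el_Av_const (lam (r := r)) (φ (g.pos + ([] : List ℤ).sum)) g]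
    have h : ∀ u : LL, (g * lam u).pos = g.pos + ([] : List ℤ).sum := by
      intro u; simp [lam]
    simp only [Av, h]
  | cons d l ih =>
    rw [EL, ← el_Av_const (lam (r := r)) (φ (g.pos + (d :: l).sum)) g]
    unfold Av
    congr 1
    refine Finset.sum_congr rfl fun u _ => ?_
    show EL l (fun g => φ g.pos) (g * lam u * tau d) = φ (g.pos + (d :: l).sum)
    rw [ih]
    simp [lam, tau, add_assoc]

theorem EL_sum {κ : Type*} (t : Finset κ) (f : κ → HH r → ℝ) (l : List ℤ) (g : HH r) :
    EL l (fun g => ∑ x ∈ t, f x g) g = ∑ x ∈ t, EL l (f x) g := by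
  induction l generalizing g with
  | nil =>
    simp only [EL]
    exact el_Av_sum _ _ _ _
  | cons d l ih =>
    simp only [EL]
    simp only [ih]
    exact el_Av_sum (lam (r := r)) t (fun x g => EL l (f x) (g * tau d)) g

end Pool.Agent.TH595.SP
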