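import Pool.Agent.TH595.SP.Defs

set_option autoImplicit false

/-!
Mean over the letters at one site of one factor (`EL_site`).
-/

namespace Pool.Agent.TH595.SP

open scoped BigOperators

/-- averaging over a family indexed by a group, compatible with products, is idempotent -/
theorem el2_idem {ι G : Type*} [Fintype ι] [Nonempty ι] [AddGroup ι] [Semigroup G] (e : ι → G)
    (he : ∀ a b, e (a + b) = e a * e b) (φ : G → ℝ) : Av e (Av e φ) = Av e φ := by
  funext g
  have hc : (Fintype.card ι : ℝ) ≠ 0 := by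
    exact_mod_cast Fintype.card_ne_zero
  have h : ∀ a, Av e φ (g * e a) = Av e φ g := by
    intro a
    unfold Av
    congr 1
    have h1 : ∀ b, φ (g * e a * e b) = φ (g * e (a + b)) := by
      intro b; rw [he, mul_assoc]
    simp only [h1]
    exact Fintype.sum_equiv (Equiv.addLeft a) _ _ (fun b => rfl)
  conv_lhs => unfold Av
  have h2 : ∀ a, (Fintype.card ι : ℝ)⁻¹ * ∑ i, φ (g * e a * e i) = Av e φ g := by
    intro a; exact h a
  simp only [h2]
  rw [Finset.sum_const, Finset.card_univ, nsmul_eq_mul, ← mul_assoc, inv_mul_cancel₀ hc, one_mul]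

theorem el2_avA_psi {r : ℕ} : Av (iA (r := r)) psi = psi := by
  funext g
  have hc : (Fintype.card LA : ℝ) ≠ 0 := by
    exact_mod_cast Fintype.card_ne_zero
  have h : ∀ a, psi (g * iA a) = psi g := by
    intro a
    unfold psi
    congr 2
    ext x
    simp [iA]
  unfold Av
  simp only [h]
  rw [Finset.sum_const, Finset.card_univ, nsmul_eq_mul, ← mul_assoc, inv_mul_cancel₀ hc, one_mul]

/-- the function attached to a state -/
noncomputable def el2_stF {r : ℕ} (st : ℕ × Bool) : Gam r → ℝ :=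
  if st.2 then WB st.1 else Av (iA (r := r)) (WB st.1)

variable {r : ℕ → ℕ}

theorem el2_half_ne_zero (s : ℕ) : ((64 ^ s : ℕ) : ZMod (2 * 64 ^ s)) ≠ 0 := by
  intro h
  rw [ZMod.natCast_eq_zero_iff] at h
  have h1 : 0 < 64 ^ s := by positivity
  have h2 := Nat.le_of_dvd h1 h
  omega

theorem el2_avg_fst (f : LA → ℝ) :
    (Fintype.card LL : ℝ)⁻¹ * ∑ u : LL, f u.1 = (Fintype.card LA : ℝ)⁻¹ * ∑ a, f a := by
  have hA : (Fintype.card LA : ℝ) ≠ 0 := by exact_mod_cast Fintype.card_ne_zero
  have hB : (Fintype.card LB : ℝ) ≠ 0 := by exact_mod_cast Fintype.card_ne_zero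
  rw [Fintype.sum_prod_type]
  simp only [Finset.sum_const, Finset.card_univ, nsmul_eq_mul]
  rw [← Finset.mul_sum]
  have : (Fintype.card LL : ℝ) = (Fintype.card LA : ℝ) * (Fintype.card LB : ℝ) := by
    rw [← Nat.cast_mul, ← Fintype.card_prod]
  rw [this]
  field_simp

theorem el2_avg_snd (f : LB → ℝ) :
    (Fintype.card LL : ℝ)⁻¹ * ∑ u : LL, f u.2 = (Fintype.card LB : ℝ)⁻¹ * ∑ a, f a := by
  have hA : (Fintype.card LA : ℝ) ≠ 0 := by exact_mod_cast Fintype.card_ne_zero
  have hB : (Fintype.card LB : ℝ) ≠ 0 := by exact_mod_cast Fintype.card_ne_zero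
  rw [Fintype.sum_prod_type]
  simp only [Finset.sum_const, Finset.card_univ, nsmul_eq_mul]
  have : (Fintype.card LL : ℝ) = (Fintype.card LA : ℝ) * (Fintype.card LB : ℝ) := by
    rw [← Nat.cast_mul, ← Fintype.card_prod]
  rw [this]
  field_simp

theorem el2_cast (s : ℕ) (i : ℤ) (x : ZMod (2 * 64 ^ s)) :
    x - (i : ZMod (2 * 64 ^ s)) = ((64 ^ s : ℕ) : ZMod (2 * 64 ^ s)) ↔
      ((i + 64 ^ s : ℤ) : ZMod (2 * 64 ^ s)) = x := by
  push_cast
  constructor
  · intro h; rw [← h]; ring
  · intro h; rw [← h]; ring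

theorem el2_av (s : ℕ) (x : ZMod (2 * 64 ^ s)) (φ : Gam (r s) → ℝ) (g : HH r) :
    Av (lam (r := r)) (fun g => φ (g.F s x)) g =
      (if (g.pos : ZMod (2 * 64 ^ s)) = x then Av (iA (r := r s)) φ (g.F s x)
        else if ((g.pos + 64 ^ s : ℤ) : ZMod (2 * 64 ^ s)) = x then Av (iB (r := r s)) φ (g.F s x)
        else φ (g.F s x)) := by
  have hL : (Fintype.card LL : ℝ) ≠ 0 := by exact_mod_cast Fintype.card_ne_zero
  split_ifs with h1 h2
  · have h : ∀ u, φ ((g * lam u).F s x) = φ (g.F s x * iA u.1) := by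
      intro u
      have h0 : x - (g.pos : ZMod (2 * 64 ^ s)) = 0 := by rw [h1, sub_self]
      have h3 : ¬ ((0 : ZMod (2 * 64 ^ s)) = ((64 ^ s : ℕ) : ZMod (2 * 64 ^ s))) :=
        fun h => el2_half_ne_zero s h.symm
      simp only [HH.mul_F, lam, h0, if_true, if_neg h3, mul_one]
    unfold Av
    simp only [h]
    exact el2_avg_fst (fun a => φ (g.F s x * iA a))
  · have h : ∀ u, φ ((g * lam u).F s x) = φ (g.F s x * iB u.2) := by
      intro u
      have h3 := (el2_cast s g.pos x).2 h2
      have h0 : ¬ (x - (g.pos : ZMod (2 * 64 ^ s)) = 0) := by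
        rw [h3]; exact el2_half_ne_zero s
      simp only [HH.mul_F, lam]
      rw [if_neg h0, if_pos h3, one_mul]
    unfold Av
    simp only [h]
    exact el2_avg_snd (fun a => φ (g.F s x * iB a))
  · have h : ∀ u, φ ((g * lam u).F s x) = φ (g.F s x) := by
      intro u
      have h3 : ¬ (x - (g.pos : ZMod (2 * 64 ^ s)) = ((64 ^ s : ℕ) : ZMod (2 * 64 ^ s))) :=
        fun h => h2 ((el2_cast s g.pos x).1 h)
      have h0 : ¬ (x - (g.pos : ZMod (2 * 64 ^ s)) = 0) :=
        fun h => h1 (sub_eq_zero.1 h).symm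
      simp only [HH.mul_F, lam]
      rw [if_neg h0, if_neg h3, one_mul, mul_one]
    unfold Av
    simp only [h]
    rw [Finset.sum_const, Finset.card_univ, nsmul_eq_mul, ← mul_assoc, inv_mul_cancel₀ hL, one_mul]

theorem el2_step (s : ℕ) (x : ZMod (2 * 64 ^ s)) (st : ℕ × Bool) (hst : st.2 = true → 1 ≤ st.1)
    (g : HH r) :
    Av (lam (r := r)) (fun g => el2_stF st (g.F s x)) g = el2_stF (upd s x g.pos st) (g.F s x) := by
  rw [el2_av]
  unfold upd
  obtain ⟨N, b⟩ := st
  split_ifs with h1 h2 h3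
  · cases b
    · simp only [el2_stF, Bool.false_eq_true, if_false]
      rw [el2_idem _ iA_add]
    · simp only [el2_stF, Bool.false_eq_true, if_false, if_true]
  · simp only at h3
    subst h3
    have hN : 1 ≤ N := hst rfl
    obtain ⟨M, rfl⟩ : ∃ M, N = M + 1 := ⟨N - 1, by omega⟩
    simp only [el2_stF, if_true, WB]
    rw [el2_idem _ iB_add]
  · have h4 : b = false := by
      cases b
      · rfl
      · exact absurd rfl h3
    subst h4
    simp only [el2_stF, Bool.false_eq_true, if_false, if_true, WB]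
  · rfl

theorem el2_upd (s : ℕ) (x : ZMod (2 * 64 ^ s)) (i : ℤ) (st : ℕ × Bool)
    (hst : st.2 = true → 1 ≤ st.1) :
    (upd s x i st).2 = true → 1 ≤ (upd s x i st).1 := by
  unfold upd
  split_ifs with h1 h2 h3
  · simp
  · intro _; exact hst h3
  · intro _; simp
  · exact hst

theorem el2_nst (s : ℕ) (x : ZMod (2 * 64 ^ s)) (l : List ℤ) :
    ∀ i : ℤ, (nst s x i l).2 = true → 1 ≤ (nst s x i l).1 := by
  induction l with
  | nil =>
    intro i
    exact el2_upd s x i (0, false) (by simp)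
  | cons d l ih =>
    intro i
    exact el2_upd s x i _ (ih (i + d))

theorem el2_congr (f f' : HH r → ℝ) (g : HH r) (h : ∀ u, f (g * lam u) = f' (g * lam u)) :
    Av (lam (r := r)) f g = Av (lam (r := r)) f' g := by
  unfold Av
  simp only [h]

theorem el2_main (s : ℕ) (x : ZMod (2 * 64 ^ s)) (l : List ℤ) :
    ∀ g : HH r, EL l (fun g => psi (g.F s x)) g = el2_stF (nst s x g.pos l) (g.F s x) := by
  induction l with
  | nil =>
    intro g
    have h : (fun g : HH r => psi (g.F s x)) = fun g : HH r => el2_stF (0, false) (g.F s x) := by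
      funext g
      simp only [el2_stF, Bool.false_eq_true, if_false, WB]
      rw [el2_avA_psi]
    show Av (lam (r := r)) (fun g => psi (g.F s x)) g = el2_stF (upd s x g.pos (0, false)) (g.F s x)
    rw [h]
    exact el2_step s x (0, false) (by simp) g
  | cons d l ih =>
    intro g
    show Av (lam (r := r)) (fun g => EL l (fun g => psi (g.F s x)) (g * tau d)) g =
      el2_stF (upd s x g.pos (nst s x (g.pos + d) l)) (g.F s x)
    rw [← el2_step s x (nst s x (g.pos + d) l) (el2_nst s x l _) g]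
    apply el2_congr
    intro u
    rw [ih]
    simp [tau, lam]

theorem EL_site {r : ℕ → ℕ} (s : ℕ) (x : ZMod (2 * 64 ^ s)) (l : List ℤ) (g : HH r) :
    EL l (fun g => psi (g.F s x)) g =
      (if (nst s x g.pos l).2 then WB (nst s x g.pos l).1 (g.F s x)
        else Av (iA (r := r s)) (WB (nst s x g.pos l).1) (g.F s x)) ∧
    ((nst s x g.pos l).2 = true → 1 ≤ (nst s x g.pos l).1) := by
  refine ⟨?_, el2_nst s x l g.pos⟩
  rw [el2_main]
  unfold el2_stF
  split_ifs <;> rfl

end Pool.Agent.TH595.SP
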