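import Pool.Agent.TH595.SP.Defs

set_option autoImplicit false

/-!
Many alternations at every site (job 3201, problem MP_d05e11_al).
-/

namespace Pool.Agent.TH595.SP

open scoped BigOperators

/-- `nst` with a prescribed final state, the last position left out -/
noncomputable def good_fold (s : ℕ) (x : ZMod (2 * 64 ^ s)) : ℤ → List ℤ → ℕ × Bool → ℕ × Bool
  | _, [], st => st
  | i, d :: l, st => upd s x i (good_fold s x (i + d) l st)

theorem good_nst_append (s : ℕ) (x : ZMod (2 * 64 ^ s)) (l1 l2 : List ℤ) :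
    ∀ i : ℤ, nst s x i (l1 ++ l2) = good_fold s x i l1 (nst s x (i + l1.sum) l2) := by
  induction l1 with
  | nil =>
    intro i
    simp [good_fold]
  | cons d l ih =>
    intro i
    show upd s x i (nst s x (i + d) (l ++ l2)) = upd s x i (good_fold s x (i + d) l
      (nst s x (i + (d :: l).sum) l2))
    rw [ih (i + d), List.sum_cons, add_assoc]

theorem good_fold_append (s : ℕ) (x : ZMod (2 * 64 ^ s)) (l1 l2 : List ℤ) (st : ℕ × Bool) :
    ∀ i : ℤ, good_fold s x i (l1 ++ l2) st =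
      good_fold s x i l1 (good_fold s x (i + l1.sum) l2 st) := by
  induction l1 with
  | nil =>
    intro i
    simp [good_fold]
  | cons d l ih =>
    intro i
    show upd s x i (good_fold s x (i + d) (l ++ l2) st) = upd s x i (good_fold s x (i + d) l
      (good_fold s x (i + (d :: l).sum) l2 st))
    rw [ih (i + d), List.sum_cons, add_assoc]

theorem good_upd_mono (s : ℕ) (x : ZMod (2 * 64 ^ s)) (i : ℤ) (st : ℕ × Bool) :
    st.1 ≤ (upd s x i st).1 := by
  unfold upd
  split_ifs <;> simp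

theorem good_fold_mono (s : ℕ) (x : ZMod (2 * 64 ^ s)) (l : List ℤ) (st : ℕ × Bool) :
    ∀ i : ℤ, st.1 ≤ (good_fold s x i l st).1 := by
  induction l with
  | nil => intro i; exact le_rfl
  | cons d l ih => intro i; exact (ih (i + d)).trans (good_upd_mono s x i _)

/-- the invariant between a first letter and a second letter -/
def good_P (N : ℕ) (st : ℕ × Bool) : Prop := N ≤ st.1 ∧ (st.2 = true → N + 1 ≤ st.1)

theorem good_upd_P (s : ℕ) (x : ZMod (2 * 64 ^ s)) (i : ℤ) {N : ℕ} {st : ℕ × Bool}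
    (h : good_P N st) : good_P N (upd s x i st) := by
  obtain ⟨h1, h2⟩ := h
  unfold upd good_P
  split_ifs with h3 h4 h5
  · exact ⟨h1, fun h => by simp at h⟩
  · exact ⟨h1, fun _ => h2 h5⟩
  · exact ⟨by simp; omega, fun _ => by simp; omega⟩
  · exact ⟨h1, h2⟩

theorem good_fold_P (s : ℕ) (x : ZMod (2 * 64 ^ s)) {N : ℕ} (l : List ℤ) {st : ℕ × Bool}
    (h : good_P N st) : ∀ i : ℤ, good_P N (good_fold s x i l st) := by
  induction l with
  | nil => intro i; exact h
  | cons d l ih => intro i; exact good_upd_P s x i (ih (i + d))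

/-- discrete intermediate values -/
theorem good_ivt (l : List ℤ) : Unit1 l → ∀ m : ℤ, 0 ≤ m → m < l.sum →
    ∃ (a : List ℤ) (d : ℤ) (b : List ℤ), l = a ++ d :: b ∧ a.sum = m := by
  induction l with
  | nil =>
    intro _ m h0 h1
    simp at h1
    omega
  | cons d l ih =>
    intro hu m h0 h1
    rcases eq_or_lt_of_le h0 with h | h
    · exact ⟨[], d, l, rfl, by simpa using h⟩
    · have hd : d = 1 ∨ d = -1 := hu d (by simp)
      have hu' : Unit1 l := fun e he => hu e (by simp [he])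
      rw [List.sum_cons] at h1
      obtain ⟨a, e, b, h2, h3⟩ := ih hu' (m - d) (by rcases hd with h | h <;> omega) (by omega)
      refine ⟨d :: a, e, b, by rw [h2]; rfl, ?_⟩
      rw [List.sum_cons, h3]
      ring

theorem good_site (s : ℕ) (c : ZMod (2 * 64 ^ s)) {l : List ℤ} (hu : Unit1 l)
    (hl : ((2 * 64 ^ s : ℕ) : ℤ) ≤ l.sum) (i : ℤ) :
    ∃ (a : List ℤ) (d : ℤ) (b : List ℤ), l = a ++ d :: b ∧
      ((i + a.sum : ℤ) : ZMod (2 * 64 ^ s)) = c := by
  have : NeZero (2 * 64 ^ s) := ⟨by positivity⟩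
  have h1 : (c - (i : ZMod (2 * 64 ^ s))).val < 2 * 64 ^ s := ZMod.val_lt _
  obtain ⟨a, d, b, h2, h3⟩ := good_ivt l hu ((c - (i : ZMod (2 * 64 ^ s))).val : ℤ)
    (by positivity) (lt_of_lt_of_le (by exact_mod_cast h1) hl)
  refine ⟨a, d, b, h2, ?_⟩
  rw [h3]
  push_cast
  rw [ZMod.natCast_val, ZMod.cast_id]
  ring

theorem good_half1 (s : ℕ) (x : ZMod (2 * 64 ^ s)) {l : List ℤ} (hu : Unit1 l)
    (hl : ((2 * 64 ^ s : ℕ) : ℤ) ≤ l.sum) (i : ℤ) (st : ℕ × Bool) :
    good_P st.1 (good_fold s x i l st) := by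
  obtain ⟨a, d, b, h1, h2⟩ := good_site s x hu hl i
  rw [h1, good_fold_append]
  refine good_fold_P s x a ?_ i
  show good_P st.1 (upd s x (i + a.sum) (good_fold s x (i + a.sum + d) b st))
  have h3 := good_fold_mono s x b st (i + a.sum + d)
  unfold upd
  rw [if_pos h2]
  exact ⟨h3, fun h => by simp at h⟩

theorem good_half2 (s : ℕ) (x : ZMod (2 * 64 ^ s)) {l : List ℤ} (hu : Unit1 l)
    (hl : ((2 * 64 ^ s : ℕ) : ℤ) ≤ l.sum) (i : ℤ) {N : ℕ} {st : ℕ × Bool} (h : good_P N st) :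
    N + 1 ≤ (good_fold s x i l st).1 := by
  obtain ⟨a, d, b, h1, h2⟩ := good_site s (x - ((64 ^ s : ℕ) : ZMod (2 * 64 ^ s))) hu hl i
  rw [h1, good_fold_append]
  refine le_trans ?_ (good_fold_mono s x a _ i)
  show N + 1 ≤ (upd s x (i + a.sum) (good_fold s x (i + a.sum + d) b st)).1
  obtain ⟨h3, h4⟩ := good_fold_P s x b h (i + a.sum + d)
  have hne : ((64 ^ s : ℕ) : ZMod (2 * 64 ^ s)) ≠ 0 := by
    intro hc
    rw [ZMod.natCast_eq_zero_iff] at hc
    have h5 := Nat.le_of_dvd (by positivity) hc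
    have h6 : 0 < 64 ^ s := by positivity
    omega
  have h5 : ¬ (((i + a.sum : ℤ) : ZMod (2 * 64 ^ s)) = x) := by
    rw [h2]
    intro hc
    apply hne
    have : ((64 ^ s : ℕ) : ZMod (2 * 64 ^ s)) = x - (x - ((64 ^ s : ℕ) : ZMod (2 * 64 ^ s))) := by
      ring
    rw [this, hc, sub_self]
  have h6 : (((i + a.sum) + 64 ^ s : ℤ) : ZMod (2 * 64 ^ s)) = x := by
    have e : (((i + a.sum) + 64 ^ s : ℤ) : ZMod (2 * 64 ^ s)) =
        ((i + a.sum : ℤ) : ZMod (2 * 64 ^ s)) + ((64 ^ s : ℕ) : ZMod (2 * 64 ^ s)) := by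
      push_cast
      ring
    rw [e, h2]
    ring
  unfold upd
  rw [if_neg h5, if_pos h6]
  split_ifs with h7
  · exact h4 h7
  · show N + 1 ≤ _ + 1
    omega

/-- the counts of a path with a good block -/
theorem good_block (s : ℕ) (x : ZMod (2 * 64 ^ s)) {l1 l2 : List ℤ} (hu1 : Unit1 l1)
    (hu2 : Unit1 l2) (h1 : ((2 * 64 ^ s : ℕ) : ℤ) ≤ l1.sum) (h2 : ((2 * 64 ^ s : ℕ) : ℤ) ≤ l2.sum)
    (l3 : List ℤ) (i : ℤ) : (nst s x (i + l1.sum + l2.sum) l3).1 + 1 ≤
      (nst s x i (l1 ++ (l2 ++ l3))).1 := by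
  rw [good_nst_append, good_nst_append]
  exact good_half2 s x hu1 h1 i (good_half1 s x hu2 h2 _ _)

/-- the counts of a path -/
theorem good_any (s : ℕ) (x : ZMod (2 * 64 ^ s)) (l1 l2 l3 : List ℤ) (i : ℤ) :
    (nst s x (i + l1.sum + l2.sum) l3).1 ≤ (nst s x i (l1 ++ (l2 ++ l3))).1 := by
  rw [good_nst_append, good_nst_append]
  exact (good_fold_mono s x l2 _ _).trans (good_fold_mono s x l1 _ _)

theorem good_avg_append (m n : ℕ) : ∀ Φ : List ℤ → ℝ,
    avgP (m + n) Φ = avgP m (fun l1 => avgP n (fun l2 => Φ (l1 ++ l2))) := by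
  induction m with
  | zero =>
    intro Φ
    rw [Nat.zero_add]
    rfl
  | succ m ih =>
    intro Φ
    rw [Nat.succ_add]
    show (avgP (m + n) (fun l => Φ (1 :: l)) + avgP (m + n) (fun l => Φ (-1 :: l))) / 2 =
      (avgP m (fun l1 => avgP n (fun l2 => Φ (1 :: l1 ++ l2))) +
        avgP m (fun l1 => avgP n (fun l2 => Φ (-1 :: l1 ++ l2)))) / 2
    rw [ih, ih]
    rfl

theorem good_avg_mono (n : ℕ) : ∀ Φ Ψ : List ℤ → ℝ, (∀ l, Unit1 l → Φ l ≤ Ψ l) →
    avgP n Φ ≤ avgP n Ψ := by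
  induction n with
  | zero =>
    intro Φ Ψ h
    exact h [] (fun d hd => by simp at hd)
  | succ n ih =>
    intro Φ Ψ h
    have h1 := ih (fun l => Φ (1 :: l)) (fun l => Ψ (1 :: l)) (fun l hl => h _ (by
      intro d hd
      rcases List.mem_cons.1 hd with h | h
      · exact Or.inl h
      · exact hl d h))
    have h2 := ih (fun l => Φ (-1 :: l)) (fun l => Ψ (-1 :: l)) (fun l hl => h _ (by
      intro d hd
      rcases List.mem_cons.1 hd with h | h
      · exact Or.inr h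
      · exact hl d h))
    show (avgP n (fun l => Φ (1 :: l)) + avgP n (fun l => Φ (-1 :: l))) / 2 ≤
      (avgP n (fun l => Ψ (1 :: l)) + avgP n (fun l => Ψ (-1 :: l))) / 2
    linarith

theorem good_avg_lin (n : ℕ) : ∀ (Φ : List ℤ → ℝ) (a b : ℝ),
    avgP n (fun l => a + b * Φ l) = a + b * avgP n Φ := by
  induction n with
  | zero => intro Φ a b; rfl
  | succ n ih =>
    intro Φ a b
    show (avgP n (fun l => a + b * Φ (1 :: l)) + avgP n (fun l => a + b * Φ (-1 :: l))) / 2 =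
      a + b * ((avgP n (fun l => Φ (1 :: l)) + avgP n (fun l => Φ (-1 :: l))) / 2)
    rw [ih (fun l => Φ (1 :: l)), ih (fun l => Φ (-1 :: l))]
    ring

theorem nst_lower
    (hmom : ∀ h : ℕ, 1 ≤ h →
      (1 / 10 : ℝ) ≤ avgP (4 * h ^ 2) (fun l => if (h : ℤ) ≤ l.sum then (1 : ℝ) else 0))
    (s : ℕ) (x : ZMod (2 * 64 ^ s)) (J n : ℕ) (hn : J * (32 * 4096 ^ s) ≤ n) (i : ℤ) :
    (J : ℝ) / 100 ≤ avgP n (fun l => min ((nst s x i l).1 : ℝ) J) := by
  have hm := hmom (2 * 64 ^ s) (by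
    have : 0 < 64 ^ s := by positivity
    omega)
  have e : 4 * (2 * 64 ^ s) ^ 2 = 16 * 4096 ^ s := by
    have : (4096 : ℕ) ^ s = (64 ^ s) ^ 2 := by
      rw [← pow_mul, mul_comm s 2, pow_mul]
      norm_num
    rw [this]
    ring
  rw [e] at hm
  set T : ℕ := 16 * 4096 ^ s with hT
  set ind : List ℤ → ℝ := fun l => if ((2 * 64 ^ s : ℕ) : ℤ) ≤ l.sum then (1 : ℝ) else 0
    with hind
  have hind0 : ∀ l, 0 ≤ ind l := by
    intro l
    show (0 : ℝ) ≤ if ((2 * 64 ^ s : ℕ) : ℤ) ≤ l.sum then (1 : ℝ) else 0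
    split_ifs <;> norm_num
  induction J generalizing n i with
  | zero =>
    have h1 : avgP n (fun _ => (0 : ℝ) + 0 * 0) ≤
        avgP n (fun l => min ((nst s x i l).1 : ℝ) ((0 : ℕ) : ℝ)) := by
      refine good_avg_mono n _ _ fun l _ => ?_
      simp
    have h2 := good_avg_lin n (fun _ => (0 : ℝ)) 0 0
    rw [h2] at h1
    simpa using h1
  | succ J ih =>
    obtain ⟨n', rfl⟩ : ∃ n', n = T + (T + n') := by
      refine ⟨n - (T + T), ?_⟩
      have : (J + 1) * (32 * 4096 ^ s) = J * (32 * 4096 ^ s) + (T + T) := by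
        rw [hT]
        ring
      omega
    have hn' : J * (32 * 4096 ^ s) ≤ n' := by
      have : (J + 1) * (32 * 4096 ^ s) = J * (32 * 4096 ^ s) + (T + T) := by
        rw [hT]
        ring
      omega
    rw [good_avg_append]
    simp only [good_avg_append T n']
    have key : ∀ l1, Unit1 l1 → ∀ l2, Unit1 l2 → (J : ℝ) / 100 + ind l1 * ind l2 ≤
        avgP n' (fun l3 => min ((nst s x i (l1 ++ (l2 ++ l3))).1 : ℝ) ((J + 1 : ℕ) : ℝ)) := by
      intro l1 hu1 l2 hu2
      have h1 := ih n' hn' (i + l1.sum + l2.sum)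
      have h2 := good_avg_lin n' (fun l3 => min ((nst s x (i + l1.sum + l2.sum) l3).1 : ℝ) J)
        (ind l1 * ind l2) 1
      have h3 : avgP n' (fun l3 => ind l1 * ind l2 +
          1 * min ((nst s x (i + l1.sum + l2.sum) l3).1 : ℝ) J) ≤
          avgP n' (fun l3 => min ((nst s x i (l1 ++ (l2 ++ l3))).1 : ℝ) ((J + 1 : ℕ) : ℝ)) := by
        refine good_avg_mono n' _ _ fun l3 _ => ?_
        by_cases hc : ((2 * 64 ^ s : ℕ) : ℤ) ≤ l1.sum ∧ ((2 * 64 ^ s : ℕ) : ℤ) ≤ l2.sum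
        · have e1 : ind l1 = 1 := if_pos hc.1
          have e2 : ind l2 = 1 := if_pos hc.2
          have h4 := good_block s x hu1 hu2 hc.1 hc.2 l3 i
          have h5 : ((nst s x (i + l1.sum + l2.sum) l3).1 : ℝ) + 1 ≤
              ((nst s x i (l1 ++ (l2 ++ l3))).1 : ℝ) := by exact_mod_cast h4
          rw [e1, e2]
          push_cast
          refine le_min ?_ ?_
          · linarith [min_le_left ((nst s x (i + l1.sum + l2.sum) l3).1 : ℝ) (J : ℝ)]
          · linarith [min_le_right ((nst s x (i + l1.sum + l2.sum) l3).1 : ℝ) (J : ℝ)]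
        · have e1 : ind l1 * ind l2 = 0 := by
            by_cases hc1 : ((2 * 64 ^ s : ℕ) : ℤ) ≤ l1.sum
            · have e2 : ind l2 = 0 := if_neg fun h => hc ⟨hc1, h⟩
              rw [e2, mul_zero]
            · have e2 : ind l1 = 0 := if_neg hc1
              rw [e2, zero_mul]
          have h4 := good_any s x l1 l2 l3 i
          have h5 : ((nst s x (i + l1.sum + l2.sum) l3).1 : ℝ) ≤
              ((nst s x i (l1 ++ (l2 ++ l3))).1 : ℝ) := by exact_mod_cast h4
          rw [e1]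
          push_cast
          refine le_min ?_ ?_
          · linarith [min_le_left ((nst s x (i + l1.sum + l2.sum) l3).1 : ℝ) (J : ℝ)]
          · linarith [min_le_right ((nst s x (i + l1.sum + l2.sum) l3).1 : ℝ) (J : ℝ)]
      linarith
    have h4 : avgP T (fun l1 => avgP T (fun l2 => (J : ℝ) / 100 + ind l1 * ind l2)) =
        (J : ℝ) / 100 + avgP T ind * avgP T ind := by
      have h5 : ∀ l1, avgP T (fun l2 => (J : ℝ) / 100 + ind l1 * ind l2) =
          (J : ℝ) / 100 + avgP T ind * ind l1 := by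
        intro l1
        rw [good_avg_lin]
        ring
      simp only [h5]
      rw [good_avg_lin]
    have h6 : (1 / 10 : ℝ) ≤ avgP T ind := hm
    have h7 : avgP T (fun l1 => avgP T (fun l2 => (J : ℝ) / 100 + ind l1 * ind l2)) ≤
        avgP T (fun l1 => avgP T (fun l2 => avgP n' (fun l3 =>
          min ((nst s x i (l1 ++ (l2 ++ l3))).1 : ℝ) ((J + 1 : ℕ) : ℝ)))) :=
      good_avg_mono T _ _ fun l1 hu1 => good_avg_mono T _ _ fun l2 hu2 => key l1 hu1 l2 hu2
    rw [h4] at h7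
    refine le_trans ?_ h7
    push_cast
    nlinarith

end Pool.Agent.TH595.SP
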