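import Pool.Agent.TH595.SP.Defs

/-!
Expected range of the walk on the 3-dimensional torus (helper626, for helper595).
-/

set_option autoImplicit false

namespace Pool.Agent.TH595.SP

open scoped BigOperators

section

variable {r : ℕ}

/-- indicator of the origin -/
noncomputable def hit_delta (r : ℕ) : TX r → ℝ :=
  fun d => ∏ i, (Pi.single (0 : ZMod r) (1 : ℝ) : ZMod r → ℝ) (d i)

theorem hit_delta_zero : hit_delta r 0 = 1 := by
  simp [hit_delta]

theorem hit_delta_ne {d : TX r} (h : d ≠ 0) : hit_delta r d = 0 := by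
  obtain ⟨i, hi⟩ := Function.ne_iff.1 h
  unfold hit_delta
  refine Finset.prod_eq_zero (Finset.mem_univ i) ?_
  exact Pi.single_eq_of_ne hi 1

theorem hit_delta_nonneg (d : TX r) : 0 ≤ hit_delta r d := by
  by_cases h : d = 0
  · rw [h, hit_delta_zero]; norm_num
  · rw [hit_delta_ne h]

/-- the step in one coordinate -/
def hit_st (r : ℕ) (b a : ZMod 2) : ZMod r := if a = 0 then 0 else if b = 0 then 1 else -1

theorem hit_one_coord (f : ZMod r → ℝ) (e : ZMod r) :
    ∑ b : ZMod 2, ∑ a : ZMod 2, f (e + hit_st r b a) = 4 * Lc f e := by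
  have h2 : ∀ g : ZMod 2 → ℝ, ∑ a : ZMod 2, g a = g 0 + g 1 := fun g => Fin.sum_univ_two g
  have h10 : ¬ ((1 : ZMod 2) = 0) := by decide
  simp only [h2, hit_st, h10, if_true, if_false, add_zero]
  unfold Lc
  rw [← sub_eq_add_neg]
  ring

theorem hit_L3_prod (f : Fin 3 → ZMod r → ℝ) :
    L3 (fun d : TX r => ∏ i, f i (d i)) = fun d => ∏ i, Lc (f i) (d i) := by
  funext d
  have h1 : ∀ β α : Fin 3 → ZMod 2, (∏ i, f i ((d + sv β α : TX r) i)) =
      ∏ i, f i (d i + hit_st r (β i) (α i)) := fun β α => rfl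
  unfold L3
  simp only [h1]
  have h2 : ∑ β : Fin 3 → ZMod 2, ∑ α : Fin 3 → ZMod 2,
      ∏ i, f i (d i + hit_st r (β i) (α i)) =
      ∏ i, ∑ b : ZMod 2, ∑ a : ZMod 2, f i (d i + hit_st r b a) := by
    rw [Fintype.prod_sum]
    refine Finset.sum_congr rfl fun β _ => ?_
    rw [Fintype.prod_sum]
  rw [h2]
  simp only [hit_one_coord]
  rw [Finset.prod_mul_distrib]
  simp
  ring

theorem hit_iter_prod (f : Fin 3 → ZMod r → ℝ) (j : ℕ) :
    (L3 (r := r))^[j] (fun d : TX r => ∏ i, f i (d i)) =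
      fun d => ∏ i, ((Lc (r := r))^[j] (f i)) (d i) := by
  induction j generalizing f with
  | zero => rfl
  | succ j ih =>
    rw [Function.iterate_succ_apply, hit_L3_prod, ih]
    funext d
    simp only [Function.iterate_succ_apply]

/-- the laws -/
noncomputable def hit_u (r j : ℕ) : TX r → ℝ := (L3 (r := r))^[j] (hit_delta r)

theorem hit_u_at (j : ℕ) : hit_u r j 0 =
    (((Lc (r := r))^[j] (Pi.single (0 : ZMod r) (1 : ℝ))) 0) ^ 3 := by
  unfold hit_u hit_delta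
  rw [hit_iter_prod (fun _ => Pi.single (0 : ZMod r) (1 : ℝ))]
  simp

theorem hit_L3_mono {f g : TX r → ℝ} (h : ∀ d, f d ≤ g d) (d : TX r) : L3 f d ≤ L3 g d := by
  unfold L3
  refine mul_le_mul_of_nonneg_left ?_ (by norm_num)
  exact Finset.sum_le_sum fun β _ => Finset.sum_le_sum fun α _ => h _

theorem hit_L3_nonneg {f : TX r → ℝ} (h : ∀ d, 0 ≤ f d) (d : TX r) : 0 ≤ L3 f d := by
  unfold L3
  refine mul_nonneg (by norm_num) ?_
  exact Finset.sum_nonneg fun β _ => Finset.sum_nonneg fun α _ => h _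

theorem hit_u_nonneg (j : ℕ) (d : TX r) : 0 ≤ hit_u r j d := by
  induction j generalizing d with
  | zero => exact hit_delta_nonneg d
  | succ j ih =>
    unfold hit_u at ih ⊢
    rw [Function.iterate_succ_apply']
    exact hit_L3_nonneg ih d

theorem hit_L3_sum (N : ℕ) (F : ℕ → TX r → ℝ) (d : TX r) :
    L3 (fun d => ∑ j ∈ Finset.range N, F j d) d = ∑ j ∈ Finset.range N, L3 (F j) d := by
  unfold L3
  rw [← Finset.mul_sum]
  congr 1
  symm
  rw [Finset.sum_comm]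
  refine Finset.sum_congr rfl fun β _ => ?_
  rw [Finset.sum_comm]

theorem hit_L3_smul (c : ℝ) (f : TX r → ℝ) (d : TX r) :
    L3 (fun d => c * f d) d = c * L3 f d := by
  unfold L3
  simp only [← Finset.mul_sum]
  ring

/-- Green function -/
noncomputable def hit_G (r N : ℕ) (d : TX r) : ℝ := ∑ j ∈ Finset.range N, hit_u r j d

theorem hit_G_succ (N : ℕ) (d : TX r) :
    hit_G r (N + 1) d = hit_delta r d + L3 (hit_G r N) d := by
  have h1 : L3 (hit_G r N) d = ∑ j ∈ Finset.range N, L3 (hit_u r j) d := hit_L3_sum N _ d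
  rw [h1]
  unfold hit_G
  rw [Finset.sum_range_succ', add_comm]
  congr 1
  refine Finset.sum_congr rfl fun j _ => ?_
  unfold hit_u
  rw [Function.iterate_succ_apply']

theorem hit_nonneg (N : ℕ) (d : TX r) : 0 ≤ hit N d := by
  induction N generalizing d with
  | zero => exact le_refl _
  | succ N ih =>
    unfold hit
    split_ifs
    · norm_num
    · exact hit_L3_nonneg ih d

theorem hit_G_nonneg (N : ℕ) (d : TX r) : 0 ≤ hit_G r N d :=
  Finset.sum_nonneg fun j _ => hit_u_nonneg j d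

theorem hit_G_le (N : ℕ) (d : TX r) : hit_G r N d ≤ hit_G r N 0 * hit N d := by
  induction N generalizing d with
  | zero => simp [hit_G]
  | succ N ih =>
    by_cases hd : d = 0
    · subst hd
      simp [hit]
    · have h1 : hit (N + 1) d = L3 (hit N) d := by
        simp only [hit, hd, if_false]
      rw [hit_G_succ, hit_delta_ne hd, zero_add, h1]
      calc L3 (hit_G r N) d ≤ L3 (fun d => hit_G r N 0 * hit N d) d := hit_L3_mono ih d
        _ = hit_G r N 0 * L3 (hit N) d := hit_L3_smul _ _ _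
        _ ≤ hit_G r (N + 1) 0 * L3 (hit N) d := by
            refine mul_le_mul_of_nonneg_right ?_ (hit_L3_nonneg (hit_nonneg N) d)
            unfold hit_G
            rw [Finset.sum_range_succ]
            have := hit_u_nonneg (r := r) N 0
            linarith

end

section

variable {r : ℕ} [NeZero r]

theorem hit_L3_total (f : TX r → ℝ) : ∑ d : TX r, L3 f d = ∑ d : TX r, f d := by
  unfold L3
  rw [← Finset.mul_sum]
  have h1 : ∑ d : TX r, ∑ β : Fin 3 → ZMod 2, ∑ α : Fin 3 → ZMod 2, f (d + sv β α) =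
      ∑ β : Fin 3 → ZMod 2, ∑ α : Fin 3 → ZMod 2, ∑ d : TX r, f d := by
    rw [Finset.sum_comm]
    refine Finset.sum_congr rfl fun β _ => ?_
    rw [Finset.sum_comm]
    refine Finset.sum_congr rfl fun α _ => ?_
    exact Equiv.sum_comp (Equiv.addRight (sv β α)) f
  rw [h1]
  simp
  ring

theorem hit_delta_total : ∑ d : TX r, hit_delta r d = 1 := by
  rw [Finset.sum_eq_single 0]
  · exact hit_delta_zero
  · intro d _ hd
    exact hit_delta_ne hd
  · intro h
    exact absurd (Finset.mem_univ _) h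

theorem hit_u_total (j : ℕ) : ∑ d : TX r, hit_u r j d = 1 := by
  induction j with
  | zero => exact hit_delta_total
  | succ j ih =>
    unfold hit_u at ih ⊢
    simp only [Function.iterate_succ_apply']
    rw [hit_L3_total, ih]

theorem hit_G_total (N : ℕ) : ∑ d : TX r, hit_G r N d = N := by
  unfold hit_G
  rw [Finset.sum_comm]
  simp only [hit_u_total]
  simp

theorem hit_le (N : ℕ) : (N : ℝ) ≤ hit_G r N 0 * ∑ d : TX r, hit N d := by
  rw [← hit_G_total (r := r) N, Finset.mul_sum]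
  exact Finset.sum_le_sum fun d _ => hit_G_le N d

end

theorem hit_sqrt_step (N : ℕ) (hN : 1 ≤ N) :
    1 / (((N + 1 : ℕ) : ℝ) * Real.sqrt ((N + 1 : ℕ) : ℝ)) ≤
      2 / Real.sqrt N - 2 / Real.sqrt ((N + 1 : ℕ) : ℝ) := by
  have hN' : (1 : ℝ) ≤ N := by exact_mod_cast hN
  obtain ⟨s, hs⟩ : ∃ s, s = Real.sqrt (N : ℝ) := ⟨_, rfl⟩
  obtain ⟨t, ht⟩ : ∃ t, t = Real.sqrt ((N + 1 : ℕ) : ℝ) := ⟨_, rfl⟩
  have hs0 : 0 < s := by rw [hs]; exact Real.sqrt_pos.2 (by linarith)
  have ht0 : 0 < t := by rw [ht]; exact Real.sqrt_pos.2 (by positivity)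
  have hs2 : s * s = N := by rw [hs]; exact Real.mul_self_sqrt (by linarith)
  have ht2 : t * t = ((N + 1 : ℕ) : ℝ) := by rw [ht]; exact Real.mul_self_sqrt (by positivity)
  have hst : s ≤ t := by
    rw [hs, ht]
    exact Real.sqrt_le_sqrt (by push_cast; linarith)
  have hdiff : t * t - s * s = 1 := by rw [hs2, ht2]; push_cast; ring
  rw [← hs, ← ht, ← ht2]
  have e1 : 2 / s - 2 / t = 2 * (t - s) / (s * t) := by
    field_simp
  rw [e1, div_le_div_iff₀ (by positivity) (by positivity), one_mul]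
  have h1 : (t - s) * (t + s) = 1 := by linarith
  have h2 : 1 ≤ 2 * (t - s) * t := by nlinarith
  have h3 : s * t ≤ t * t := mul_le_mul_of_nonneg_right hst ht0.le
  calc s * t ≤ (t * t) * 1 := by linarith
    _ ≤ (t * t) * (2 * (t - s) * t) := mul_le_mul_of_nonneg_left h2 (by positivity)
    _ = 2 * (t - s) * (t * t * t) := by ring

theorem hit_sqrt_sum (N : ℕ) :
    ∑ j ∈ Finset.range N, 1 / (((j + 1 : ℕ) : ℝ) * Real.sqrt ((j + 1 : ℕ) : ℝ)) ≤ 3 := by
  have key : ∀ N : ℕ, ∑ j ∈ Finset.range (N + 1),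
      1 / (((j + 1 : ℕ) : ℝ) * Real.sqrt ((j + 1 : ℕ) : ℝ)) ≤
      3 - 2 / Real.sqrt ((N + 1 : ℕ) : ℝ) := by
    intro N
    induction N with
    | zero => norm_num
    | succ N ih =>
      rw [Finset.sum_range_succ]
      have := hit_sqrt_step (N + 1) (by omega)
      linarith
  rcases N with _ | N
  · simp
  · refine (key N).trans ?_
    have : 0 ≤ 2 / Real.sqrt ((N + 1 : ℕ) : ℝ) := by positivity
    linarith

theorem hit_cube {a b : ℝ} (ha : 0 ≤ a) (hb : 0 ≤ b) : (a + b) ^ 3 ≤ 4 * (a ^ 3 + b ^ 3) := by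
  nlinarith [mul_nonneg (add_nonneg ha hb) (sq_nonneg (a - b))]

theorem hit_G_bound {r : ℕ} [NeZero r]
    (hcyc : ∀ N : ℕ, 1 ≤ N →
      ((Lc (r := r))^[N] (Pi.single (0 : ZMod r) (1 : ℝ))) 0 ≤ 16 / Real.sqrt N + 2 / r) (N : ℕ) :
    hit_G r N 0 ≤ 49153 + 32 * N / (r : ℝ) ^ 3 := by
  have hr : (0 : ℝ) < r := by exact_mod_cast Nat.pos_of_ne_zero (NeZero.ne r)
  rcases N with _ | N
  · simp [hit_G]
  unfold hit_G
  rw [Finset.sum_range_succ']
  have h0 : hit_u r 0 0 = 1 := hit_delta_zero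
  rw [h0]
  have h1 : ∀ j ∈ Finset.range N, hit_u r (j + 1) 0 ≤
      16384 * (1 / (((j + 1 : ℕ) : ℝ) * Real.sqrt ((j + 1 : ℕ) : ℝ))) + 32 / (r : ℝ) ^ 3 := by
    intro j _
    rw [hit_u_at]
    have h2 := hcyc (j + 1) (by omega)
    have hs0 : 0 < Real.sqrt ((j + 1 : ℕ) : ℝ) := Real.sqrt_pos.2 (by positivity)
    have hs2 : Real.sqrt ((j + 1 : ℕ) : ℝ) * Real.sqrt ((j + 1 : ℕ) : ℝ) = ((j + 1 : ℕ) : ℝ) :=
      Real.mul_self_sqrt (by positivity)
    calc (((Lc (r := r))^[j + 1] (Pi.single (0 : ZMod r) (1 : ℝ))) 0) ^ 3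
        ≤ (16 / Real.sqrt ((j + 1 : ℕ) : ℝ) + 2 / r) ^ 3 :=
          (Odd.strictMono_pow (by decide : Odd 3)).monotone h2
      _ ≤ 4 * ((16 / Real.sqrt ((j + 1 : ℕ) : ℝ)) ^ 3 + (2 / (r : ℝ)) ^ 3) :=
          hit_cube (by positivity) (by positivity)
      _ = 16384 * (1 / (((j + 1 : ℕ) : ℝ) * Real.sqrt ((j + 1 : ℕ) : ℝ))) + 32 / (r : ℝ) ^ 3 := by
          rw [← hs2]
          obtain ⟨t, ht⟩ : ∃ t, t = Real.sqrt ((j + 1 : ℕ) : ℝ) := ⟨_, rfl⟩
          rw [hs2, ← ht, ← hs2, ← ht]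
          rw [← ht] at hs0
          field_simp
          ring
  have h3 := Finset.sum_le_sum h1
  rw [Finset.sum_add_distrib, ← Finset.mul_sum, Finset.sum_const, Finset.card_range,
    nsmul_eq_mul] at h3
  have h4 := hit_sqrt_sum N
  have h5 : (N : ℝ) * (32 / (r : ℝ) ^ 3) ≤ 32 * ((N + 1 : ℕ) : ℝ) / (r : ℝ) ^ 3 := by
    have : (N : ℝ) * (32 / (r : ℝ) ^ 3) = 32 * (N : ℝ) / (r : ℝ) ^ 3 := by ring
    rw [this]
    refine div_le_div_of_nonneg_right ?_ (by positivity)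
    push_cast
    linarith
  linarith

theorem hit_sum {r : ℕ} [NeZero r]
    (hcyc : ∀ N : ℕ, 1 ≤ N →
      ((Lc (r := r))^[N] (Pi.single (0 : ZMod r) (1 : ℝ))) 0 ≤ 16 / Real.sqrt N + 2 / r) (N : ℕ) :
    min (N : ℝ) ((r : ℝ) ^ 3) ≤ 50000 * ∑ d : TX r, hit N d := by
  have hr : (0 : ℝ) < r := by exact_mod_cast Nat.pos_of_ne_zero (NeZero.ne r)
  have hS : 0 ≤ ∑ d : TX r, hit N d := Finset.sum_nonneg fun d _ => hit_nonneg N d
  rcases Nat.eq_zero_or_pos N with rfl | hN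
  · refine (min_le_left _ _).trans ?_
    push_cast
    positivity
  have hN' : (0 : ℝ) < N := by exact_mod_cast hN
  have h1 := hit_le (r := r) N
  have h2 := hit_G_bound hcyc N
  have hm0 : 0 ≤ min (N : ℝ) ((r : ℝ) ^ 3) := le_min hN'.le (by positivity)
  have h3 : min (N : ℝ) ((r : ℝ) ^ 3) * hit_G r N 0 ≤ 50000 * N := by
    calc min (N : ℝ) ((r : ℝ) ^ 3) * hit_G r N 0
        ≤ min (N : ℝ) ((r : ℝ) ^ 3) * (49153 + 32 * N / (r : ℝ) ^ 3) :=
          mul_le_mul_of_nonneg_left h2 hm0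
      _ = 49153 * min (N : ℝ) ((r : ℝ) ^ 3) +
          min (N : ℝ) ((r : ℝ) ^ 3) * (32 * N / (r : ℝ) ^ 3) := by ring
      _ ≤ 49153 * N + (r : ℝ) ^ 3 * (32 * N / (r : ℝ) ^ 3) := by
          refine add_le_add ?_ ?_
          · exact mul_le_mul_of_nonneg_left (min_le_left _ _) (by norm_num)
          · exact mul_le_mul_of_nonneg_right (min_le_right _ _) (by positivity)
      _ = 49153 * N + 32 * N := by
          field_simp
      _ ≤ 50000 * N := by linarith
  have h4 : min (N : ℝ) ((r : ℝ) ^ 3) * N ≤ (50000 * ∑ d : TX r, hit N d) * N := by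
    calc min (N : ℝ) ((r : ℝ) ^ 3) * N
        ≤ min (N : ℝ) ((r : ℝ) ^ 3) * (hit_G r N 0 * ∑ d : TX r, hit N d) :=
          mul_le_mul_of_nonneg_left h1 hm0
      _ = (min (N : ℝ) ((r : ℝ) ^ 3) * hit_G r N 0) * ∑ d : TX r, hit N d := by ring
      _ ≤ (50000 * N) * ∑ d : TX r, hit N d := mul_le_mul_of_nonneg_right h3 hS
      _ = (50000 * ∑ d : TX r, hit N d) * N := by ring
  exact le_of_mul_le_mul_right h4 hN'

end Pool.Agent.TH595.SP
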