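import Pool.Agent.TH595.SP.Defs

set_option autoImplicit false

namespace Pool.Agent.TH595.SP

open scoped BigOperators

variable {r : ℕ → ℕ}

/-- the base configuration after one step -/
theorem inv_base_step (g : HH r) (d : ℤ) (u : LL) (j : ℤ) :
    (g * tau d * lam u).base j = g.base j + (if j = g.pos + d then u else 0) := by
  simp only [HH.mul_base, HH.mul_pos, tau, lam, add_zero, sub_eq_zero]

/-- the configuration in the factor `s` after one step -/
theorem inv_F_step (g : HH r) (d : ℤ) (u : LL) (s : ℕ) (x : ZMod (2 * 64 ^ s)) :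
    (g * tau d * lam u).F s x = g.F s x *
      ((if ((g.pos + d : ℤ) : ZMod (2 * 64 ^ s)) = x then iA u.1 else 1) *
        (if ((g.pos + d + 64 ^ s : ℤ) : ZMod (2 * 64 ^ s)) = x then iB u.2 else 1)) := by
  simp only [HH.mul_F, HH.mul_pos, tau, lam, mul_one]
  congr 2
  · refine if_congr ?_ rfl rfl
    rw [sub_eq_zero, eq_comm]
  · refine if_congr ?_ rfl rfl
    rw [sub_eq_iff_eq_add, eq_comm]
    push_cast
    rw [add_comm ((g.pos : ZMod (2 * 64 ^ s)) + (d : ZMod (2 * 64 ^ s)))]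

/-- the position after one step -/
theorem inv_pos_step (g : HH r) (d : ℤ) (u : LL) : (g * tau d * lam u).pos = g.pos + d := by
  simp [tau, lam]

/-- distributing a sum with one changed term -/
theorem inv_sum_step {M : Type*} [AddCommMonoid M] (a b p : ℤ) (h1 : a ≤ p) (h2 : p ≤ b)
    (P : ℤ → Prop) [DecidablePred P] (f : ℤ → M) (v : M) :
    (∑ j ∈ Finset.Icc a b, if P j then f j + (if j = p then v else 0) else 0) =
      (∑ j ∈ Finset.Icc a b, if P j then f j else 0) + (if P p then v else 0) := by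
  have h : ∀ j ∈ Finset.Icc a b, (if P j then f j + (if j = p then v else 0) else 0) =
      (if P j then f j else 0) + (if j = p then (if P p then v else 0) else 0) := by
    intro j _
    by_cases hj : j = p
    · subst hj
      by_cases hP : P j <;> simp [hP]
    · by_cases hP : P j <;> simp [hP, hj]
  rw [Finset.sum_congr rfl h, Finset.sum_add_distrib, Finset.sum_ite_eq' (Finset.Icc a b) p,
    if_pos (Finset.mem_Icc.2 ⟨h1, h2⟩)]

theorem inv_cast_ne (s : ℕ) (p : ℤ) :
    ((p : ℤ) : ZMod (2 * 64 ^ s)) ≠ ((p + 64 ^ s : ℤ) : ZMod (2 * 64 ^ s)) := by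
  intro h
  rw [ZMod.intCast_eq_intCast_iff_dvd_sub] at h
  obtain ⟨c, hc⟩ := h
  have hpos : (0 : ℤ) < 64 ^ s := by positivity
  push_cast at hc
  have h2 : (64 ^ s : ℤ) * (2 * c - 1) = 0 := by linear_combination -hc
  rcases mul_eq_zero.1 h2 with h3 | h3
  · omega
  · omega

theorem inv_cast_window (a b : ℤ) (s : ℕ) (hab : b - a < 64 ^ s) (p j : ℤ) (h1 : a ≤ p)
    (h2 : p ≤ b) (h3 : a ≤ j) (h4 : j ≤ b) :
    ((j + 64 ^ s : ℤ) : ZMod (2 * 64 ^ s)) ≠ ((p : ℤ) : ZMod (2 * 64 ^ s)) := by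
  intro h
  rw [ZMod.intCast_eq_intCast_iff_dvd_sub] at h
  obtain ⟨c, hc⟩ := h
  have hpos : (0 : ℤ) < 64 ^ s := by positivity
  push_cast at hc
  have hlt : (64 ^ s : ℤ) * (2 * c) < 0 := by nlinarith
  have hgt : (64 ^ s : ℤ) * (-2) < (64 ^ s : ℤ) * (2 * c) := by nlinarith
  have hc1 : 2 * c < 0 := by
    by_contra hh
    rw [not_lt] at hh
    have := mul_nonneg hpos.le hh
    omega
  have hc2 : -2 < 2 * c := lt_of_mul_lt_mul_left hgt hpos.le
  omega

theorem inv_step (a b : ℤ) (s : ℕ) (hab : b - a < 64 ^ s) (g : HH r) (d : ℤ) (u : LL)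
    (h1 : a ≤ g.pos + d) (h2 : g.pos + d ≤ b) (h : InvW a b s g) :
    InvW a b s (g * tau d * lam u) := by
  intro x
  rw [inv_F_step, h x]
  have e1 : (∑ j ∈ Finset.Icc a b, if ((j : ℤ) : ZMod (2 * 64 ^ s)) = x
      then ((g * tau d * lam u).base j).1 else 0) =
      (∑ j ∈ Finset.Icc a b, if ((j : ℤ) : ZMod (2 * 64 ^ s)) = x then (g.base j).1 else 0) +
        (if ((g.pos + d : ℤ) : ZMod (2 * 64 ^ s)) = x then u.1 else 0) := by
    rw [← inv_sum_step a b (g.pos + d) h1 h2 (fun j => ((j : ℤ) : ZMod (2 * 64 ^ s)) = x)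
      (fun j => (g.base j).1) u.1]
    refine Finset.sum_congr rfl fun j _ => ?_
    rw [inv_base_step]
    by_cases hj : j = g.pos + d <;> simp [hj]
  have e2 : (∑ j ∈ Finset.Icc a b, if ((j + 64 ^ s : ℤ) : ZMod (2 * 64 ^ s)) = x
      then ((g * tau d * lam u).base j).2 else 0) =
      (∑ j ∈ Finset.Icc a b, if ((j + 64 ^ s : ℤ) : ZMod (2 * 64 ^ s)) = x
        then (g.base j).2 else 0) +
        (if ((g.pos + d + 64 ^ s : ℤ) : ZMod (2 * 64 ^ s)) = x then u.2 else 0) := by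
    rw [← inv_sum_step a b (g.pos + d) h1 h2
      (fun j => ((j + 64 ^ s : ℤ) : ZMod (2 * 64 ^ s)) = x) (fun j => (g.base j).2) u.2]
    refine Finset.sum_congr rfl fun j _ => ?_
    rw [inv_base_step]
    by_cases hj : j = g.pos + d <;> simp [hj]
  rw [e1, e2]
  by_cases hx : ((g.pos + d : ℤ) : ZMod (2 * 64 ^ s)) = x
  · have hx' : ((g.pos + d + 64 ^ s : ℤ) : ZMod (2 * 64 ^ s)) ≠ x := by
      rw [← hx]
      exact (inv_cast_ne s (g.pos + d)).symm
    have hT : (∑ j ∈ Finset.Icc a b, if ((j + 64 ^ s : ℤ) : ZMod (2 * 64 ^ s)) = x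
        then (g.base j).2 else 0) = 0 := by
      refine Finset.sum_eq_zero fun j hj => ?_
      rw [Finset.mem_Icc] at hj
      rw [if_neg]
      rw [← hx]
      exact inv_cast_window a b s hab (g.pos + d) j h1 h2 hj.1 hj.2
    rw [if_pos hx, if_neg hx', if_pos hx, if_neg hx', hT, add_zero, iB_zero, mul_one, mul_one,
      mul_one, iA_add]
  · rw [if_neg hx, if_neg hx, add_zero, one_mul]
    by_cases hx' : ((g.pos + d + 64 ^ s : ℤ) : ZMod (2 * 64 ^ s)) = x
    · rw [if_pos hx', if_pos hx', iB_add, mul_assoc]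
    · rw [if_neg hx', if_neg hx', add_zero, mul_one]

theorem inv_inWin_head (a b i : ℤ) (l : List ℤ) (h : InWin a b i l) : a ≤ i ∧ i ≤ b := by
  cases l with
  | nil => exact h
  | cons d l => exact h.1

theorem invW_ev (a b : ℤ) (s : ℕ) (hab : b - a < 64 ^ s) (g : HH r) (l : List (ℤ × LL))
    (hw : InWin a b g.pos (l.map Prod.fst)) (h : InvW a b s g) : InvW a b s (ev g l) := by
  induction l generalizing g with
  | nil => exact h
  | cons p l ih =>
    have hw2 : InWin a b (g.pos + p.1) (l.map Prod.fst) := hw.2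
    have hp := inv_inWin_head a b _ _ hw2
    refine ih _ ?_ (inv_step a b s hab g p.1 p.2 hp.1 hp.2 h)
    rw [inv_pos_step]
    exact hw2

theorem invW_lam (a b : ℤ) (s : ℕ) (ha : a ≤ 0) (hb : 0 ≤ b) (u : LL) :
    InvW a b s (lam u : HH r) := by
  intro x
  have e1 : (∑ j ∈ Finset.Icc a b, if ((j : ℤ) : ZMod (2 * 64 ^ s)) = x
      then ((lam u : HH r).base j).1 else 0) =
        (if (0 : ZMod (2 * 64 ^ s)) = x then u.1 else 0) := by
    have := inv_sum_step a b 0 ha hb (fun j => ((j : ℤ) : ZMod (2 * 64 ^ s)) = x)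
      (fun _ => (0 : LA)) u.1
    simp only [Int.cast_zero, zero_add, ite_self, Finset.sum_const_zero] at this
    rw [← this]
    refine Finset.sum_congr rfl fun j _ => ?_
    by_cases hj : j = 0 <;> simp [hj, lam]
  have e2 : (∑ j ∈ Finset.Icc a b, if ((j + 64 ^ s : ℤ) : ZMod (2 * 64 ^ s)) = x
      then ((lam u : HH r).base j).2 else 0) =
        (if ((64 ^ s : ℕ) : ZMod (2 * 64 ^ s)) = x then u.2 else 0) := by
    have := inv_sum_step a b 0 ha hb (fun j => ((j + 64 ^ s : ℤ) : ZMod (2 * 64 ^ s)) = x)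
      (fun _ => (0 : LB)) u.2
    simp only [zero_add, ite_self, Finset.sum_const_zero] at this
    have h64 : ((64 ^ s : ℕ) : ZMod (2 * 64 ^ s)) = ((64 ^ s : ℤ) : ZMod (2 * 64 ^ s)) := by
      push_cast; rfl
    rw [h64, ← this]
    refine Finset.sum_congr rfl fun j _ => ?_
    by_cases hj : j = 0 <;> simp [hj, lam]
  rw [e1, e2]
  simp only [lam]
  congr 1
  · by_cases hx : x = 0
    · rw [if_pos hx, if_pos hx.symm]
    · rw [if_neg hx, if_neg (fun h => hx h.symm), iA_zero]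
  · by_cases hx : x = ((64 ^ s : ℕ) : ZMod (2 * 64 ^ s))
    · rw [if_pos hx, if_pos hx.symm]
    · rw [if_neg hx, if_neg (fun h => hx h.symm), iB_zero]

theorem inv_rhs_one (a b : ℤ) (s : ℕ) (g : HH r) (h0 : ∀ j, g.base j = 0)
    (x : ZMod (2 * 64 ^ s)) :
    (iA (∑ j ∈ Finset.Icc a b, if ((j : ℤ) : ZMod (2 * 64 ^ s)) = x then (g.base j).1 else 0) *
    iB (∑ j ∈ Finset.Icc a b,
      if ((j + 64 ^ s : ℤ) : ZMod (2 * 64 ^ s)) = x then (g.base j).2 else 0) : Gam (r s)) = 1 := by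
  rw [Finset.sum_eq_zero (fun j _ => by rw [h0 j]; simp),
    Finset.sum_eq_zero (fun j _ => by rw [h0 j]; simp), iA_zero, iB_zero, mul_one]

theorem F_eq_one_of_invW (a b : ℤ) (s : ℕ) (g : HH r) (h : InvW a b s g)
    (h0 : ∀ j, g.base j = 0) (x : ZMod (2 * 64 ^ s)) : g.F s x = 1 := by
  rw [h x, inv_rhs_one a b s g h0 x]

theorem invW_of_trivial (a b : ℤ) (s : ℕ) (g : HH r) (h0 : ∀ j, g.base j = 0)
    (h : ∀ x, g.F s x = 1) : InvW a b s g := by
  intro x
  rw [h x, inv_rhs_one a b s g h0 x]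

theorem base_ev_outside (a b : ℤ) (g : HH r) (l : List (ℤ × LL))
    (hw : InWin a b g.pos (l.map Prod.fst)) (h0 : ∀ j, j ∉ Finset.Icc a b → g.base j = 0) :
    ∀ j, j ∉ Finset.Icc a b → (ev g l).base j = 0 := by
  induction l generalizing g with
  | nil => exact h0
  | cons p l ih =>
    have hw2 : InWin a b (g.pos + p.1) (l.map Prod.fst) := hw.2
    have hp := inv_inWin_head a b _ _ hw2
    refine ih _ ?_ ?_
    · rw [inv_pos_step]
      exact hw2
    · intro j hj
      rw [inv_base_step, h0 j hj, zero_add, if_neg]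
      rintro rfl
      exact hj (Finset.mem_Icc.2 hp)

end Pool.Agent.TH595.SP
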