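import Pool.Agent.TH595.SP.Defs

set_option autoImplicit false

namespace Pool.Agent.TH595.SP

open scoped BigOperators

theorem kcb_unit_cons {e : ℤ} {l : List ℤ} (h : Unit1 (e :: l)) : (e = 1 ∨ e = -1) ∧ Unit1 l :=
  ⟨h e List.mem_cons_self, fun d hd => h d (List.mem_cons_of_mem _ hd)⟩

theorem kcb_abs_step {d e : ℤ} (h : e = 1 ∨ e = -1) : |d + e| ≤ |d| + 1 := by
  refine (abs_add_le d e).trans ?_
  rcases h with rfl | rfl <;> simp

theorem kc_le (k : ℤ) (hk : 1 ≤ k) (d : ℤ) (l : List ℤ) (hl : Unit1 l) :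
    k * (kc k d l : ℤ) ≤ 4 * (|d| + l.length) := by
  induction l generalizing d with
  | nil => simp [kc]
  | cons e l ih =>
    obtain ⟨he, hl'⟩ := kcb_unit_cons hl
    have h1 := kcb_abs_step (d := d) he
    rw [kc]
    split_ifs with h
    · have h2 := ih 0 hl'
      rw [abs_zero] at h2
      push_cast
      simp only [List.length_cons]
      push_cast
      nlinarith
    · have h2 := ih (d + e) hl'
      simp only [List.length_cons]
      push_cast
      linarith

theorem kc_append (k : ℤ) (hk : 1 ≤ k) (d : ℤ) (hd : 4 * |d| < k) (l1 l2 : List ℤ) (h2 : Unit1 l2) :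
    k * (kc k d (l1 ++ l2) : ℤ) ≤ k * (kc k d l1 : ℤ) + 4 * l2.length + k := by
  induction l1 generalizing d with
  | nil =>
    have h := kc_le k hk d l2 h2
    rw [List.nil_append]
    simp only [kc]
    push_cast
    linarith
  | cons e l1 ih =>
    rw [List.cons_append, kc, kc]
    split_ifs with h
    · have h3 := ih 0 (by rw [abs_zero]; linarith)
      push_cast
      linarith
    · exact ih (d + e) (not_le.1 h)

theorem kcb_zero (k : ℤ) (d : ℤ) (hd : 4 * |d| < k) (l : List ℤ) (h : kc k d l = 0) :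
    4 * Rm d l < k := by
  induction l generalizing d with
  | nil => exact hd
  | cons e l ih =>
    rw [kc] at h
    split_ifs at h with h1
    · omega
    · have h2 := ih (d + e) (not_le.1 h1) h
      rw [Rm]
      rcases le_total |d| (Rm (d + e) l) with h3 | h3
      · rw [max_eq_right h3]; exact h2
      · rw [max_eq_left h3]; exact hd

theorem one_le_kc (k : ℤ) (hk : 1 ≤ k) (l : List ℤ) (h : k ≤ 4 * Rm 0 l) : 1 ≤ kc k 0 l := by
  by_contra hc
  have h1 : kc k 0 l = 0 := by omega
  have h2 := kcb_zero k 0 (by rw [abs_zero]; linarith) l h1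
  linarith

theorem kcb_Rm (k : ℤ) (hk : 1 ≤ k) (i d : ℤ) (hd : 4 * |d| < k) (l : List ℤ) (hl : Unit1 l) :
    Rm i l ≤ |i - d| + 2 * k * (kc k d l : ℤ) + k := by
  have h0 : |i| ≤ |i - d| + |d| := by
    have := abs_add_le (i - d) d
    rwa [sub_add_cancel] at this
  induction l generalizing i d with
  | nil =>
    simp only [Rm, kc]
    push_cast
    linarith [abs_nonneg d]
  | cons e l ih =>
    obtain ⟨he, hl'⟩ := kcb_unit_cons hl
    have hkc : (0 : ℤ) ≤ (kc k d (e :: l) : ℤ) := Int.natCast_nonneg _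
    have h5 : 0 ≤ 2 * k * (kc k d (e :: l) : ℤ) := mul_nonneg (by linarith) hkc
    rw [Rm]
    refine max_le (by linarith [abs_nonneg d]) ?_
    have h1 := kcb_abs_step (d := d) he
    rw [kc]
    split_ifs with h
    · have h2 := ih (i + e) 0 (by rw [abs_zero]; linarith) hl' (by simp)
      rw [sub_zero] at h2
      have h3 : |i + e| ≤ |i - d| + |d + e| := by
        have := abs_add_le (i - d) (d + e)
        have h4 : i - d + (d + e) = i + e := by ring
        rwa [h4] at this
      push_cast
      nlinarith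
    · have h6 : i + e - (d + e) = i - d := by ring
      have h2 := ih (i + e) (d + e) (not_le.1 h) hl' (by
        have := abs_add_le (i + e - (d + e)) (d + e)
        rwa [sub_add_cancel] at this)
      rw [h6] at h2
      exact h2

theorem Rm_le (k : ℤ) (hk : 1 ≤ k) (l : List ℤ) (hl : Unit1 l) :
    Rm 0 l ≤ 2 * k * ((kc k 0 l : ℤ) + 1) := by
  have h := kcb_Rm k hk 0 0 (by rw [abs_zero]; linarith) l hl
  rw [sub_zero, abs_zero] at h
  linarith

theorem inWin_Rm (i : ℤ) (l : List ℤ) (R : ℤ) (h : Rm i l ≤ R) : InWin (-R) R i l := by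
  induction l generalizing i with
  | nil => exact abs_le.1 h
  | cons d l ih =>
    rw [Rm] at h
    exact ⟨abs_le.1 ((le_max_left _ _).trans h), ih _ ((le_max_right _ _).trans h)⟩

theorem kcb_inWin_start (a b i : ℤ) (l : List ℤ) (h : InWin a b i l) : a ≤ i ∧ i ≤ b := by
  cases l with
  | nil => exact h
  | cons d l => exact h.1

theorem inWin_append (a b i : ℤ) (l1 l2 : List ℤ) :
    InWin a b i (l1 ++ l2) ↔ InWin a b i l1 ∧ InWin a b (i + l1.sum) l2 := by
  induction l1 generalizing i with
  | nil =>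
    simp only [List.nil_append, List.sum_nil, add_zero]
    exact ⟨fun h => ⟨kcb_inWin_start a b i l2 h, h⟩, fun h => h.2⟩
  | cons d l ih =>
    simp only [List.cons_append, InWin, List.sum_cons]
    rw [ih, add_assoc]
    tauto

theorem inWin_mono (a b a' b' i : ℤ) (l : List ℤ) (ha : a' ≤ a) (hb : b ≤ b')
    (h : InWin a b i l) : InWin a' b' i l := by
  induction l generalizing i with
  | nil => exact ⟨ha.trans h.1, h.2.trans hb⟩
  | cons d l ih => exact ⟨⟨ha.trans h.1.1, h.1.2.trans hb⟩, ih _ h.2⟩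

theorem kcb_abs_le_Rm (i : ℤ) (l : List ℤ) : |i| ≤ Rm i l := by
  cases l with
  | nil => exact le_refl _
  | cons d l => exact le_max_left _ _

theorem one_le_Rm (l : List ℤ) (hl : Unit1 l) (hne : l ≠ []) : 1 ≤ Rm 0 l := by
  cases l with
  | nil => exact absurd rfl hne
  | cons d l =>
    obtain ⟨he, -⟩ := kcb_unit_cons hl
    rw [Rm]
    refine le_max_of_le_right ?_
    have h := kcb_abs_le_Rm (0 + d) l
    refine le_trans ?_ h
    rcases he with rfl | rfl <;> simp

theorem Rm_nonneg (i : ℤ) (l : List ℤ) : 0 ≤ Rm i l :=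
  (abs_nonneg i).trans (kcb_abs_le_Rm i l)

theorem abs_sum_le_Rm (i : ℤ) (l : List ℤ) : |i + l.sum| ≤ Rm i l := by
  induction l generalizing i with
  | nil => simp [Rm]
  | cons d l ih =>
    rw [Rm, List.sum_cons, ← add_assoc]
    exact le_max_of_le_right (ih (i + d))

end Pool.Agent.TH595.SP
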