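import Pool.Agent.TH595.SP.Defs

set_option autoImplicit false

/-! Job 3189 (SPD_KCE): expected number of greedy moves. -/

namespace Pool.Agent.TH595.SP

open scoped BigOperators

theorem kce_one_add (n : ℕ) : ∀ Φ : List ℤ → ℝ, avgP n (fun l => 1 + Φ l) = 1 + avgP n Φ := by
  induction n with
  | zero => intro Φ; rfl
  | succ n ih =>
    intro Φ
    simp only [avgP]
    rw [ih (fun l => Φ (1 :: l)), ih (fun l => Φ (-1 :: l))]
    ring

theorem kce_step (k : ℤ) (hk : 1 ≤ k) (n : ℕ)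
    (ih : ∀ d : ℤ, (k : ℝ) ^ 2 / 16 * avgP n (fun l => (kc k d l : ℝ)) ≤ n + (d : ℝ) ^ 2)
    (d e : ℤ) :
    (k : ℝ) ^ 2 / 16 * avgP n (fun l => (kc k d (e :: l) : ℝ)) ≤ n + ((d : ℝ) + e) ^ 2 := by
  by_cases h : k ≤ 4 * |d + e|
  · have h1 : (fun l => (kc k d (e :: l) : ℝ)) = fun l => 1 + (kc k 0 l : ℝ) := by
      funext l
      rw [kc, if_pos h]
      push_cast
      rfl
    rw [h1, kce_one_add]
    have h2 := ih 0
    have h3 : (k : ℝ) ^ 2 ≤ 16 * ((d : ℝ) + e) ^ 2 := by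
      have h4 : (k : ℝ) ≤ 4 * |(d : ℝ) + e| := by exact_mod_cast h
      have h5 : (1 : ℝ) ≤ k := by exact_mod_cast hk
      have h6 : |(d : ℝ) + e| ^ 2 = ((d : ℝ) + e) ^ 2 := sq_abs _
      have h7 : (k : ℝ) ^ 2 ≤ (4 * |(d : ℝ) + e|) ^ 2 := pow_le_pow_left₀ (by linarith) h4 2
      rw [mul_pow, h6] at h7
      linarith
    push_cast at h2
    rw [mul_add, mul_one]
    linarith
  · have h1 : (fun l => (kc k d (e :: l) : ℝ)) = fun l => (kc k (d + e) l : ℝ) := by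
      funext l
      rw [kc, if_neg h]
    rw [h1]
    have h2 := ih (d + e)
    push_cast at h2
    exact h2

theorem kce_main (k : ℤ) (hk : 1 ≤ k) (n : ℕ) :
    ∀ d : ℤ, (k : ℝ) ^ 2 / 16 * avgP n (fun l => (kc k d l : ℝ)) ≤ n + (d : ℝ) ^ 2 := by
  induction n with
  | zero =>
    intro d
    simp only [avgP, kc]
    push_cast
    nlinarith [sq_nonneg (d : ℝ)]
  | succ n ih =>
    intro d
    simp only [avgP]
    have h1 := kce_step k hk n ih d 1
    have h2 := kce_step k hk n ih d (-1)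
    push_cast at h1 h2 ⊢
    have h3 : (k : ℝ) ^ 2 / 16 * ((avgP n (fun l => (kc k d (1 :: l) : ℝ)) +
        avgP n (fun l => (kc k d (-1 :: l) : ℝ))) / 2) =
        ((k : ℝ) ^ 2 / 16 * avgP n (fun l => (kc k d (1 :: l) : ℝ)) +
          (k : ℝ) ^ 2 / 16 * avgP n (fun l => (kc k d (-1 :: l) : ℝ))) / 2 := by ring
    rw [h3]
    nlinarith

theorem avgP_kc (k : ℤ) (hk : 1 ≤ k) (n : ℕ) :
    avgP n (fun l => (kc k 0 l : ℝ)) ≤ 16 * n / (k : ℝ) ^ 2 := by
  have h := kce_main k hk n 0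
  have hk0 : (0 : ℝ) < (k : ℝ) ^ 2 := by
    have : (0 : ℝ) < k := by exact_mod_cast (by omega : 0 < k)
    positivity
  rw [le_div_iff₀ hk0]
  push_cast at h
  linarith

end Pool.Agent.TH595.SP
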