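import Pool.Agent.TH595.SP.Defs

/-! Linear speed on a free group (job 3203). -/

set_option autoImplicit false

namespace Pool.Agent.TH595.SP

open scoped BigOperators

/-- letters of the free group -/
def lin_l (x : Bool × Bool) : FreeGroup Bool := FreeGroup.mk [x]

theorem lin_l_word (x : Bool × Bool) : (lin_l x).toWord = [x] := by
  unfold lin_l
  rw [FreeGroup.toWord_mk, FreeGroup.reduce.cons]
  rfl

theorem lin_l_inj : Function.Injective lin_l := by
  intro x y h
  have := congrArg FreeGroup.toWord h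
  rw [lin_l_word, lin_l_word] at this
  exact List.singleton_inj.mp this

theorem lin_l_norm (x : Bool × Bool) : (lin_l x).norm ≤ 1 := FreeGroup.norm_mk_le

theorem lin_l_inv (x : Bool × Bool) : (lin_l x)⁻¹ = lin_l (x.1, !x.2) := by
  unfold lin_l
  rw [FreeGroup.inv_mk]
  rfl

/-- generators -/
def lin_T : Finset (FreeGroup Bool) := Finset.univ.image lin_l

theorem lin_l_mem (x : Bool × Bool) : lin_l x ∈ lin_T :=
  Finset.mem_image_of_mem _ (Finset.mem_univ x)

theorem lin_T_inv : ∀ g ∈ lin_T, g⁻¹ ∈ lin_T := by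
  intro g hg
  obtain ⟨x, -, rfl⟩ := Finset.mem_image.mp hg
  rw [lin_l_inv]
  exact lin_l_mem _

theorem lin_closure : Subgroup.closure (lin_T : Set (FreeGroup Bool)) = ⊤ := by
  rw [eq_top_iff, ← FreeGroup.closure_range_of Bool]
  apply Subgroup.closure_mono
  rintro _ ⟨b, rfl⟩
  exact lin_l_mem (b, true)

theorem lin_card : lin_T.card = 4 := by
  unfold lin_T
  rw [Finset.card_image_of_injective _ lin_l_inj]
  rfl

theorem lin_norm_prod (l : List (FreeGroup Bool)) (h : ∀ x ∈ l, x ∈ (lin_T : Set (FreeGroup Bool))) :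
    l.prod.norm ≤ l.length := by
  induction l with
  | nil => simp
  | cons a l ih =>
    rw [List.prod_cons, List.length_cons]
    have h1 := ih (fun x hx => h x (List.mem_cons_of_mem _ hx))
    have h2 : a.norm ≤ 1 := by
      obtain ⟨x, -, rfl⟩ := Finset.mem_image.mp (Finset.mem_coe.mp (h a List.mem_cons_self))
      exact lin_l_norm x
    have h3 := FreeGroup.norm_mul_le a l.prod
    omega

theorem lin_mk_prod (L : List (Bool × Bool)) : (L.map lin_l).prod = FreeGroup.mk L := by
  induction L with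
  | nil => rfl
  | cons a L ih =>
    rw [List.map_cons, List.prod_cons, ih]
    unfold lin_l
    rw [FreeGroup.mul_mk]
    rfl

theorem lin_norm_le_wlen (g : FreeGroup Bool) :
    g.norm ≤ wlen (lin_T : Set (FreeGroup Bool)) g := by
  have hne : {n | ∃ l : List (FreeGroup Bool), l.length = n ∧
      (∀ x ∈ l, x ∈ (lin_T : Set (FreeGroup Bool))) ∧ l.prod = g}.Nonempty := by
    refine ⟨_, g.toWord.map lin_l, rfl, ?_, ?_⟩
    · intro x hx
      obtain ⟨y, -, rfl⟩ := List.mem_map.mp hx
      exact lin_l_mem y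
    · rw [lin_mk_prod, FreeGroup.mk_toWord]
  obtain ⟨l, h1, h2, h3⟩ := Nat.sInf_mem hne
  have := lin_norm_prod l h2
  rw [h3] at this
  unfold wlen
  rw [← h1]
  exact this

theorem lin_wlen_le {n : ℕ} (v : Fin n → Bool × Bool) :
    wlen (lin_T : Set (FreeGroup Bool)) (List.ofFn (fun i => lin_l (v i))).prod ≤ n := by
  unfold wlen
  apply Nat.sInf_le
  refine ⟨List.ofFn (fun i => lin_l (v i)), List.length_ofFn, ?_, rfl⟩
  intro x hx
  rw [List.mem_ofFn] at hx
  obtain ⟨i, rfl⟩ := hx
  exact lin_l_mem _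

theorem lin_norm_mul (x : Bool × Bool) (g : FreeGroup Bool) :
    (lin_l x * g).norm = (FreeGroup.reduce (x :: g.toWord)).length := by
  unfold FreeGroup.norm
  rw [FreeGroup.toWord_mul, lin_l_word]
  rfl

theorem lin_mean (g : FreeGroup Bool) :
    (4 : ℝ) * g.norm + 2 ≤ ∑ x : Bool × Bool, ((lin_l x * g).norm : ℝ) := by
  have key : 4 * g.norm + 2 ≤ ∑ x : Bool × Bool, (lin_l x * g).norm := by
    simp only [lin_norm_mul]
    rw [Fintype.sum_prod_type]
    simp only [Fintype.sum_bool]
    simp only [FreeGroup.reduce.cons, FreeGroup.reduce_toWord]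
    unfold FreeGroup.norm
    rcases hw : g.toWord with _ | ⟨⟨a, b⟩, t⟩
    · simp
    · cases a <;> cases b <;> simp <;> omega
  exact_mod_cast key

/-- the law -/
noncomputable def lin_mu : FreeGroup Bool →₀ ℝ := Finsupp.indicator lin_T (fun _ _ => 1 / 4)

theorem lin_mu_apply (g : FreeGroup Bool) : lin_mu g = if g ∈ lin_T then 1 / 4 else 0 := by
  classical
  unfold lin_mu
  by_cases h : g ∈ lin_T
  · rw [Finsupp.indicator_of_mem h, if_pos h]
  · rw [Finsupp.indicator_of_notMem h, if_neg h]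

theorem lin_support : lin_mu.support = lin_T := by
  ext g
  rw [Finsupp.mem_support_iff, lin_mu_apply]
  by_cases h : g ∈ lin_T
  · simp [h]
  · simp [h]

theorem lin_speed (n : ℕ) : speed (lin_T : Set (FreeGroup Bool)) lin_mu n =
    ∑ v : Fin n → Bool × Bool, (1 / 4 : ℝ) ^ n *
      (wlen (lin_T : Set (FreeGroup Bool)) (List.ofFn (fun i => lin_l (v i))).prod : ℝ) := by
  unfold speed
  rw [lin_support]
  have h1 : Fintype.piFinset (fun _ : Fin n => lin_T) =
      (Fintype.piFinset (fun _ : Fin n => (Finset.univ : Finset (Bool × Bool)))).image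
        (fun v i => lin_l (v i)) :=
    Fintype.piFinset_image (fun _ : Fin n => lin_l) (fun _ => Finset.univ)
  rw [h1, Finset.sum_image, Fintype.piFinset_univ]
  · refine Finset.sum_congr rfl fun v _ => ?_
    congr 1
    simp only [lin_mu_apply, lin_l_mem, if_true]
    rw [Finset.prod_const, Finset.card_univ, Fintype.card_fin]
  · intro v _ w _ h
    funext i
    exact lin_l_inj (congrFun h i)

/-- expected norm -/
noncomputable def lin_E (n : ℕ) : ℝ :=
  ∑ v : Fin n → Bool × Bool, (1 / 4 : ℝ) ^ n * ((List.ofFn (fun i => lin_l (v i))).prod.norm : ℝ)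

theorem lin_one (n : ℕ) : ∑ _v : Fin n → Bool × Bool, (1 / 4 : ℝ) ^ n = 1 := by
  rw [Finset.sum_const, Finset.card_univ, Fintype.card_fun, Fintype.card_fin]
  have : Fintype.card (Bool × Bool) = 4 := rfl
  rw [this, nsmul_eq_mul]
  push_cast
  rw [← mul_pow]
  norm_num

theorem lin_E_succ (n : ℕ) : lin_E n + 1 / 2 ≤ lin_E (n + 1) := by
  have h1 : lin_E (n + 1) = ∑ v : Fin n → Bool × Bool, (1 / 4 : ℝ) ^ n * ((1 / 4) *
      ∑ x : Bool × Bool, ((lin_l x * (List.ofFn (fun i => lin_l (v i))).prod).norm : ℝ)) := by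
    unfold lin_E
    rw [← (Fin.consEquiv (fun _ : Fin (n + 1) => Bool × Bool)).sum_comp, Fintype.sum_prod_type,
      Finset.sum_comm]
    refine Finset.sum_congr rfl fun v _ => ?_
    rw [Finset.mul_sum, Finset.mul_sum]
    refine Finset.sum_congr rfl fun x _ => ?_
    rw [List.ofFn_succ, List.prod_cons]
    simp only [Fin.consEquiv_apply, Fin.cons_zero, Fin.cons_succ]
    ring
  rw [h1, lin_E]
  have h2 : (1 / 2 : ℝ) = ∑ _v : Fin n → Bool × Bool, (1 / 4 : ℝ) ^ n * (1 / 2) := by
    rw [← Finset.sum_mul, lin_one, one_mul]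
  rw [h2, ← Finset.sum_add_distrib]
  refine Finset.sum_le_sum fun v _ => ?_
  rw [← mul_add]
  refine mul_le_mul_of_nonneg_left ?_ (by positivity)
  have := lin_mean (List.ofFn (fun i => lin_l (v i))).prod
  linarith

theorem lin_E_ge (n : ℕ) : (n : ℝ) / 2 ≤ lin_E n := by
  induction n with
  | zero =>
    unfold lin_E
    simp
  | succ n ih =>
    have := lin_E_succ n
    push_cast
    linarith

theorem linear_speed : ∃ (G : Type) (_ : Group G) (T : Finset G) (μ : G →₀ ℝ),
      (∀ g ∈ T, g⁻¹ ∈ T) ∧ Subgroup.closure (T : Set G) = ⊤ ∧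
      (∀ g, 0 ≤ μ g) ∧ (∀ g, μ g⁻¹ = μ g) ∧ (μ.sum fun _ p => p) = 1 ∧
      Subgroup.closure (μ.support : Set G) = ⊤ ∧
      ∀ n : ℕ, (n : ℝ) / 2 ≤ speed (T : Set G) μ n ∧ speed (T : Set G) μ n ≤ n := by
  refine ⟨FreeGroup Bool, inferInstance, lin_T, lin_mu, lin_T_inv, lin_closure, ?_, ?_, ?_, ?_, ?_⟩
  · intro g
    rw [lin_mu_apply]
    split_ifs <;> norm_num
  · intro g
    rw [lin_mu_apply, lin_mu_apply]
    have : g⁻¹ ∈ lin_T ↔ g ∈ lin_T := by
      constructor
      · intro h
        have := lin_T_inv _ h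
        rwa [inv_inv] at this
      · exact lin_T_inv g
    simp only [this]
  · unfold Finsupp.sum
    rw [lin_support]
    have : ∀ g ∈ lin_T, lin_mu g = 1 / 4 := by
      intro g hg
      rw [lin_mu_apply, if_pos hg]
    rw [Finset.sum_congr rfl this, Finset.sum_const, lin_card]
    norm_num
  · rw [lin_support]; exact lin_closure
  · intro n
    rw [lin_speed]
    constructor
    · refine (lin_E_ge n).trans ?_
      unfold lin_E
      refine Finset.sum_le_sum fun v _ => mul_le_mul_of_nonneg_left ?_ (by positivity)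
      exact_mod_cast lin_norm_le_wlen _
    · calc ∑ v : Fin n → Bool × Bool, (1 / 4 : ℝ) ^ n *
          (wlen (lin_T : Set (FreeGroup Bool)) (List.ofFn (fun i => lin_l (v i))).prod : ℝ)
          ≤ ∑ v : Fin n → Bool × Bool, (1 / 4 : ℝ) ^ n * (n : ℝ) :=
            Finset.sum_le_sum fun v _ => mul_le_mul_of_nonneg_left
              (by exact_mod_cast lin_wlen_le v) (by positivity)
        _ = n := by rw [← Finset.sum_mul, lin_one, one_mul]

end Pool.Agent.TH595.SP
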