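import Pool.Agent.TH595.SP.Defs

set_option autoImplicit false

/-!
Moments of the simple random walk (written by helper909 for helper595).
-/

namespace Pool.Agent.TH595.SP

open scoped BigOperators

theorem mom_mono (n : ℕ) : ∀ (f h : List ℤ → ℝ), (∀ l, f l ≤ h l) → avgP n f ≤ avgP n h := by
  induction n with
  | zero => intro f h hfh; exact hfh []
  | succ n ih =>
    intro f h hfh
    have h1 := ih (fun l => f (1 :: l)) (fun l => h (1 :: l)) (fun l => hfh _)
    have h2 := ih (fun l => f (-1 :: l)) (fun l => h (-1 :: l)) (fun l => hfh _)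
    simp only [avgP]
    linarith

theorem mom_add (n : ℕ) : ∀ (f h : List ℤ → ℝ),
    avgP n (fun l => f l + h l) = avgP n f + avgP n h := by
  induction n with
  | zero => intro f h; rfl
  | succ n ih =>
    intro f h
    simp only [avgP]
    rw [ih, ih]
    ring

theorem mom_smul (n : ℕ) (c : ℝ) : ∀ (f : List ℤ → ℝ),
    avgP n (fun l => c * f l) = c * avgP n f := by
  induction n with
  | zero => intro f; rfl
  | succ n ih =>
    intro f
    simp only [avgP]
    rw [ih, ih]
    ring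

theorem mom_const (n : ℕ) (c : ℝ) : avgP n (fun _ => c) = c := by
  induction n with
  | zero => rfl
  | succ n ih =>
    simp only [avgP]
    rw [ih]
    ring

theorem mom_two (n : ℕ) : ∀ x : ℝ, avgP n (fun l => (x + (l.sum : ℝ)) ^ 2) = x ^ 2 + n := by
  induction n with
  | zero => intro x; simp [avgP]
  | succ n ih =>
    intro x
    simp only [avgP]
    have h1 : (fun l : List ℤ => (x + (((1 :: l : List ℤ).sum : ℤ) : ℝ)) ^ 2) =
        fun l => ((x + 1) + (l.sum : ℝ)) ^ 2 := by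
      funext l
      rw [List.sum_cons]
      push_cast
      ring
    have h2 : (fun l : List ℤ => (x + (((-1 :: l : List ℤ).sum : ℤ) : ℝ)) ^ 2) =
        fun l => ((x - 1) + (l.sum : ℝ)) ^ 2 := by
      funext l
      rw [List.sum_cons]
      push_cast
      ring
    rw [h1, h2, ih, ih]
    push_cast
    ring

theorem mom_four (n : ℕ) : ∀ x : ℝ, avgP n (fun l => (x + (l.sum : ℝ)) ^ 4) =
    x ^ 4 + 6 * x ^ 2 * n + 3 * n ^ 2 - 2 * n := by
  induction n with
  | zero => intro x; simp [avgP]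
  | succ n ih =>
    intro x
    simp only [avgP]
    have h1 : (fun l : List ℤ => (x + (((1 :: l : List ℤ).sum : ℤ) : ℝ)) ^ 4) =
        fun l => ((x + 1) + (l.sum : ℝ)) ^ 4 := by
      funext l
      rw [List.sum_cons]
      push_cast
      ring
    have h2 : (fun l : List ℤ => (x + (((-1 :: l : List ℤ).sum : ℤ) : ℝ)) ^ 4) =
        fun l => ((x - 1) + (l.sum : ℝ)) ^ 4 := by
      funext l
      rw [List.sum_cons]
      push_cast
      ring
    rw [h1, h2, ih, ih]
    push_cast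
    ring

theorem mom_symm (n : ℕ) : ∀ φ : ℤ → ℝ,
    avgP n (fun l => φ l.sum) = avgP n (fun l => φ (-l.sum)) := by
  induction n with
  | zero => intro φ; simp [avgP]
  | succ n ih =>
    intro φ
    simp only [avgP]
    have h1 : (fun l : List ℤ => φ (1 :: l : List ℤ).sum) = fun l => φ (1 + l.sum) := by
      funext l
      rw [List.sum_cons]
    have h2 : (fun l : List ℤ => φ (-1 :: l : List ℤ).sum) = fun l => φ (-1 + l.sum) := by
      funext l
      rw [List.sum_cons]
    have h3 : (fun l : List ℤ => φ (-(1 :: l : List ℤ).sum)) = fun l => φ (-1 + -l.sum) := by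
      funext l
      rw [List.sum_cons]
      congr 1
      ring
    have h4 : (fun l : List ℤ => φ (-(-1 :: l : List ℤ).sum)) = fun l => φ (1 + -l.sum) := by
      funext l
      rw [List.sum_cons]
      congr 1
      ring
    rw [h1, h2, h3, h4, ih (fun s => φ (1 + s)), ih (fun s => φ (-1 + s))]
    ring

theorem mom_sum_two (n : ℕ) : avgP n (fun l => (l.sum : ℝ) ^ 2) = n := by
  have := mom_two n 0
  simpa using this

theorem mom_sum_four (n : ℕ) : avgP n (fun l => (l.sum : ℝ) ^ 4) = 3 * n ^ 2 - 2 * n := by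
  have := mom_four n 0
  simpa using this

theorem avgP_abs (n : ℕ) : (5 / 9 : ℝ) * Real.sqrt n ≤ avgP n (fun l => |(l.sum : ℝ)|) := by
  rcases Nat.eq_zero_or_pos n with rfl | hn
  · simp [avgP]
  · have hn' : (0 : ℝ) < n := by exact_mod_cast hn
    have hs : 0 < Real.sqrt n := Real.sqrt_pos.2 hn'
    have hss : Real.sqrt n ^ 2 = n := Real.sq_sqrt hn'.le
    have key : ∀ s : ℝ, (Real.sqrt n / n) * s ^ 2 + (-(4 / 27) * Real.sqrt n / n ^ 2) * s ^ 4 ≤
        |s| := by
      intro s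
      have h1 : ∀ y : ℝ, 0 ≤ y → y ^ 2 - (4 / 27) * y ^ 4 ≤ y := by
        intro y hy
        nlinarith [mul_nonneg hy (mul_nonneg (sq_nonneg (y - 3 / 2)) (by linarith : (0 : ℝ) ≤ y + 3))]
      have h2 := h1 (|s| / Real.sqrt n) (by positivity)
      have h3 : (|s| / Real.sqrt n) ^ 2 = s ^ 2 / n := by
        rw [div_pow, sq_abs, hss]
      have h4 : (|s| / Real.sqrt n) ^ 4 = s ^ 4 / n ^ 2 := by
        have : (|s| / Real.sqrt n) ^ 4 = ((|s| / Real.sqrt n) ^ 2) ^ 2 := by ring
        rw [this, h3]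
        ring
      rw [h3, h4] at h2
      have h5 := mul_le_mul_of_nonneg_left h2 hs.le
      have h6 : Real.sqrt n * (|s| / Real.sqrt n) = |s| := by field_simp
      rw [h6] at h5
      refine le_trans (le_of_eq ?_) h5
      field_simp
      ring
    have h1 := mom_mono n (fun l => (Real.sqrt n / n) * (l.sum : ℝ) ^ 2 +
      (-(4 / 27) * Real.sqrt n / n ^ 2) * (l.sum : ℝ) ^ 4) (fun l => |(l.sum : ℝ)|)
      (fun l => key _)
    rw [mom_add, mom_smul, mom_smul, mom_sum_two, mom_sum_four] at h1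
    refine le_trans ?_ h1
    have h2 : (Real.sqrt n / n) * n + (-(4 / 27) * Real.sqrt n / n ^ 2) * (3 * n ^ 2 - 2 * n) =
        (5 / 9) * Real.sqrt n + (8 / 27) * Real.sqrt n / n := by
      field_simp
      ring
    rw [h2]
    have : 0 ≤ (8 / 27) * Real.sqrt n / n := by positivity
    linarith

theorem avgP_far (h : ℕ) (hh : 1 ≤ h) :
    (1 / 10 : ℝ) ≤ avgP (4 * h ^ 2) (fun l => if (h : ℤ) ≤ l.sum then (1 : ℝ) else 0) := by
  have hh' : (1 : ℝ) ≤ h := by exact_mod_cast hh
  have hp : (0 : ℝ) < h := by linarith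
  set T : ℕ := 4 * h ^ 2 with hT
  have hTr : (T : ℝ) = 4 * (h : ℝ) ^ 2 := by rw [hT]; push_cast; ring
  have hTp : (0 : ℝ) < T := by rw [hTr]; positivity
  have hsym : avgP T (fun l => if (h : ℤ) ≤ l.sum then (1 : ℝ) else 0) =
      avgP T (fun l => if (h : ℤ) ≤ -l.sum then (1 : ℝ) else 0) :=
    mom_symm T (fun s => if (h : ℤ) ≤ s then (1 : ℝ) else 0)
  have key : ∀ s : ℤ, (64 / 961) * ((33 / 4) / T) * (s : ℝ) ^ 2 +
      (-(64 / 961) / T ^ 2) * (s : ℝ) ^ 4 + (-(128 / 961)) ≤
      (if (h : ℤ) ≤ s then (1 : ℝ) else 0) + (if (h : ℤ) ≤ -s then (1 : ℝ) else 0) := by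
    intro s
    have e1 : (64 / 961) * ((33 / 4) / T) * (s : ℝ) ^ 2 +
      (-(64 / 961) / T ^ 2) * (s : ℝ) ^ 4 + (-(128 / 961)) =
      (64 / 961) * (((s : ℝ) ^ 2 / T - 1 / 4) * (8 - (s : ℝ) ^ 2 / T)) := by
      field_simp
      ring
    rw [e1]
    by_cases hs : (h : ℤ) ≤ |s|
    · have h1 : (1 : ℝ) ≤ (if (h : ℤ) ≤ s then (1 : ℝ) else 0) +
          (if (h : ℤ) ≤ -s then (1 : ℝ) else 0) := by
        rcases le_abs.1 hs with h2 | h2
        · rw [if_pos h2]
          have : (0 : ℝ) ≤ (if (h : ℤ) ≤ -s then (1 : ℝ) else 0) := by split_ifs <;> norm_num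
          linarith
        · rw [if_pos h2]
          have : (0 : ℝ) ≤ (if (h : ℤ) ≤ s then (1 : ℝ) else 0) := by split_ifs <;> norm_num
          linarith
      refine le_trans ?_ h1
      nlinarith [sq_nonneg ((s : ℝ) ^ 2 / T - 33 / 8)]
    · have h0 : (0 : ℝ) ≤ (if (h : ℤ) ≤ s then (1 : ℝ) else 0) +
          (if (h : ℤ) ≤ -s then (1 : ℝ) else 0) := by
        split_ifs <;> norm_num
      refine le_trans ?_ h0
      push Not at hs
      have h2 : |(s : ℝ)| ≤ h := by
        have : |s| ≤ (h : ℤ) := hs.le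
        exact_mod_cast this
      have h3 : (s : ℝ) ^ 2 ≤ (h : ℝ) ^ 2 := by
        rw [← sq_abs]
        exact pow_le_pow_left₀ (abs_nonneg _) h2 2
      have h4 : (s : ℝ) ^ 2 / T ≤ 1 / 4 := by
        rw [div_le_iff₀ hTp, hTr]
        linarith
      have h5 : ((s : ℝ) ^ 2 / T - 1 / 4) * (8 - (s : ℝ) ^ 2 / T) ≤ 0 :=
        mul_nonpos_of_nonpos_of_nonneg (by linarith) (by linarith)
      linarith
  have h1 := mom_mono T (fun l => (64 / 961) * ((33 / 4) / T) * (l.sum : ℝ) ^ 2 +
      (-(64 / 961) / T ^ 2) * (l.sum : ℝ) ^ 4 + (-(128 / 961)))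
      (fun l => (if (h : ℤ) ≤ l.sum then (1 : ℝ) else 0) +
        (if (h : ℤ) ≤ -l.sum then (1 : ℝ) else 0)) (fun l => key l.sum)
  rw [mom_add, mom_add, mom_smul, mom_smul, mom_sum_two, mom_sum_four, mom_const, mom_add,
    ← hsym] at h1
  have h2 : (64 / 961) * ((33 / 4) / T) * T + (-(64 / 961) / T ^ 2) * (3 * (T : ℝ) ^ 2 - 2 * T) +
      (-(128 / 961)) = 208 / 961 + (128 / 961) / T := by
    field_simp
    ring
  rw [h2] at h1
  have : 0 ≤ (128 / 961 : ℝ) / T := by positivity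
  linarith

end Pool.Agent.TH595.SP
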