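import Pool.Agent.TH595.SP.Defs

set_option autoImplicit false

namespace Pool.Agent.TH595.SP

open scoped BigOperators

/-- indicator that the lamp at `y` is lit -/
noncomputable def wb_ind {r : ℕ} (g : Gam r) (y : TX r) : ℝ := if g.lamp y = 0 then 0 else 1

/-- closed form for one lamp -/
noncomputable def wb_one {r : ℕ} (N : ℕ) (g : Gam r) (y : TX r) : ℝ :=
  (1 / 2) * hit N (qact g.q 0 - y) + wb_ind g y * (1 - hit N (qact g.q 0 - y))

theorem wb_psi {r : ℕ} [NeZero r] (g : Gam r) : psi g = ∑ y, wb_ind g y := by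
  classical
  unfold psi wb_ind
  rw [Set.ncard_eq_toFinset_card']
  rw [Finset.card_eq_sum_ones, Nat.cast_sum]
  simp only [Nat.cast_one]
  rw [Finset.sum_ite, Finset.sum_const_zero, zero_add]
  refine Finset.sum_congr ?_ fun _ _ => rfl
  ext x
  simp

theorem wb_two : ∀ u : ZMod 2, u = 0 ∨ u = 1 := by decide

theorem wb_dact_dzo {r : ℕ} (j : ZMod r) (a : ZMod 2) (x : ZMod r) :
    dact (dzo j a) x = if a = 0 then x else -x - j := by
  unfold dzo
  split_ifs
  · rw [dact_one]
  · rfl

/-- the steps -/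
theorem wb_step {r : ℕ} (a b : Fin 3 → ZMod 2) :
    qact (fun i => dzo (r := r) 0 (b i)) (qact (fun i => dzo (-1) (a i)) 0) = sv b a := by
  funext i
  simp only [qact, sv, wb_dact_dzo, Pi.zero_apply]
  rcases wb_two (a i) with ha | ha <;> rcases wb_two (b i) with hb | hb <;>
    simp [ha, hb]

/-- orientation -/
def wb_sg {r : ℕ} : DihedralGroup r → ZMod 2
  | .r _ => 0
  | .sr _ => 1

/-- which coordinates are reversed -/
def wb_rev {r : ℕ} (q : QQ r) : Fin 3 → ZMod 2 := fun i => wb_sg (q i)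

/-- one coordinate of `sv` -/
def wb_sv1 {r : ℕ} (b a : ZMod 2) : ZMod r := if a = 0 then 0 else if b = 0 then 1 else -1

theorem wb_dact_sv1 {r : ℕ} (u : DihedralGroup r) (b a : ZMod 2) :
    dact u (wb_sv1 b a) = dact u 0 + wb_sv1 (b + wb_sg u) a := by
  unfold wb_sv1
  rcases u with j | j <;>
  rcases wb_two a with rfl | rfl <;> rcases wb_two b with rfl | rfl <;>
    simp [dact, wb_sg, CharTwo.add_self_eq_zero] <;> ring

theorem wb_qact {r : ℕ} (q : QQ r) (b a : Fin 3 → ZMod 2) :
    qact q (sv b a) = qact q 0 + sv (b + wb_rev q) a := by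
  funext i
  exact wb_dact_sv1 (q i) (b i) (a i)

theorem wb_lamp {r : ℕ} (g : Gam r) (b : LB) (a : LA) (y : TX r) :
    (g * iB b * iA a).lamp y = g.lamp y + (if y = qact g.q 0 then b.2 else 0) := by
  have h : qact g.q⁻¹ y = 0 ↔ y = qact g.q 0 := by
    constructor
    · intro h; rw [← h, qact_qact_inv]
    · rintro rfl; rw [qact_inv_qact]
  simp [iA, iB, h]

theorem wb_pos {r : ℕ} (g : Gam r) (b : LB) (a : LA) :
    qact (g * iB b * iA a).q 0 = qact g.q 0 + sv (b.1 + wb_rev g.q) a := by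
  rw [Gam.mul_q, Gam.mul_q, qact_mul, qact_mul]
  show qact g.q (qact (fun i => dzo (r := r) 0 (b.1 i)) (qact (fun i => dzo (-1) (a i)) 0)) = _
  rw [wb_step, wb_qact]

/-- the averages over the letters -/
theorem wb_avg {r : ℕ} (F : TX r → ℝ) (c : TX r) (β0 : Fin 3 → ZMod 2) :
    ∑ β : Fin 3 → ZMod 2, ∑ α : Fin 3 → ZMod 2, F (c + sv (β + β0) α) = 64 * L3 F c := by
  unfold L3
  rw [← mul_assoc, show (64 : ℝ) * (1 / 64) = 1 by norm_num, one_mul]
  exact Equiv.sum_comp (Equiv.addRight β0) (fun β => ∑ α : Fin 3 → ZMod 2, F (c + sv β α))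

theorem wb_cardA : (Fintype.card LA : ℝ) = 8 := by
  rw [show Fintype.card LA = 8 by simp [LA]]
  norm_num

theorem wb_cardB : (Fintype.card LB : ℝ) = 16 := by
  rw [show Fintype.card LB = 16 by simp [LB]]
  norm_num

theorem wb_succ {r : ℕ} (N : ℕ) (g : Gam r) (y : TX r) :
    Av (iB (r := r)) (Av (iA (r := r)) (fun h => wb_one N h y)) g = wb_one (N + 1) g y := by
  classical
  unfold Av
  rw [wb_cardA, wb_cardB]
  set c := qact g.q 0 with hc
  have e1 : ∀ (b : LB) (a : LA), wb_one N (g * iB b * iA a) y =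
      (1 / 2) * hit N ((c - y) + sv (b.1 + wb_rev g.q) a) +
        (if g.lamp y + (if y = c then b.2 else 0) = 0 then 0 else 1) *
          (1 - hit N ((c - y) + sv (b.1 + wb_rev g.q) a)) := by
    intro b a
    unfold wb_one wb_ind
    rw [wb_pos, wb_lamp, ← hc, add_sub_right_comm]
  simp only [e1, ← Finset.mul_sum]
  rw [Fintype.sum_prod_type]
  by_cases hy : y = c
  · have e2 : ∀ (β : Fin 3 → ZMod 2), ∑ u : ZMod 2, ∑ a : LA,
        ((1 / 2) * hit N ((c - y) + sv (β + wb_rev g.q) a) +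
        (if g.lamp y + (if y = c then u else 0) = 0 then (0 : ℝ) else 1) *
          (1 - hit N ((c - y) + sv (β + wb_rev g.q) a))) = 8 := by
      intro β
      rw [Finset.sum_comm]
      have e3 : ∀ a : LA, ∑ u : ZMod 2, ((1 / 2) * hit N ((c - y) + sv (β + wb_rev g.q) a) +
        (if g.lamp y + (if y = c then u else 0) = 0 then (0 : ℝ) else 1) *
          (1 - hit N ((c - y) + sv (β + wb_rev g.q) a))) = 1 := by
        intro a
        simp only [hy, if_true]
        have e4 : ∀ G : ZMod 2 → ℝ, ∑ u : ZMod 2, G u = G 0 + G 1 := fun G => by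
          exact Fin.sum_univ_two G
        rw [e4]
        rcases wb_two (g.lamp c) with h | h
        · simp [h]; ring
        · simp [h, CharTwo.add_self_eq_zero]; ring
      rw [Finset.sum_congr rfl fun a _ => e3 a, Finset.sum_const, Finset.card_univ, nsmul_eq_mul,
        wb_cardA, mul_one]
    rw [Finset.sum_congr rfl fun β _ => e2 β, Finset.sum_const, Finset.card_univ, nsmul_eq_mul]
    unfold wb_one
    rw [← hc, hy, sub_self]
    have : hit (N + 1) (0 : TX r) = 1 := by simp [hit]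
    rw [this]
    have h8 : ((Fintype.card (Fin 3 → ZMod 2) : ℕ) : ℝ) = 8 := wb_cardA
    rw [h8]
    norm_num
  · simp only [hy, if_false, add_zero]
    have e2 : ∀ (β : Fin 3 → ZMod 2), ∑ u : ZMod 2, ∑ a : LA,
        ((1 / 2) * hit N ((c - y) + sv (β + wb_rev g.q) a) +
        (if g.lamp y = 0 then (0 : ℝ) else 1) *
          (1 - hit N ((c - y) + sv (β + wb_rev g.q) a))) =
        2 * ∑ a : LA, ((1 / 2) * hit N ((c - y) + sv (β + wb_rev g.q) a) +
        (if g.lamp y = 0 then (0 : ℝ) else 1) *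
          (1 - hit N ((c - y) + sv (β + wb_rev g.q) a))) := by
      intro β
      rw [Finset.sum_const, Finset.card_univ, nsmul_eq_mul]
      norm_num
    rw [Finset.sum_congr rfl fun β _ => e2 β, ← Finset.mul_sum]
    have e5 : ∑ β : Fin 3 → ZMod 2, ∑ a : LA, ((1 / 2) * hit N ((c - y) + sv (β + wb_rev g.q) a) +
        (if g.lamp y = 0 then (0 : ℝ) else 1) *
          (1 - hit N ((c - y) + sv (β + wb_rev g.q) a))) =
        64 * ((1 / 2) * L3 (hit N) (c - y) + (if g.lamp y = 0 then (0 : ℝ) else 1) *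
          (1 - L3 (hit N) (c - y))) := by
      have h1 := wb_avg (hit N) (c - y) (wb_rev g.q)
      have h2 : ∑ β : Fin 3 → ZMod 2, ∑ a : Fin 3 → ZMod 2, (1 : ℝ) = 64 := by
        simp only [Finset.sum_const, Finset.card_univ, nsmul_eq_mul, mul_one]
        have h8 : ((Fintype.card (Fin 3 → ZMod 2) : ℕ) : ℝ) = 8 := wb_cardA
        rw [h8]
        norm_num
      simp only [Finset.sum_add_distrib, mul_sub, ← Finset.mul_sum, Finset.sum_sub_distrib]
      rw [h1]
      linear_combination (if g.lamp y = 0 then (0 : ℝ) else 1) * h2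
    rw [e5]
    unfold wb_one wb_ind
    rw [← hc]
    have h6 : hit (N + 1) (c - y) = L3 (hit N) (c - y) := by
      have : ¬ (c - y = 0) := fun h => hy (sub_eq_zero.1 h).symm
      simp [hit, this]
    rw [h6]
    ring

theorem wb_av_sum {ι G κ : Type*} [Fintype ι] [Mul G] (s : Finset κ) (e : ι → G) (f : κ → G → ℝ)
    (g : G) : Av e (fun h => ∑ y ∈ s, f y h) g = ∑ y ∈ s, Av e (f y) g := by
  unfold Av
  rw [Finset.sum_comm, Finset.mul_sum]

theorem wb_closed {r : ℕ} [NeZero r] (N : ℕ) (g : Gam r) : WB N g = ∑ y, wb_one N g y := by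
  induction N generalizing g with
  | zero =>
    show psi g = _
    rw [wb_psi]
    refine Finset.sum_congr rfl fun y _ => ?_
    unfold wb_one
    simp [hit]
  | succ N ih =>
    show Av (iB (r := r)) (Av (iA (r := r)) (WB N)) g = _
    have h1 : (WB N : Gam r → ℝ) = fun h => ∑ y, wb_one N h y := funext ih
    rw [h1]
    have h2 : Av (iA (r := r)) (fun h => ∑ y, wb_one N h y) =
        fun h => ∑ y, Av (iA (r := r)) (fun h => wb_one N h y) h := by
      funext h
      exact wb_av_sum _ _ _ _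
    rw [h2, wb_av_sum]
    exact Finset.sum_congr rfl fun y _ => wb_succ N g y

theorem wb_sum_sub {r : ℕ} [NeZero r] (F : TX r → ℝ) (c : TX r) :
    ∑ y : TX r, F (c - y) = ∑ d : TX r, F d :=
  (Equiv.subLeft c).sum_comp F

theorem WB_one {r : ℕ} [NeZero r] (N : ℕ) :
    WB N (1 : Gam r) = (1 / 2) * ∑ d : TX r, hit N d ∧
    Av (iA (r := r)) (WB N) (1 : Gam r) = (1 / 2) * ∑ d : TX r, hit N d := by
  have key : ∀ g : Gam r, (∀ y, g.lamp y = 0) → WB N g = (1 / 2) * ∑ d : TX r, hit N d := by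
    intro g hg
    rw [wb_closed]
    unfold wb_one wb_ind
    simp only [hg, if_true, zero_mul, add_zero]
    rw [← Finset.mul_sum, wb_sum_sub]
  refine ⟨key 1 fun y => rfl, ?_⟩
  unfold Av
  have h1 : ∀ a : LA, WB N ((1 : Gam r) * iA a) = (1 / 2) * ∑ d : TX r, hit N d := by
    intro a
    apply key
    intro y
    simp [iA]
  rw [Finset.sum_congr rfl fun a _ => h1 a, Finset.sum_const, Finset.card_univ, nsmul_eq_mul,
    wb_cardA, ← mul_assoc]
  norm_num

end Pool.Agent.TH595.SP
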