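import Pool.Agent.TH595.SP.Wlen
import Pool.Agent.TH595.SP.El
import Pool.Agent.TH595.SP.El2
import Pool.Agent.TH595.SP.Wb
import Pool.Agent.TH595.SP.Hit
import Pool.Agent.TH595.SP.Cyc
import Pool.Agent.TH595.SP.Mom
import Pool.Agent.TH595.SP.Good

set_option autoImplicit false

/-!
Lower bounds for the speed.
-/

namespace Pool.Agent.TH595.SP

open scoped BigOperators

variable {r : ℕ → ℕ}

/-- diffusive lower bound -/
theorem lower_sqrt (n : ℕ) (hn : 1 ≤ n) :
    (5 / 9) * Real.sqrt n ≤ ((Av (stp r))^[n] (fun g => (wlen (gens r) g : ℝ))) 1 := by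
  obtain ⟨m, rfl⟩ : ∃ m, n = m + 1 := ⟨n - 1, by omega⟩
  rw [iter_eq]
  refine (avgP_abs (m + 1)).trans ?_
  apply avgP_mono
  intro l hl _
  have h1 : EL l (fun g : HH r => |(g.pos : ℝ)|) 1 ≤
      EL l (fun g : HH r => (wlen (gens r) g : ℝ)) 1 := by
    refine EL_mono _ _ ?_ l hl 1 (Subgroup.one_mem _)
    intro g hg
    have := abs_pos_le_wlen g hg
    exact_mod_cast this
  refine le_trans (le_of_eq ?_) h1
  have h2 := EL_pos (r := r) (fun i => |(i : ℝ)|) l 1
  rw [h2]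
  simp

theorem loA_hit_le [∀ s, NeZero (r s)] (s : ℕ) (N : ℕ) :
    min (N : ℝ) ((r s : ℝ) ^ 3) / 100000 ≤ (1 / 2) * ∑ d : TX (r s), hit N d := by
  have := hit_sum (r := r s) (fun N hN => cyc_return N hN) N
  linarith

/-- lower bound through the factor `s` -/
theorem loA_factor [∀ s, NeZero (r s)] (s : ℕ) (J n : ℕ) (hn1 : 1 ≤ n)
    (hn : J * (32 * 4096 ^ s) ≤ n) (hJ : (J : ℝ) ≤ (r s : ℝ) ^ 3) :
    (64 ^ s * J : ℝ) / 5000000 ≤ ((Av (stp r))^[n] (fun g => (wlen (gens r) g : ℝ))) 1 := by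
  obtain ⟨m, rfl⟩ : ∃ m, n = m + 1 := ⟨n - 1, by omega⟩
  rw [iter_eq]
  have h1 : avgP (m + 1) (fun l => ∑ x : ZMod (2 * 64 ^ s),
      (1 / 100000 : ℝ) * min ((nst s x 0 l).1 : ℝ) J) ≤
      avgP (m + 1) (fun l => EL l (fun g : HH r => (wlen (gens r) g : ℝ)) 1) := by
    apply avgP_mono
    intro l hl _
    have h1 : EL l (fun g : HH r => ∑ x : ZMod (2 * 64 ^ s), psi (g.F s x)) 1 ≤
        EL l (fun g : HH r => (wlen (gens r) g : ℝ)) 1 := by
      refine EL_mono _ _ ?_ l hl 1 (Subgroup.one_mem _)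
      intro g hg
      exact psi_le_wlen s g hg
    refine le_trans ?_ h1
    rw [EL_sum]
    apply Finset.sum_le_sum
    intro x _
    rw [(EL_site s x l 1).1]
    have h2 : ((1 : HH r).F s x : Gam (r s)) = 1 := rfl
    have h3 : ((1 : HH r).pos) = 0 := rfl
    rw [h2, h3]
    have h4 := loA_hit_le (r := r) s (nst s x 0 l).1
    have h5 : min ((nst s x 0 l).1 : ℝ) J ≤ min ((nst s x 0 l).1 : ℝ) ((r s : ℝ) ^ 3) :=
      min_le_min le_rfl hJ
    obtain ⟨hw1, hw2⟩ := WB_one (r := r s) (nst s x 0 l).1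
    split_ifs
    · rw [hw1]; linarith
    · rw [hw2]; linarith
  refine le_trans ?_ h1
  rw [avgP_sum]
  have h2 : ∀ x ∈ (Finset.univ : Finset (ZMod (2 * 64 ^ s))), (J : ℝ) / 10000000 ≤
      avgP (m + 1) (fun l => (1 / 100000 : ℝ) * min ((nst s x 0 l).1 : ℝ) J) := by
    intro x _
    rw [avgP_smul]
    have := nst_lower avgP_far s x J (m + 1) hn 0
    linarith
  have h3 := Finset.sum_le_sum h2
  refine le_trans ?_ h3
  rw [Finset.sum_const, Finset.card_univ, ZMod.card, nsmul_eq_mul]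
  push_cast
  linarith

/-- lower bound in terms of the block function -/
theorem lower_blk (hr : ∀ s, Even (r s) ∧ 0 < r s) (s n : ℕ) (hn : 1 ≤ n) :
    blk r s n ≤ 320000000 * ((Av (stp r))^[n] (fun g => (wlen (gens r) g : ℝ))) 1 := by
  have : ∀ s, NeZero (r s) := fun s => ⟨(hr s).2.ne'⟩
  have hk : (0 : ℝ) < 64 ^ s := by positivity
  have hT : 0 < 32 * 4096 ^ s := by positivity
  have h4096 : (4096 : ℝ) ^ s = 64 ^ s * 64 ^ s := by rw [← mul_pow]; norm_num
  rcases lt_or_ge n (32 * 4096 ^ s) with hlt | hge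
  · have h1 := lower_sqrt (r := r) n hn
    have h2 : (n : ℝ) < 32 * 4096 ^ s := by exact_mod_cast hlt
    have h3 : Real.sqrt n ≤ 6 * 64 ^ s := by
      rw [Real.sqrt_le_left (by positivity)]
      rw [h4096] at h2
      nlinarith
    have h4 : blk r s n ≤ 6 * Real.sqrt n := by
      refine (min_le_left _ _).trans ?_
      rw [div_le_iff₀ hk]
      have h6 : (n : ℝ) = Real.sqrt n * Real.sqrt n := (Real.mul_self_sqrt (by positivity)).symm
      have h7 : 0 ≤ Real.sqrt n := Real.sqrt_nonneg _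
      nlinarith
    have h7 : 0 ≤ Real.sqrt n := Real.sqrt_nonneg _
    linarith
  · set J := min (n / (32 * 4096 ^ s)) (r s ^ 3) with hJ
    have h1 := loA_factor (r := r) s J n hn
      ((Nat.mul_le_mul_right _ (min_le_left _ _)).trans (Nat.div_mul_le_self _ _))
      (by
        have : J ≤ r s ^ 3 := min_le_right _ _
        exact_mod_cast this)
    have h2 : blk r s n ≤ 64 * (64 ^ s * J) := by
      have h3 : (J : ℝ) = min ((n / (32 * 4096 ^ s) : ℕ) : ℝ) ((r s : ℝ) ^ 3) := by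
        rw [hJ]; push_cast; rfl
      rw [h3, mul_min_of_nonneg _ _ hk.le, mul_min_of_nonneg _ _ (by norm_num : (0 : ℝ) ≤ 64)]
      refine min_le_min ?_ ?_
      · have h4 : (n : ℝ) ≤ 2 * ((n / (32 * 4096 ^ s) : ℕ) : ℝ) * (32 * 4096 ^ s) := by
          have h5 : n < 32 * 4096 ^ s * (n / (32 * 4096 ^ s) + 1) := Nat.lt_mul_div_succ n hT
          have h6 : 1 ≤ n / (32 * 4096 ^ s) := (Nat.one_le_div_iff hT).2 hge
          have h7 : 32 * 4096 ^ s * (n / (32 * 4096 ^ s) + 1) ≤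
              2 * (n / (32 * 4096 ^ s)) * (32 * 4096 ^ s) := by
            calc 32 * 4096 ^ s * (n / (32 * 4096 ^ s) + 1)
                ≤ 32 * 4096 ^ s * (2 * (n / (32 * 4096 ^ s))) :=
                  Nat.mul_le_mul_left _ (by omega)
              _ = _ := by ring
          have h8 : n ≤ 2 * (n / (32 * 4096 ^ s)) * (32 * 4096 ^ s) := h5.le.trans h7
          exact_mod_cast h8
        rw [div_le_iff₀ hk]
        rw [h4096] at h4
        refine h4.trans (le_of_eq (by ring))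
      · have h5 : (0 : ℝ) ≤ 64 ^ s * (r s : ℝ) ^ 3 := by positivity
        linarith
    linarith

end Pool.Agent.TH595.SP
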