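import Pool.Agent.TH595.SP.Defs

set_option autoImplicit false

namespace Pool.Agent.TH595.SP

open scoped BigOperators

/-- some position of the window of centre `L` is equal to `x` -/
def lt_P1 (s : ℕ) (L : ℤ) (x : ZMod (2 * 64 ^ s)) : Prop :=
  ∃ i : ℤ, 4 * |i - L| < 64 ^ s ∧ (i : ZMod (2 * 64 ^ s)) = x

/-- some position of the window of centre `L` is opposite to `x` -/
def lt_P2 (s : ℕ) (L : ℤ) (x : ZMod (2 * 64 ^ s)) : Prop :=
  ∃ i : ℤ, 4 * |i - L| < 64 ^ s ∧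
    (i : ZMod (2 * 64 ^ s)) + ((64 ^ s : ℕ) : ZMod (2 * 64 ^ s)) = x

theorem lt_excl (s : ℕ) (L : ℤ) (x : ZMod (2 * 64 ^ s)) (h1 : lt_P1 s L x) (h2 : lt_P2 s L x) :
    False := by
  obtain ⟨i, hi, hix⟩ := h1
  obtain ⟨j, hj, hjx⟩ := h2
  rw [← hix] at hjx
  haveI : NeZero (2 * 64 ^ s) := ⟨by positivity⟩
  have h : ((j + 64 ^ s - i : ℤ) : ZMod (2 * 64 ^ s)) = 0 := by
    push_cast
    push_cast at hjx
    rw [hjx]
    simp
  rw [ZMod.intCast_zmod_eq_zero_iff_dvd] at h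
  obtain ⟨c, hc⟩ := h
  push_cast at hc
  have hk : (0 : ℤ) < 64 ^ s := by positivity
  generalize (64 ^ s : ℤ) = k at *
  have h3 := abs_lt.1 (show |i - L| < k by linarith [abs_nonneg (i - L)])
  have h1a : 4 * (i - L) < k := lt_of_le_of_lt (by linarith [le_abs_self (i - L)]) hi
  have h1b : -(4 * (i - L)) < k := lt_of_le_of_lt (by linarith [neg_abs_le (i - L)]) hi
  have h2a : 4 * (j - L) < k := lt_of_le_of_lt (by linarith [le_abs_self (j - L)]) hj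
  have h2b : -(4 * (j - L)) < k := lt_of_le_of_lt (by linarith [neg_abs_le (j - L)]) hj
  rcases le_or_gt c 0 with h0 | h0
  · nlinarith
  · have : 1 ≤ c := h0
    nlinarith

/-- the last letter of the word at `x` is compatible with the window -/
def lt_good {r0 : ℕ} (s : ℕ) (L : ℤ) (x : ZMod (2 * 64 ^ s)) (e : Gam r0) : Prop :=
  (lt_P1 s L x → ∃ a, e = iA a) ∧ (lt_P2 s L x → ∃ b, e = iB b) ∧
    ∃ w1 : List LL, w1.length ≤ 1 ∧ wprod w1 = e

theorem lt_wprod_append {r0 : ℕ} (w1 w2 : List LL) :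
    (wprod (w1 ++ w2) : Gam r0) = wprod w1 * wprod w2 := by
  simp [wprod]

theorem lt_good_new {r0 : ℕ} (s : ℕ) (L : ℤ) (x : ZMod (2 * 64 ^ s)) (u : LL) :
    lt_good s L x ((if x - (L : ZMod (2 * 64 ^ s)) = 0 then (iA u.1 : Gam r0) else 1) *
      (if x - (L : ZMod (2 * 64 ^ s)) = ((64 ^ s : ℕ) : ZMod (2 * 64 ^ s)) then iB u.2 else 1)) := by
  have hk : (0 : ℤ) < 64 ^ s := by positivity
  have hP1 : x - (L : ZMod (2 * 64 ^ s)) = 0 → lt_P1 s L x := fun h =>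
    ⟨L, by simpa using hk, (sub_eq_zero.1 h).symm⟩
  have hP2 : x - (L : ZMod (2 * 64 ^ s)) = ((64 ^ s : ℕ) : ZMod (2 * 64 ^ s)) → lt_P2 s L x :=
    fun h => ⟨L, by simpa using hk, by rw [← h]; ring⟩
  by_cases c1 : x - (L : ZMod (2 * 64 ^ s)) = 0
  · have c2 : ¬ (x - (L : ZMod (2 * 64 ^ s)) = ((64 ^ s : ℕ) : ZMod (2 * 64 ^ s))) := fun c2 =>
      lt_excl s L x (hP1 c1) (hP2 c2)
    rw [if_pos c1, if_neg c2, mul_one]
    refine ⟨fun _ => ⟨_, rfl⟩, fun h => (lt_excl s L x (hP1 c1) h).elim, [(u.1, 0)], by simp, ?_⟩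
    simp [wprod, iB_zero]
  · rw [if_neg c1, one_mul]
    by_cases c2 : x - (L : ZMod (2 * 64 ^ s)) = ((64 ^ s : ℕ) : ZMod (2 * 64 ^ s))
    · rw [if_pos c2]
      refine ⟨fun h => (lt_excl s L x h (hP2 c2)).elim, fun _ => ⟨_, rfl⟩, [(0, u.2)], by simp, ?_⟩
      simp [wprod, iA_zero]
    · rw [if_neg c2]
      refine ⟨fun _ => ⟨0, iA_zero.symm⟩, fun _ => ⟨0, iB_zero.symm⟩, [], by simp, ?_⟩
      simp [wprod]

theorem lt_good_step {r0 : ℕ} (s : ℕ) (L i : ℤ) (hi : 4 * |i - L| < 64 ^ s)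
    (x : ZMod (2 * 64 ^ s)) (e : Gam r0) (he : lt_good s L x e) (u : LL) :
    lt_good s L x (e * ((if x - (i : ZMod (2 * 64 ^ s)) = 0 then (iA u.1 : Gam r0) else 1) *
      (if x - (i : ZMod (2 * 64 ^ s)) = ((64 ^ s : ℕ) : ZMod (2 * 64 ^ s)) then iB u.2 else 1))) := by
  have hP1 : x - (i : ZMod (2 * 64 ^ s)) = 0 → lt_P1 s L x := fun h =>
    ⟨i, hi, (sub_eq_zero.1 h).symm⟩
  have hP2 : x - (i : ZMod (2 * 64 ^ s)) = ((64 ^ s : ℕ) : ZMod (2 * 64 ^ s)) → lt_P2 s L x :=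
    fun h => ⟨i, hi, by rw [← h]; ring⟩
  by_cases c1 : x - (i : ZMod (2 * 64 ^ s)) = 0
  · have c2 : ¬ (x - (i : ZMod (2 * 64 ^ s)) = ((64 ^ s : ℕ) : ZMod (2 * 64 ^ s))) := fun c2 =>
      lt_excl s L x (hP1 c1) (hP2 c2)
    rw [if_pos c1, if_neg c2, mul_one]
    obtain ⟨a, ha⟩ := he.1 (hP1 c1)
    rw [ha, ← iA_add]
    refine ⟨fun _ => ⟨_, rfl⟩, fun h => (lt_excl s L x (hP1 c1) h).elim,
      [(a + u.1, 0)], by simp, ?_⟩
    simp [wprod, iB_zero]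
  · rw [if_neg c1, one_mul]
    by_cases c2 : x - (i : ZMod (2 * 64 ^ s)) = ((64 ^ s : ℕ) : ZMod (2 * 64 ^ s))
    · rw [if_pos c2]
      obtain ⟨b, hb⟩ := he.2.1 (hP2 c2)
      rw [hb, ← iB_add]
      refine ⟨fun h => (lt_excl s L x h (hP2 c2)).elim, fun _ => ⟨_, rfl⟩,
        [(0, b + u.2)], by simp, ?_⟩
      simp [wprod, iA_zero]
    · rw [if_neg c2, mul_one]
      exact he

theorem lt_main {r : ℕ → ℕ} (s : ℕ) (x : ZMod (2 * 64 ^ s)) (l : List (ℤ × LL)) :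
    ∀ (g : HH r) (L d : ℤ) (w0 : List LL) (e : Gam (r s)), g.pos = L + d → 4 * |d| < 64 ^ s →
      lt_good s L x e → g.F s x = wprod w0 * e →
      ∃ w : List LL, w.length ≤ w0.length + kc (64 ^ s) d (l.map Prod.fst) + 1 ∧
        wprod w = (ev g l).F s x := by
  induction l with
  | nil =>
    intro g L d w0 e _ _ he hF
    obtain ⟨w1, hw1, hw1e⟩ := he.2.2
    refine ⟨w0 ++ w1, ?_, ?_⟩
    · simp only [List.length_append, List.map_nil, kc]
      omega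
    · rw [lt_wprod_append, hw1e]
      exact hF.symm
  | cons p l ih =>
    intro g L d w0 e hpos hd he hF
    have hF' : (g * tau p.1 * lam p.2).F s x = wprod w0 * (e *
        ((if x - ((L + d + p.1 : ℤ) : ZMod (2 * 64 ^ s)) = 0 then (iA p.2.1 : Gam (r s)) else 1) *
        (if x - ((L + d + p.1 : ℤ) : ZMod (2 * 64 ^ s)) = ((64 ^ s : ℕ) : ZMod (2 * 64 ^ s))
          then iB p.2.2 else 1))) := by
      rw [HH.mul_F, HH.mul_F, hF, ← hpos]
      simp only [tau, lam, HH.mul_pos, mul_one, mul_assoc]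
    have hpos' : (g * tau p.1 * lam p.2).pos = L + d + p.1 := by
      simp [tau, lam, hpos]
    simp only [List.map_cons, kc, ev]
    split_ifs with hc
    · obtain ⟨w1, hw1, hw1e⟩ := he.2.2
      obtain ⟨w, hw, hwe⟩ := ih (g * tau p.1 * lam p.2) (L + d + p.1) 0 (w0 ++ w1) _
        (by rw [hpos']; ring) (by simp) (lt_good_new s (L + d + p.1) x p.2)
        (by rw [hF', lt_wprod_append, hw1e, mul_assoc])
      refine ⟨w, ?_, hwe⟩
      rw [List.length_append] at hw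
      omega
    · obtain ⟨w, hw, hwe⟩ := ih (g * tau p.1 * lam p.2) L (d + p.1) w0 _
        (by rw [hpos']; ring) (by omega)
        (lt_good_step s L (L + d + p.1) (by
          have : L + d + p.1 - L = d + p.1 := by ring
          rw [this]; omega) x e he p.2) hF'
      exact ⟨w, hw, hwe⟩

theorem letters_le {r : ℕ → ℕ} (s : ℕ) (u : LL) (l : List (ℤ × LL)) (x : ZMod (2 * 64 ^ s)) :
    ∃ w : List LL, w.length ≤ kc (64 ^ s) 0 (l.map Prod.fst) + 1 ∧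
      wprod w = (ev (lam u) l : HH r).F s x := by
  obtain ⟨w, hw, hwe⟩ := lt_main (r := r) s x l (lam u) 0 0 [] _ (by simp [lam]) (by simp)
    (lt_good_new s 0 x u) (by simp [lam, wprod])
  exact ⟨w, by simpa using hw, hwe⟩

end Pool.Agent.TH595.SP
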