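import Pool.Agent.TH595.SP.Defs

set_option autoImplicit false

/-!
Job SPD_PACK: from averaging operators to the speed of a random walk on a finitely generated group.
-/

namespace Pool.Agent.TH595.SP

open scoped BigOperators

/-- a list in the preimage of `S` maps to a list in `S`, and conversely -/
theorem pack_wlen {H : Type} [Group H] (S : Set H) (K : Subgroup H) (hSK : S ⊆ K) (g : K) :
    wlen (((↑) : K → H) ⁻¹' S) g = wlen S (g : H) := by
  unfold wlen
  congr 1
  ext n
  simp only [Set.mem_ofPred_eq]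
  constructor
  · rintro ⟨l, hl, hm, hp⟩
    refine ⟨l.map K.subtype, by simpa using hl, ?_, ?_⟩
    · intro x hx
      obtain ⟨y, hy, rfl⟩ := List.mem_map.1 hx
      exact hm y hy
    · rw [← hp]
      exact (map_list_prod K.subtype l).symm
  · rintro ⟨l, hl, hm, hp⟩
    have key : ∀ l : List H, (∀ x ∈ l, x ∈ S) →
        ∃ l' : List K, l'.map K.subtype = l := by
      intro l
      induction l with
      | nil => intro _; exact ⟨[], rfl⟩
      | cons a l ih =>
        intro h
        obtain ⟨l', hl'⟩ := ih (fun x hx => h x (List.mem_cons_of_mem _ hx))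
        refine ⟨⟨a, hSK (h a List.mem_cons_self)⟩ :: l', ?_⟩
        rw [List.map_cons, hl']
        rfl
    obtain ⟨l', rfl⟩ := key l hm
    refine ⟨l', by simpa using hl, ?_, ?_⟩
    · intro x hx
      exact hm _ (List.mem_map.2 ⟨x, hx, rfl⟩)
    · apply Subtype.ext
      rw [← hp]
      exact map_list_prod K.subtype l'

/-- the law of a random generator -/
noncomputable def pack_mu {G ι : Type} [Fintype ι] (e : ι → G) : G →₀ ℝ :=
  ∑ i, Finsupp.single (e i) ((Fintype.card ι : ℝ)⁻¹)

theorem pack_mu_apply {G ι : Type} [Fintype ι] (e : ι → G) (g : G) :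
    pack_mu e g = ∑ i, Finsupp.single (e i) ((Fintype.card ι : ℝ)⁻¹) g := by
  unfold pack_mu
  rw [Finsupp.finsetSum_apply]

theorem pack_sum {G ι : Type} [Fintype ι] (e : ι → G) (F : G → ℝ) :
    ∑ h ∈ (pack_mu e).support, pack_mu e h * F h = (Fintype.card ι : ℝ)⁻¹ * ∑ i, F (e i) := by
  have h1 : ∑ h ∈ (pack_mu e).support, pack_mu e h * F h =
      (pack_mu e).sum (fun h p => p * F h) := rfl
  rw [h1]
  unfold pack_mu
  rw [← Finsupp.sum_finsetSum_index (h := fun h p => p * F h) (by intro a; simp)
    (by intro a b c; ring)]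
  simp [Finset.mul_sum]

theorem pack_nonneg {G ι : Type} [Fintype ι] (e : ι → G) (g : G) : 0 ≤ pack_mu e g := by
  rw [pack_mu_apply]
  refine Finset.sum_nonneg fun i _ => ?_
  classical
  rw [Finsupp.single_apply]
  split_ifs
  · positivity
  · exact le_rfl

theorem pack_symm {G ι : Type} [Group G] [Fintype ι] (e : ι → G) (σ : ι ≃ ι)
    (hσ : ∀ i, e (σ i) = (e i)⁻¹) (g : G) : pack_mu e g⁻¹ = pack_mu e g := by
  classical
  rw [pack_mu_apply, pack_mu_apply, ← Equiv.sum_comp σ]
  refine Finset.sum_congr rfl fun i _ => ?_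
  rw [hσ, Finsupp.single_apply, Finsupp.single_apply]
  simp only [inv_inj]

theorem pack_supp {G ι : Type} [Fintype ι] [Nonempty ι] (e : ι → G) :
    ((pack_mu e).support : Set G) = Set.range e := by
  classical
  have hc : (0 : ℝ) < (Fintype.card ι : ℝ)⁻¹ := by
    have : 0 < Fintype.card ι := Fintype.card_pos
    positivity
  ext g
  simp only [Finset.mem_coe, Finsupp.mem_support_iff, Set.mem_range]
  constructor
  · intro h
    by_contra hne
    push Not at hne
    apply h
    rw [pack_mu_apply]
    refine Finset.sum_eq_zero fun i _ => ?_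
    rw [Finsupp.single_apply, if_neg (hne i)]
  · rintro ⟨i, rfl⟩
    rw [pack_mu_apply]
    apply ne_of_gt
    refine Finset.sum_pos' (fun j _ => ?_) ⟨i, Finset.mem_univ _, ?_⟩
    · rw [Finsupp.single_apply]
      split_ifs
      · exact hc.le
      · exact le_rfl
    · rw [Finsupp.single_apply, if_pos rfl]
      exact hc

/-- splitting off the first factor -/
theorem pack_split {G : Type} [Group G] (μ : G →₀ ℝ) (n : ℕ) (f : G → ℝ) (g : G) :
    ∑ w ∈ Fintype.piFinset (fun _ : Fin (n + 1) => μ.support),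
      (∏ i, μ (w i)) * f (g * (List.ofFn w).prod) =
    ∑ a ∈ μ.support, μ a * ∑ v ∈ Fintype.piFinset (fun _ : Fin n => μ.support),
      (∏ i, μ (v i)) * f (g * a * (List.ofFn v).prod) := by
  simp_rw [Finset.mul_sum]
  rw [← Finset.sum_product']
  refine Finset.sum_bij' (fun w _ => (w 0, Fin.tail w)) (fun p _ => Fin.cons p.1 p.2)
    ?_ ?_ ?_ ?_ ?_
  · intro w hw
    rw [Fintype.mem_piFinset] at hw
    rw [Finset.mem_product, Fintype.mem_piFinset]
    exact ⟨hw 0, fun i => hw i.succ⟩
  · intro p hp
    rw [Finset.mem_product, Fintype.mem_piFinset] at hp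
    rw [Fintype.mem_piFinset]
    intro i
    refine Fin.cases ?_ (fun j => ?_) i
    · simpa using hp.1
    · simpa using hp.2 j
  · intro w _
    simp
  · intro p _
    simp
  · intro w _
    simp only [Fin.prod_univ_succ, List.ofFn_succ, List.prod_cons, mul_assoc]
    rfl

theorem pack_iter {G ι : Type} [Group G] [Fintype ι] (e : ι → G) (f : G → ℝ) (n : ℕ) (g : G) :
    ∑ w ∈ Fintype.piFinset (fun _ : Fin n => (pack_mu e).support),
      (∏ i, pack_mu e (w i)) * f (g * (List.ofFn w).prod) = ((Av e)^[n] f) g := by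
  induction n generalizing g with
  | zero => simp
  | succ n ih =>
    rw [pack_split]
    simp_rw [ih]
    rw [pack_sum e (fun a => ((Av e)^[n] f) (g * a)), Function.iterate_succ_apply']
    rfl

theorem pack_lift {H ι : Type} [Group H] [Fintype ι] (K : Subgroup H) (e : ι → K) (F : H → ℝ)
    (n : ℕ) (g : K) :
    ((Av e)^[n] (fun g => F (g : H))) g = ((Av (fun i => (e i : H)))^[n] F) (g : H) := by
  induction n generalizing g with
  | zero => rfl
  | succ n ih =>
    rw [Function.iterate_succ_apply', Function.iterate_succ_apply']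
    unfold Av at ih ⊢
    simp_rw [ih]
    simp

theorem pack {H : Type} [Group H] (S : Set H) (hfin : S.Finite) (hinv : ∀ g ∈ S, g⁻¹ ∈ S)
    {ι : Type} [Fintype ι] [Nonempty ι] (e : ι → H) (he : ∀ i, e i ∈ Subgroup.closure S)
    (σ : ι ≃ ι) (hσ : ∀ i, e (σ i) = (e i)⁻¹)
    (hgen : ∀ g ∈ S, g ∈ Subgroup.closure (Set.range e)) :
    ∃ (G : Type) (_ : Group G) (T : Finset G) (μ : G →₀ ℝ),
      (∀ g ∈ T, g⁻¹ ∈ T) ∧ Subgroup.closure (T : Set G) = ⊤ ∧
      (∀ g, 0 ≤ μ g) ∧ (∀ g, μ g⁻¹ = μ g) ∧ (μ.sum fun _ p => p) = 1 ∧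
      Subgroup.closure (μ.support : Set G) = ⊤ ∧
      ∀ n, speed (T : Set G) μ n = ((Av e)^[n] (fun g => (wlen S g : ℝ))) 1 := by
  have hfin' : (((↑) : Subgroup.closure S → H) ⁻¹' S).Finite :=
    hfin.preimage Subtype.val_injective.injOn
  set e' : ι → Subgroup.closure S := fun i => ⟨e i, he i⟩ with he'
  have hcoe : ((hfin'.toFinset : Finset (Subgroup.closure S)) : Set (Subgroup.closure S)) =
      ((↑) : Subgroup.closure S → H) ⁻¹' S := hfin'.coe_toFinset
  have hσ' : ∀ i, e' (σ i) = (e' i)⁻¹ := fun i => Subtype.ext (hσ i)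
  refine ⟨Subgroup.closure S, inferInstance, hfin'.toFinset, pack_mu e', ?_, ?_, ?_, ?_, ?_, ?_, ?_⟩
  · intro g hg
    rw [Set.Finite.mem_toFinset] at hg ⊢
    exact hinv _ hg
  · rw [hcoe]
    exact Subgroup.closure_closure_coe_preimage
  · exact pack_nonneg e'
  · exact pack_symm e' σ hσ'
  · have h := pack_sum e' (fun _ => (1 : ℝ))
    have hc : (Fintype.card ι : ℝ) ≠ 0 := by
      have : 0 < Fintype.card ι := Fintype.card_pos
      positivity
    simp only [mul_one, Finset.sum_const, Finset.card_univ, nsmul_eq_mul] at h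
    rw [inv_mul_cancel₀ hc] at h
    exact h
  · rw [pack_supp]
    have hle : Subgroup.closure S ≤ Subgroup.closure (Set.range e) := by
      rw [Subgroup.closure_le]
      exact hgen
    have hmap : (Subgroup.closure (Set.range e')).map (Subgroup.closure S).subtype =
        Subgroup.closure (Set.range e) := by
      rw [MonoidHom.map_closure]
      congr 1
      rw [← Set.range_comp]
      rfl
    rw [eq_top_iff]
    intro x _
    have hx : (x : H) ∈ (Subgroup.closure (Set.range e')).map (Subgroup.closure S).subtype := by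
      rw [hmap]
      exact hle x.2
    obtain ⟨y, hy, hyx⟩ := Subgroup.mem_map.1 hx
    have : y = x := Subtype.ext hyx
    rw [← this]
    exact hy
  · intro n
    have h1 := pack_iter e' (fun g => (wlen S (g : H) : ℝ)) n 1
    have h2 := pack_lift (Subgroup.closure S) e' (fun g => (wlen S g : ℝ)) n 1
    unfold speed
    rw [hcoe]
    have h3 : ∀ g : Subgroup.closure S,
        wlen (((↑) : Subgroup.closure S → H) ⁻¹' S) g = wlen S (g : H) :=
      fun g => pack_wlen S _ Subgroup.subset_closure g
    simp_rw [h3]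
    simp only [one_mul] at h1
    rw [h1, h2]
    rfl

end Pool.Agent.TH595.SP
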