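import Pool.Agent.TH595.SP.Defs

set_option autoImplicit false

namespace Pool.Agent.TH595.SP

open scoped BigOperators

/-- splitting of a sum at an index, geometric bounds on both sides -/
theorem param_split (f : ℕ → ℝ) (A B : ℝ) (hA : 0 ≤ A) (hB : 0 ≤ B) (t : ℕ)
    (h1 : ∀ s, s < t → f s ≤ A * 64 ^ s) (h2 : ∀ s, t ≤ s → f s ≤ B / 64 ^ s) (N : ℕ) :
    ∑ s ∈ Finset.range N, f s ≤ A * 64 ^ t / 63 + B * 64 / (63 * 64 ^ t) := by
  have key : ∑ s ∈ Finset.range N, f s ≤
      if N ≤ t then A * (64 ^ N - 1) / 63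
      else A * (64 ^ t - 1) / 63 + B * (64 / 63) * (1 / 64 ^ t - 1 / 64 ^ N) := by
    induction N with
    | zero => simp
    | succ N ih =>
      rw [Finset.sum_range_succ]
      by_cases h : N + 1 ≤ t
      · rw [if_pos h]
        rw [if_pos (by omega)] at ih
        have h3 := h1 N (by omega)
        have e : A * (64 ^ (N + 1) - 1) / 63 = A * (64 ^ N - 1) / 63 + A * 64 ^ N := by
          rw [pow_succ]; ring
        linarith
      · rw [if_neg h]
        by_cases h' : N ≤ t
        · have hN : N = t := by omega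
          subst hN
          rw [if_pos le_rfl] at ih
          have h3 := h2 N le_rfl
          have e : B * (64 / 63) * (1 / 64 ^ N - 1 / 64 ^ (N + 1)) = B / 64 ^ N := by
            have hp : (0 : ℝ) < 64 ^ N := by positivity
            rw [pow_succ]; field_simp; ring
          linarith
        · rw [if_neg h'] at ih
          have h3 := h2 N (by omega)
          have e : B * (64 / 63) * (1 / 64 ^ t - 1 / 64 ^ (N + 1)) =
              B * (64 / 63) * (1 / 64 ^ t - 1 / 64 ^ N) + B / 64 ^ N := by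
            have e2 : (1 : ℝ) / 64 ^ (N + 1) = (1 / 64 ^ N) / 64 := by
              rw [pow_succ]; field_simp
            rw [e2]; ring
          linarith
  refine key.trans ?_
  have hp : (0 : ℝ) < 64 ^ t := by positivity
  have hB' : 0 ≤ B * 64 / (63 * 64 ^ t) := by positivity
  split_ifs with h
  · have h3 : (64 : ℝ) ^ N ≤ 64 ^ t := pow_le_pow_right₀ (by norm_num) h
    have h4 : A * (64 ^ N - 1) ≤ A * 64 ^ t := mul_le_mul_of_nonneg_left (by linarith) hA
    have h5 : A * (64 ^ N - 1) / 63 ≤ A * 64 ^ t / 63 := by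
      apply div_le_div_of_nonneg_right h4 (by norm_num)
    linarith
  · have h4 : A * (64 ^ t - 1) ≤ A * 64 ^ t := mul_le_mul_of_nonneg_left (by linarith) hA
    have h5 : A * (64 ^ t - 1) / 63 ≤ A * 64 ^ t / 63 := by
      apply div_le_div_of_nonneg_right h4 (by norm_num)
    have h6 : (0 : ℝ) ≤ 1 / 64 ^ N := by positivity
    have h7 : B * (64 / 63) * (1 / 64 ^ t - 1 / 64 ^ N) ≤ B * (64 / 63) * (1 / 64 ^ t) :=
      mul_le_mul_of_nonneg_left (by linarith) (by positivity)
    have e : B * (64 / 63) * (1 / 64 ^ t) = B * 64 / (63 * 64 ^ t) := by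
      field_simp
    linarith

/-- the doubling sequence -/
noncomputable def paramE (D : ℕ → ℝ) : ℕ → ℝ
  | 0 => D 0
  | s + 1 => if 2 * paramE D s ≤ D (s + 1) then D (s + 1) else paramE D s

/-- the kept indices -/
def paramK (D : ℕ → ℝ) : ℕ → Prop
  | 0 => True
  | s + 1 => 2 * paramE D s ≤ D (s + 1)

theorem param_E_le (D : ℕ → ℝ) (hD : Monotone D) (s : ℕ) : paramE D s ≤ D s := by
  induction s with
  | zero => exact le_rfl
  | succ s ih =>
    unfold paramE
    split_ifs with h
    · exact le_rfl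
    · exact ih.trans (hD (Nat.le_succ s))

theorem param_E_kept (D : ℕ → ℝ) (s : ℕ) : ∃ t, t ≤ s ∧ paramK D t ∧ paramE D s = D t := by
  induction s with
  | zero => exact ⟨0, le_rfl, trivial, rfl⟩
  | succ s ih =>
    by_cases h : 2 * paramE D s ≤ D (s + 1)
    · exact ⟨s + 1, le_rfl, h, by simp only [paramE]; rw [if_pos h]⟩
    · obtain ⟨t, ht, h1, h2⟩ := ih
      refine ⟨t, ht.trans (Nat.le_succ s), h1, ?_⟩
      simp only [paramE]; rw [if_neg h]; exact h2

open Classical in
theorem param_sum_kept (D : ℕ → ℝ) (hD0 : ∀ s, 0 ≤ D s) (s : ℕ) :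
    ∑ t ∈ Finset.range (s + 1), (if paramK D t then D t else 0) ≤ 2 * paramE D s := by
  induction s with
  | zero =>
    have h : paramK D 0 := trivial
    simp only [zero_add, Finset.sum_range_one, if_pos h, paramE]
    linarith [hD0 0]
  | succ s ih =>
    rw [Finset.sum_range_succ]
    by_cases h : paramK D (s + 1)
    · rw [if_pos h]
      have h' : 2 * paramE D s ≤ D (s + 1) := h
      have e : paramE D (s + 1) = D (s + 1) := by simp only [paramE]; rw [if_pos h']
      rw [e]; linarith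
    · rw [if_neg h]
      have h' : ¬ 2 * paramE D s ≤ D (s + 1) := h
      have e : paramE D (s + 1) = paramE D s := by simp only [paramE]; rw [if_neg h']
      rw [e]; linarith

theorem param (ρ : ℝ → ℝ) (hmono : ∀ x y, 1 ≤ x → x ≤ y → ρ x ≤ ρ y)
    (hsub : ∀ x y, 1 ≤ x → 1 ≤ y → ρ (x + y) ≤ ρ x + ρ y) (hsqrt : ∀ x, 1 ≤ x → Real.sqrt x ≤ ρ x)
    (hnl : ∀ C : ℝ, ∃ x, 1 ≤ x ∧ C * ρ x < x) :
    ∃ (r : ℕ → ℕ) (C : ℝ), (∀ s, Even (r s) ∧ 0 < r s) ∧ 0 < C ∧ ∀ n : ℕ, 1 ≤ n →
      Real.sqrt n + ∑ s ∈ Finset.range (n + 1), blk r s n ≤ C * ρ n ∧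
      ∃ s, ρ n ≤ C * blk r s n := by
  classical
  have hpos : ∀ x, 1 ≤ x → 1 ≤ ρ x := fun x hx => by
    have h1 : (1 : ℝ) ≤ Real.sqrt x := by
      rw [show (1 : ℝ) = Real.sqrt 1 by simp]
      exact Real.sqrt_le_sqrt hx
    exact h1.trans (hsqrt x hx)
  -- multiples
  have hmul : ∀ x, 1 ≤ x → ∀ m : ℕ, ρ ((m + 1 : ℕ) * x) ≤ (m + 1 : ℕ) * ρ x := by
    intro x hx m
    induction m with
    | zero => simp
    | succ m ih =>
      have e : (((m + 1 + 1 : ℕ) : ℝ)) * x = ((m + 1 : ℕ) : ℝ) * x + x := by push_cast; ring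
      rw [e]
      have h1 : (1 : ℝ) ≤ ((m + 1 : ℕ) : ℝ) * x := by
        have : (1 : ℝ) ≤ ((m + 1 : ℕ) : ℝ) := by exact_mod_cast Nat.succ_le_succ (Nat.zero_le m)
        nlinarith
      have h2 := hsub _ _ h1 hx
      have e2 : (((m + 1 + 1 : ℕ) : ℝ)) * ρ x = ((m + 1 : ℕ) : ℝ) * ρ x + ρ x := by push_cast; ring
      rw [e2]; linarith
  have hA : ∀ x y, 1 ≤ x → x ≤ y → ρ y ≤ 2 * (y / x) * ρ x := by
    intro x y hx hxy
    have hx0 : 0 < x := by linarith
    set m := ⌊y / x⌋₊ with hm
    have hyx : 1 ≤ y / x := by rw [le_div_iff₀ hx0]; linarith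
    have hm1 : 1 ≤ m := by rw [hm]; exact Nat.le_floor (by simpa using hyx)
    have hm1' : (1 : ℝ) ≤ (m : ℝ) := by exact_mod_cast hm1
    have hm2 : (m : ℝ) ≤ y / x := Nat.floor_le (by linarith)
    have hm3 : y / x < (m : ℝ) + 1 := Nat.lt_floor_add_one _
    have h1 : y ≤ ((m + 1 : ℕ) : ℝ) * x := by
      rw [div_lt_iff₀ hx0] at hm3
      push_cast; linarith
    have h2 := hmono y _ (hx.trans hxy) h1
    have h3 := hmul x hx m
    have h4 : (((m + 1 : ℕ) : ℝ)) * ρ x ≤ 2 * (y / x) * ρ x := by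
      apply mul_le_mul_of_nonneg_right _ (by linarith [hpos x hx])
      push_cast; linarith
    linarith
  -- the thresholds
  have hex : ∀ s : ℕ, ∃ x : ℕ, 1 ≤ x ∧ (64 : ℝ) ^ s * ρ x ≤ x := by
    intro s
    obtain ⟨x, hx, hx2⟩ := hnl (4 * 64 ^ s)
    have hx0 : 0 < x := by linarith
    have h1 : x ≤ (⌈x⌉₊ : ℝ) := Nat.le_ceil x
    have h2 : (⌈x⌉₊ : ℝ) < x + 1 := Nat.ceil_lt_add_one (by linarith)
    refine ⟨⌈x⌉₊, ?_, ?_⟩
    · exact_mod_cast (hx.trans h1)
    · have h3 := hA x _ hx h1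
      have h4 : (⌈x⌉₊ : ℝ) / x ≤ 2 := by rw [div_le_iff₀ hx0]; linarith
      have h5 : ρ (⌈x⌉₊ : ℝ) ≤ 4 * ρ x := by
        have hr := hpos x hx
        nlinarith
      have hk : (0 : ℝ) < 64 ^ s := by positivity
      have h6 : (64 : ℝ) ^ s * ρ (⌈x⌉₊ : ℝ) ≤ 64 ^ s * (4 * ρ x) := mul_le_mul_of_nonneg_left h5 hk.le
      nlinarith
  set X : ℕ → ℕ := fun s => Nat.find (hex s) with hX
  have X1 : ∀ s, 1 ≤ X s := fun s => (Nat.find_spec (hex s)).1
  have X1r : ∀ s, (1 : ℝ) ≤ (X s : ℝ) := fun s => by exact_mod_cast X1 s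
  have X2 : ∀ s, (64 : ℝ) ^ s * ρ (X s) ≤ X s := fun s => (Nat.find_spec (hex s)).2
  have X3 : ∀ s (m : ℕ), 1 ≤ m → m < X s → (m : ℝ) < 64 ^ s * ρ m := by
    intro s m hm hms
    by_contra hcon
    exact Nat.find_min (hex s) hms ⟨hm, not_lt.1 hcon⟩
  have X4 : ∀ s t, s ≤ t → X s ≤ X t := by
    intro s t hst
    refine Nat.find_min' (hex s) ⟨X1 t, ?_⟩
    have h1 : (64 : ℝ) ^ s ≤ 64 ^ t := pow_le_pow_right₀ (by norm_num) hst
    have h2 := hpos (X t) (X1r t)
    exact (mul_le_mul_of_nonneg_right h1 (by linarith)).trans (X2 t)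
  have X5 : ∀ s, (64 : ℝ) ^ s ≤ Real.sqrt (X s) := by
    intro s
    have h1 := X2 s
    have h2 := hsqrt (X s) (X1r s)
    have hk : (0 : ℝ) < 64 ^ s := by positivity
    have h3 : (64 : ℝ) ^ s * Real.sqrt (X s) ≤ X s := (mul_le_mul_of_nonneg_left h2 hk.le).trans h1
    have h4 : 0 < Real.sqrt (X s) := Real.sqrt_pos.2 (by linarith [X1r s])
    have h5 : Real.sqrt (X s) * Real.sqrt (X s) = X s := Real.mul_self_sqrt (by linarith [X1r s])
    have h6 : (64 : ℝ) ^ s * Real.sqrt (X s) ≤ Real.sqrt (X s) * Real.sqrt (X s) := by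
      rw [h5]; exact h3
    exact le_of_mul_le_mul_right h6 h4
  have X6 : ∀ n : ℕ, ∃ s, n < X s := by
    intro n
    refine ⟨n, ?_⟩
    have h1 := X5 n
    have h2 : (n : ℝ) < 64 ^ n := by
      have : n < 64 ^ n := Nat.lt_pow_self (by norm_num)
      exact_mod_cast this
    have h3 : Real.sqrt (X n) ≤ X n := by
      have h5 : Real.sqrt (X n) * Real.sqrt (X n) = X n := Real.mul_self_sqrt (by linarith [X1r n])
      have h6 : (1 : ℝ) ≤ 64 ^ n := one_le_pow₀ (by norm_num)
      nlinarith [Real.sqrt_nonneg (X n : ℝ)]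
    exact_mod_cast (h2.trans_le (h1.trans h3))
  set D : ℕ → ℝ := fun s => ρ (X s) with hD
  have Dmono : Monotone D := fun s t hst => hmono _ _ (X1r s) (by exact_mod_cast X4 s t hst)
  have Dk : ∀ s, (64 : ℝ) ^ s ≤ D s := fun s => (X5 s).trans (hsqrt _ (X1r s))
  have Dpos : ∀ s, 0 ≤ D s := fun s => by linarith [hpos (X s) (X1r s)]
  -- the parameters
  set r : ℕ → ℕ := fun s => if paramK D s then 2 * ⌈(D s / 64 ^ s) ^ (1 / 3 : ℝ)⌉₊ else 2 with hr
  have hrk : ∀ s, paramK D s → 8 * D s ≤ 64 ^ s * (r s : ℝ) ^ 3 ∧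
      64 ^ s * (r s : ℝ) ^ 3 ≤ 64 * D s := by
    intro s hs
    have hk : (0 : ℝ) < 64 ^ s := by positivity
    have h1 : 1 ≤ D s / 64 ^ s := by rw [le_div_iff₀ hk]; linarith [Dk s]
    set q : ℝ := (D s / 64 ^ s) ^ (1 / 3 : ℝ) with hq
    have hq1 : 1 ≤ q := Real.one_le_rpow h1 (by norm_num)
    have hq3 : q ^ 3 = D s / 64 ^ s := by
      rw [hq, ← Real.rpow_natCast, ← Real.rpow_mul (by linarith)]
      norm_num
    have h2 : q ≤ (⌈q⌉₊ : ℝ) := Nat.le_ceil q
    have h3 : (⌈q⌉₊ : ℝ) < q + 1 := Nat.ceil_lt_add_one (by linarith)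
    have e : (r s : ℝ) = 2 * (⌈q⌉₊ : ℝ) := by
      simp only [hr]; rw [if_pos hs]; push_cast; rfl
    have h4 : (2 * q) ^ 3 ≤ (r s : ℝ) ^ 3 := by
      rw [e]; exact pow_le_pow_left₀ (by linarith) (by linarith) 3
    have h5 : (r s : ℝ) ^ 3 ≤ (4 * q) ^ 3 := by
      rw [e]; exact pow_le_pow_left₀ (by linarith) (by linarith) 3
    have e2 : 64 ^ s * q ^ 3 = D s := by rw [hq3]; field_simp
    constructor
    · have : 64 ^ s * (2 * q) ^ 3 ≤ 64 ^ s * (r s : ℝ) ^ 3 := mul_le_mul_of_nonneg_left h4 hk.le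
      have e3 : (64 : ℝ) ^ s * (2 * q) ^ 3 = 8 * D s := by rw [← e2]; ring
      linarith
    · have : 64 ^ s * (r s : ℝ) ^ 3 ≤ 64 ^ s * (4 * q) ^ 3 := mul_le_mul_of_nonneg_left h5 hk.le
      have e3 : (64 : ℝ) ^ s * (4 * q) ^ 3 = 64 * D s := by rw [← e2]; ring
      linarith
  have hrn : ∀ s, ¬ paramK D s → (r s : ℝ) = 2 := by
    intro s hs
    simp only [hr]; rw [if_neg hs]; norm_num
  have hblk0 : ∀ s (n : ℕ), 0 ≤ blk r s n := by
    intro s n
    unfold blk
    exact le_min (by positivity) (by positivity)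
  have hρ1 := hpos 1 le_rfl
  refine ⟨r, 142 + 2 * ρ 1, ?_, by linarith, ?_⟩
  · intro s
    by_cases hs : paramK D s
    · have e : r s = 2 * ⌈(D s / 64 ^ s) ^ (1 / 3 : ℝ)⌉₊ := by simp only [hr]; rw [if_pos hs]
      have hk : (0 : ℝ) < 64 ^ s := by positivity
      have h1 : 1 ≤ D s / 64 ^ s := by rw [le_div_iff₀ hk]; linarith [Dk s]
      have hq1 : 1 ≤ (D s / 64 ^ s) ^ (1 / 3 : ℝ) := Real.one_le_rpow h1 (by norm_num)
      have h2 : 0 < ⌈(D s / 64 ^ s) ^ (1 / 3 : ℝ)⌉₊ := Nat.ceil_pos.2 (by linarith)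
      rw [e]
      exact ⟨even_two_mul _, by omega⟩
    · have e : r s = 2 := by simp only [hr]; rw [if_neg hs]
      rw [e]; exact ⟨even_two, by norm_num⟩
  intro n hn
  have hn1 : (1 : ℝ) ≤ (n : ℝ) := by exact_mod_cast hn
  have hρn := hpos n hn1
  set s1 := Nat.find (X6 n) with hs1
  have S1 : n < X s1 := Nat.find_spec (X6 n)
  have S2 : ∀ s, s < s1 → X s ≤ n := fun s hs => not_lt.1 (Nat.find_min (X6 n) hs)
  have hk1 : (0 : ℝ) < 64 ^ s1 := by positivity
  have S3 : (n : ℝ) / 64 ^ s1 < ρ n := by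
    rw [div_lt_iff₀ hk1]
    have := X3 s1 n hn S1
    linarith
  constructor
  · -- upper bound
    have hub : ∀ s, blk r s n ≤ min ((n : ℝ) / 64 ^ s) (8 * 64 ^ s) +
        (if s < s1 ∧ paramK D s then 64 * D s else 0) + (if s1 ≤ s then (n : ℝ) / 64 ^ s else 0) := by
      intro s
      have hk : (0 : ℝ) < 64 ^ s := by positivity
      have n1 : 0 ≤ min ((n : ℝ) / 64 ^ s) (8 * 64 ^ s) := le_min (by positivity) (by positivity)
      have n2 : (0 : ℝ) ≤ (if s < s1 ∧ paramK D s then 64 * D s else 0) := by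
        split_ifs
        · linarith [Dpos s]
        · exact le_rfl
      have n3 : (0 : ℝ) ≤ (if s1 ≤ s then (n : ℝ) / 64 ^ s else 0) := by
        split_ifs
        · positivity
        · exact le_rfl
      by_cases hs : paramK D s
      · by_cases hlt : s < s1
        · rw [if_pos ⟨hlt, hs⟩]
          have h1 : blk r s n ≤ 64 * D s := (min_le_right _ _).trans (hrk s hs).2
          linarith
        · rw [if_pos (not_lt.1 hlt)]
          have h1 : blk r s n ≤ (n : ℝ) / 64 ^ s := min_le_left _ _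
          linarith
      · have h1 : blk r s n = min ((n : ℝ) / 64 ^ s) (8 * 64 ^ s) := by
          unfold blk
          rw [hrn s hs]
          congr 1
          ring
        linarith
    have hsum : ∑ s ∈ Finset.range (n + 1), blk r s n ≤
        ∑ s ∈ Finset.range (n + 1), min ((n : ℝ) / 64 ^ s) (8 * 64 ^ s) +
        ∑ s ∈ Finset.range (n + 1), (if s < s1 ∧ paramK D s then 64 * D s else 0) +
        ∑ s ∈ Finset.range (n + 1), (if s1 ≤ s then (n : ℝ) / 64 ^ s else 0) := by
      rw [← Finset.sum_add_distrib, ← Finset.sum_add_distrib]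
      exact Finset.sum_le_sum fun s _ => hub s
    -- first sum
    have hsn : 0 ≤ Real.sqrt n := Real.sqrt_nonneg _
    have hsn1 : 1 ≤ Real.sqrt n := by
      rw [show (1 : ℝ) = Real.sqrt 1 by simp]
      exact Real.sqrt_le_sqrt hn1
    have hss : Real.sqrt n * Real.sqrt n = n := Real.mul_self_sqrt (by linarith)
    have hext : ∃ t : ℕ, Real.sqrt n < 64 ^ t := by
      obtain ⟨t, ht⟩ := pow_unbounded_of_one_lt (Real.sqrt n) (by norm_num : (1 : ℝ) < 64)
      exact ⟨t, ht⟩
    have u1 : ∑ s ∈ Finset.range (n + 1), min ((n : ℝ) / 64 ^ s) (8 * 64 ^ s) ≤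
        10 * Real.sqrt n := by
      set t := Nat.find hext with ht
      have T1 : Real.sqrt n < 64 ^ t := Nat.find_spec hext
      have T2 : (64 : ℝ) ^ t ≤ 64 * Real.sqrt n := by
        rcases Nat.eq_zero_or_pos t with h0 | h0
        · rw [h0, pow_zero]; linarith
        · obtain ⟨u, hu⟩ := Nat.exists_eq_succ_of_ne_zero (Nat.pos_iff_ne_zero.1 h0)
          have h1 : ¬ Real.sqrt n < 64 ^ u := Nat.find_min hext (by rw [← ht, hu]; exact Nat.lt_succ_self u)
          rw [hu, pow_succ]
          have := not_lt.1 h1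
          linarith
      have h1 := param_split (fun s => min ((n : ℝ) / 64 ^ s) (8 * 64 ^ s)) 8 n (by norm_num)
        (by linarith) t (fun s _ => min_le_right _ _) (fun s _ => min_le_left _ _) (n + 1)
      refine h1.trans ?_
      have hpt : (0 : ℝ) < 64 ^ t := by positivity
      have h2 : (n : ℝ) * 64 / (63 * 64 ^ t) ≤ 64 / 63 * Real.sqrt n := by
        rw [div_le_iff₀ (by positivity)]
        have h3 : Real.sqrt n * Real.sqrt n ≤ Real.sqrt n * 64 ^ t :=
          mul_le_mul_of_nonneg_left T1.le hsn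
        nlinarith
      linarith
    -- second sum
    have u2 : ∑ s ∈ Finset.range (n + 1), (if s < s1 ∧ paramK D s then 64 * D s else 0) ≤
        128 * ρ n := by
      have h1 : ∑ s ∈ Finset.range (n + 1), (if s < s1 ∧ paramK D s then 64 * D s else 0) ≤
          ∑ s ∈ Finset.range s1, 64 * (if paramK D s then D s else 0) := by
        have h2 : ∑ s ∈ Finset.range (n + 1), (if s < s1 ∧ paramK D s then 64 * D s else 0) =
            ∑ s ∈ (Finset.range (n + 1)).filter (fun s => s < s1),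
              64 * (if paramK D s then D s else 0) := by
          rw [Finset.sum_filter]
          refine Finset.sum_congr rfl fun s _ => ?_
          by_cases ha : s < s1 <;> by_cases hb : paramK D s <;> simp [ha, hb]
        rw [h2]
        refine Finset.sum_le_sum_of_subset_of_nonneg ?_ ?_
        · intro s hs
          rw [Finset.mem_filter] at hs
          exact Finset.mem_range.2 hs.2
        · intro s _ _
          split_ifs
          · linarith [Dpos s]
          · simp
      refine h1.trans ?_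
      rcases Nat.eq_zero_or_pos s1 with h0 | h0
      · rw [h0]; simp; linarith
      · obtain ⟨u, hu⟩ := Nat.exists_eq_succ_of_ne_zero (Nat.pos_iff_ne_zero.1 h0)
        rw [hu, ← Finset.mul_sum]
        have h3 := param_sum_kept D Dpos u
        have h4 := param_E_le D Dmono u
        have h5 : D u ≤ ρ n := hmono _ _ (X1r u) (by exact_mod_cast S2 u (by omega))
        have h6 : ∑ t ∈ Finset.range (Nat.succ u), (if paramK D t then D t else 0) ≤ 2 * ρ n := by
          refine le_trans ?_ (h3.trans (by linarith))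
          exact le_rfl
        linarith
    -- third sum
    have u3 : ∑ s ∈ Finset.range (n + 1), (if s1 ≤ s then (n : ℝ) / 64 ^ s else 0) ≤
        2 * ρ n := by
      have h1 := param_split (fun s => if s1 ≤ s then (n : ℝ) / 64 ^ s else 0) 0 n le_rfl
        (by linarith) s1 (fun s hs => by simp [not_le.2 hs])
        (fun s hs => by simp only [if_pos hs]; exact le_rfl) (n + 1)
      refine h1.trans ?_
      have e : (n : ℝ) * 64 / (63 * 64 ^ s1) = 64 / 63 * ((n : ℝ) / 64 ^ s1) := by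
        field_simp
      rw [e]
      linarith
    have hs := hsqrt n hn1
    have : 0 ≤ ρ 1 * ρ n := by positivity
    nlinarith
  · -- lower bound
    rcases Nat.eq_zero_or_pos s1 with h0 | h0
    · refine ⟨0, ?_⟩
      have hK : paramK D 0 := trivial
      have h1 := (hrk 0 hK).1
      have h2 : ρ n ≤ D 0 := hmono _ _ hn1 (by rw [h0] at S1; exact_mod_cast S1.le)
      have h3 := hA 1 n le_rfl hn1
      have h4 : ρ n / (2 * ρ 1) ≤ blk r 0 n := by
        unfold blk
        apply le_min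
        · rw [pow_zero, div_one, div_le_iff₀ (by linarith)]
          rw [div_one] at h3
          linarith
        · rw [div_le_iff₀ (by linarith)]
          nlinarith
      rw [div_le_iff₀ (by linarith)] at h4
      have := hblk0 0 n
      nlinarith
    · obtain ⟨u, hu⟩ := Nat.exists_eq_succ_of_ne_zero (Nat.pos_iff_ne_zero.1 h0)
      have hXu : X u ≤ n := S2 u (by omega)
      have hXur : (X u : ℝ) ≤ n := by exact_mod_cast hXu
      have hku : (0 : ℝ) < 64 ^ u := by positivity
      have hXu0 : (0 : ℝ) < X u := by linarith [X1r u]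
      have h1 := hA (X u) n (X1r u) hXur
      have h2 : ρ n ≤ 2 * (n / 64 ^ u) := by
        have h3 : ρ (X u) / X u ≤ 1 / 64 ^ u := by
          rw [div_le_div_iff₀ hXu0 hku]
          have := X2 u
          linarith
        have e : 2 * ((n : ℝ) / X u) * ρ (X u) = 2 * n * (ρ (X u) / X u) := by ring
        rw [e] at h1
        have h4 : 2 * (n : ℝ) * (ρ (X u) / X u) ≤ 2 * n * (1 / 64 ^ u) :=
          mul_le_mul_of_nonneg_left h3 (by linarith)
        have e2 : 2 * (n : ℝ) * (1 / 64 ^ u) = 2 * (n / 64 ^ u) := by ring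
        linarith
      by_cases hs : paramK D s1
      · refine ⟨s1, ?_⟩
        have h3 := (hrk s1 hs).1
        have h4 : ρ n ≤ D s1 := hmono _ _ hn1 (by exact_mod_cast S1.le)
        have h5 : ρ n / 128 ≤ blk r s1 n := by
          unfold blk
          apply le_min
          · have e : (n : ℝ) / 64 ^ s1 = (n / 64 ^ u) / 64 := by
              rw [hu, pow_succ]; field_simp
            rw [e]; linarith
          · linarith
        have := hblk0 s1 n
        nlinarith
      · obtain ⟨t, ht, hKt, hEt⟩ := param_E_kept D u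
        refine ⟨t, ?_⟩
        have h3 : D s1 < 2 * D t := by
          have : ¬ 2 * paramE D u ≤ D (u + 1) := by
            rw [hu] at hs; exact hs
          rw [hEt] at this
          rw [hu]
          exact not_le.1 this
        have h4 : ρ n ≤ D s1 := hmono _ _ hn1 (by exact_mod_cast S1.le)
        have hkt : (0 : ℝ) < 64 ^ t := by positivity
        have hXt : (X t : ℝ) ≤ n := by
          have := X4 t u ht
          exact_mod_cast this.trans hXu
        have h5 : D t ≤ blk r t n := by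
          unfold blk
          apply le_min
          · rw [le_div_iff₀ hkt]
            have := X2 t
            simp only [hD]
            linarith
          · have := (hrk t hKt).1
            linarith [Dpos t]
        have := hblk0 t n
        nlinarith

end Pool.Agent.TH595.SP
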