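import Pool.Agent.TH595.SP.UpC
import Pool.Agent.TH595.SP.LoA
import Pool.Agent.TH595.SP.Pack
import Pool.Agent.TH595.SP.Param
import Pool.Agent.TH595.SP.Lin

set_option autoImplicit false

/-!
Speed functions of symmetric random walks: every non-decreasing subadditive function above the
square root is a speed function.
-/

namespace Pool.Agent.TH595.SP

open scoped BigOperators

variable {r : ℕ → ℕ}

theorem main_ne (s : ℕ) : ((64 ^ s : ℕ) : ZMod (2 * 64 ^ s)) ≠ 0 := by
  intro h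
  rw [ZMod.natCast_eq_zero_iff] at h
  have h1 : 0 < 64 ^ s := by positivity
  have := Nat.le_of_dvd h1 h
  omega

theorem main_lam_mul (u v : LL) : (lam u * lam v : HH r) = lam (u + v) := by
  refine HH.hext ?_ ?_ ?_
  · intro j
    simp only [lam, HH.mul_base, sub_zero]
    split_ifs <;> simp
  · intro s x
    simp only [lam, HH.mul_F, Int.cast_zero, sub_zero]
    by_cases h0 : x = 0
    · have h1 : x ≠ ((64 ^ s : ℕ) : ZMod (2 * 64 ^ s)) := by
        rw [h0]; exact (main_ne s).symm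
      rw [if_pos h0, if_neg h1, if_pos h0, if_neg h1, if_pos h0, if_neg h1]
      simp [iA_add]
    · rw [if_neg h0, if_neg h0, if_neg h0]
      by_cases h1 : x = ((64 ^ s : ℕ) : ZMod (2 * 64 ^ s))
      · rw [if_pos h1, if_pos h1, if_pos h1]
        simp [iB_add]
      · rw [if_neg h1, if_neg h1, if_neg h1]
        simp
  · simp [lam]

theorem main_lam_zero : (lam 0 : HH r) = 1 := by
  have h := main_lam_mul (r := r) 0 0
  rw [add_zero] at h
  exact mul_eq_left.1 h

theorem main_tau_mul (a b : ℤ) : (tau a * tau b : HH r) = tau (a + b) := by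
  refine HH.hext ?_ ?_ ?_
  · intro j; simp [tau]
  · intro s x; simp [tau]
  · simp [tau]

theorem main_tau_zero : (tau 0 : HH r) = 1 := rfl

theorem main_lam_inv (u : LL) : (lam u : HH r)⁻¹ = lam (-u) := by
  rw [inv_eq_iff_mul_eq_one, main_lam_mul, add_neg_cancel, main_lam_zero]

theorem main_tau_inv (a : ℤ) : (tau a : HH r)⁻¹ = tau (-a) := by
  rw [inv_eq_iff_mul_eq_one, main_tau_mul, add_neg_cancel, main_tau_zero]

theorem main_gens_finite : (gens r).Finite := by
  have h : gens r ⊆ ({tau 1, tau (-1)} : Set (HH r)) ∪ Set.range lam := by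
    rintro g (h | h | ⟨u, h⟩)
    · left; simp [h]
    · left; simp [h]
    · right; exact ⟨u, h.symm⟩
  exact (((Set.finite_singleton _).insert _).union (Set.finite_range _)).subset h

theorem main_gens_inv : ∀ g ∈ gens r, g⁻¹ ∈ gens r := by
  rintro g (h | h | ⟨u, h⟩)
  · right; left; rw [h, main_tau_inv]
  · left; rw [h, main_tau_inv, neg_neg]
  · right; right; exact ⟨-u, by rw [h, main_lam_inv]⟩

theorem main_lam_mem (u : LL) : (lam u : HH r) ∈ Subgroup.closure (gens r) :=
  Subgroup.subset_closure (Or.inr (Or.inr ⟨u, rfl⟩))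

theorem main_tau_mem (b : Bool) : (tau (if b then 1 else -1) : HH r) ∈
    Subgroup.closure (gens r) := by
  cases b
  · exact Subgroup.subset_closure (Or.inr (Or.inl rfl))
  · exact Subgroup.subset_closure (Or.inl rfl)

/-- reversing a step -/
def mainSigma : (LL × Bool × LL) ≃ (LL × Bool × LL) where
  toFun i := (-i.2.2, !i.2.1, -i.1)
  invFun i := (-i.2.2, !i.2.1, -i.1)
  left_inv := by rintro ⟨u, b, v⟩; simp
  right_inv := by rintro ⟨u, b, v⟩; simp

theorem main_stp_sigma (i : LL × Bool × LL) : stp r (mainSigma i) = (stp r i)⁻¹ := by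
  obtain ⟨u, b, v⟩ := i
  have h1 : stp r (mainSigma (u, b, v)) = lam (-v) * tau (if (!b) = true then 1 else -1) * lam (-u) :=
    rfl
  have h2 : stp r (u, b, v) = lam u * tau (if b = true then 1 else -1) * lam v := rfl
  rw [h1, h2, mul_inv_rev, mul_inv_rev, main_lam_inv, main_lam_inv, main_tau_inv, mul_assoc]
  cases b
  · rfl
  · rfl

/-- the group with parameters `r` and the speed of its switch-walk-switch random walk -/
theorem speed_HH (hr : ∀ s, Even (r s) ∧ 0 < r s) :
    ∃ (G : Type) (_ : Group G) (T : Finset G) (μ : G →₀ ℝ),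
      (∀ g ∈ T, g⁻¹ ∈ T) ∧ Subgroup.closure (T : Set G) = ⊤ ∧
      (∀ g, 0 ≤ μ g) ∧ (∀ g, μ g⁻¹ = μ g) ∧ (μ.sum fun _ p => p) = 1 ∧
      Subgroup.closure (μ.support : Set G) = ⊤ ∧
      ∀ n : ℕ, 1 ≤ n →
        speed (T : Set G) μ n ≤
          416000 * (Real.sqrt n + ∑ s ∈ Finset.range (n + 1), blk r s n) ∧
        ∀ s, blk r s n ≤ 320000000 * speed (T : Set G) μ n := by
  obtain ⟨G, hG, T, μ, h1, h2, h3, h4, h5, h6, h7⟩ := pack (gens r) main_gens_finite main_gens_inv
    (stp r)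
    (by
      intro i
      exact Subgroup.mul_mem _ (Subgroup.mul_mem _ (main_lam_mem _) (main_tau_mem _))
        (main_lam_mem _))
    mainSigma main_stp_sigma
    (by
      have ht1 : (tau 1 : HH r) ∈ Subgroup.closure (Set.range (stp r)) := by
        refine Subgroup.subset_closure ⟨(0, true, 0), ?_⟩
        simp [stp, main_lam_zero]
      have ht2 : (tau (-1) : HH r) ∈ Subgroup.closure (Set.range (stp r)) := by
        refine Subgroup.subset_closure ⟨(0, false, 0), ?_⟩
        simp [stp, main_lam_zero]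
      rintro g (h | h | ⟨u, h⟩)
      · rw [h]; exact ht1
      · rw [h]; exact ht2
      · have hu : (lam u * tau 1 : HH r) ∈ Subgroup.closure (Set.range (stp r)) := by
          refine Subgroup.subset_closure ⟨(u, true, 0), ?_⟩
          simp [stp, main_lam_zero]
        have h8 := Subgroup.mul_mem _ hu ht2
        rw [mul_assoc, main_tau_mul, add_neg_cancel, main_tau_zero, mul_one] at h8
        rw [h]; exact h8)
  refine ⟨G, hG, T, μ, h1, h2, h3, h4, h5, h6, ?_⟩
  intro n hn
  rw [h7]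
  exact ⟨upper_speed hr n hn, fun s => lower_blk hr s n hn⟩

/-- main theorem -/
theorem main_speed (ρ : ℝ → ℝ) (hmono : ∀ x y, 1 ≤ x → x ≤ y → ρ x ≤ ρ y)
    (hsub : ∀ x y, 1 ≤ x → 1 ≤ y → ρ (x + y) ≤ ρ x + ρ y) (hsqrt : ∀ x, 1 ≤ x → Real.sqrt x ≤ ρ x) :
    ∃ (G : Type) (_ : Group G) (S : Finset G) (μ : G →₀ ℝ),
      (∀ g ∈ S, g⁻¹ ∈ S) ∧ Subgroup.closure (S : Set G) = ⊤ ∧
      (∀ g, 0 ≤ μ g) ∧ (∀ g, μ g⁻¹ = μ g) ∧ (μ.sum fun _ p => p) = 1 ∧
      Subgroup.closure (μ.support : Set G) = ⊤ ∧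
      ∃ C : ℕ, 0 < C ∧ ∀ n : ℕ, 1 ≤ n →
        speed (S : Set G) μ n ≤ C * ρ n ∧ ρ n ≤ C * speed (S : Set G) μ n := by
  by_cases hnl : ∀ C : ℝ, ∃ x, 1 ≤ x ∧ C * ρ x < x
  · obtain ⟨r, C, hr, hC, hpar⟩ := param ρ hmono hsub hsqrt hnl
    obtain ⟨G, hG, T, μ, h1, h2, h3, h4, h5, h6, h7⟩ := speed_HH hr
    refine ⟨G, hG, T, μ, h1, h2, h3, h4, h5, h6, ⌈320000000 * C⌉₊, ?_, ?_⟩
    · exact Nat.ceil_pos.2 (by positivity)
    · intro n hn
      obtain ⟨hup, hlow⟩ := h7 n hn
      obtain ⟨hp1, s, hp2⟩ := hpar n hn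
      have hceil : 320000000 * C ≤ (⌈320000000 * C⌉₊ : ℝ) := Nat.le_ceil _
      have hn' : (1 : ℝ) ≤ n := by exact_mod_cast hn
      have hρ : 0 ≤ ρ n := (Real.sqrt_nonneg _).trans (hsqrt n hn')
      constructor
      · have h8 : 0 ≤ C * ρ n := by positivity
        calc speed (T : Set G) μ n ≤ 416000 * (C * ρ n) := hup.trans (by linarith)
          _ ≤ 320000000 * C * ρ n := by nlinarith
          _ ≤ _ := mul_le_mul_of_nonneg_right hceil hρ
      · have h9 := hlow s
        have h10 : 0 ≤ speed (T : Set G) μ n := by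
          have : 0 ≤ blk r s n := by unfold blk; positivity
          linarith
        calc ρ n ≤ C * (320000000 * speed (T : Set G) μ n) :=
              hp2.trans (mul_le_mul_of_nonneg_left h9 hC.le)
          _ = 320000000 * C * speed (T : Set G) μ n := by ring
          _ ≤ _ := mul_le_mul_of_nonneg_right hceil h10
  · push Not at hnl
    obtain ⟨C, hC⟩ := hnl
    obtain ⟨G, hG, T, μ, h1, h2, h3, h4, h5, h6, h7⟩ := linear_speed
    have hC' : ∀ n : ℕ, 1 ≤ n → (n : ℝ) ≤ C * ρ n := by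
      intro n hn
      exact hC n (by exact_mod_cast hn)
    have hlin : ∀ n : ℕ, 1 ≤ n → ρ n ≤ n * ρ 1 := by
      intro n hn
      induction n, hn using Nat.le_induction with
      | base => simp
      | succ n hn ih =>
        have := hsub n 1 (by exact_mod_cast hn) le_rfl
        push_cast
        linarith
    have hρ1 : 0 ≤ ρ 1 := (Real.sqrt_nonneg _).trans (hsqrt 1 le_rfl)
    refine ⟨G, hG, T, μ, h1, h2, h3, h4, h5, h6, ⌈|C| + 2 * ρ 1⌉₊ + 1, Nat.succ_pos _, ?_⟩
    intro n hn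
    have hceil : |C| + 2 * ρ 1 ≤ (⌈|C| + 2 * ρ 1⌉₊ : ℝ) := Nat.le_ceil _
    have habs := le_abs_self C
    have habs0 := abs_nonneg C
    have hn' : (1 : ℝ) ≤ n := by exact_mod_cast hn
    have hρ : 0 ≤ ρ n := (Real.sqrt_nonneg _).trans (hsqrt n hn')
    obtain ⟨h8, h9⟩ := h7 n
    push_cast
    constructor
    · calc speed (T : Set G) μ n ≤ n := h9
        _ ≤ C * ρ n := hC' n hn
        _ ≤ _ := mul_le_mul_of_nonneg_right (by linarith) hρ
    · have h10 : 0 ≤ speed (T : Set G) μ n := by linarith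
      calc ρ n ≤ n * ρ 1 := hlin n hn
        _ ≤ (2 * ρ 1) * speed (T : Set G) μ n := by nlinarith
        _ ≤ _ := mul_le_mul_of_nonneg_right (by linarith) h10

end Pool.Agent.TH595.SP
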