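import Pool.Agent.TH595.SP.Defs

set_option autoImplicit false

/-!
A path which clears the base configuration of an element of `HH r` and brings the cursor back to
the origin.
-/

namespace Pool.Agent.TH595.SP

open scoped BigOperators

theorem norm_step_base {r : ℕ → ℕ} (g : HH r) (d : ℤ) (u : LL) (j : ℤ) :
    (g * tau d * lam u).base j = g.base j + (if j = g.pos + d then u else 0) := by
  have h : (j - (g.pos + d) = 0) ↔ j = g.pos + d := sub_eq_zero
  simp [tau, lam, h]

theorem norm_step_pos {r : ℕ → ℕ} (g : HH r) (d : ℤ) (u : LL) :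
    (g * tau d * lam u).pos = g.pos + d := by
  simp [tau, lam]

theorem norm_ev_append {r : ℕ → ℕ} (l1 l2 : List (ℤ × LL)) (g : HH r) :
    ev g (l1 ++ l2) = ev (ev g l1) l2 := by
  induction l1 generalizing g with
  | nil => rfl
  | cons p l ih => exact ih _

theorem norm_inWin_append (a b : ℤ) (l1 l2 : List ℤ) (i : ℤ) (h1 : InWin a b i l1)
    (h2 : InWin a b (i + l1.sum) l2) : InWin a b i (l1 ++ l2) := by
  induction l1 generalizing i with
  | nil => simpa using h2
  | cons d l ih =>
      refine ⟨h1.1, ih (i + d) h1.2 ?_⟩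
      rw [List.sum_cons] at h2
      rwa [add_assoc]

theorem norm_ev_pos {r : ℕ → ℕ} (l : List (ℤ × LL)) (g : HH r) :
    (ev g l).pos = g.pos + (l.map Prod.fst).sum := by
  induction l generalizing g with
  | nil => simp [ev]
  | cons p l ih =>
      show (ev (g * tau p.1 * lam p.2) l).pos = _
      rw [ih, norm_step_pos, List.map_cons, List.sum_cons]
      ring

/-- left pass: only moves -/
def norm_left (m : ℕ) : List (ℤ × LL) := List.replicate m (-1, 0)

theorem norm_left_sum (m : ℕ) : ((norm_left m).map Prod.fst).sum = -(m : ℤ) := by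
  simp [norm_left]

theorem norm_left_base {r : ℕ → ℕ} (m : ℕ) (g : HH r) (j : ℤ) :
    (ev g (norm_left m)).base j = g.base j := by
  induction m generalizing g with
  | zero => rfl
  | succ m ih =>
      show (ev (g * tau (-1) * lam 0) (norm_left m)).base j = _
      rw [ih, norm_step_base]
      simp

theorem norm_left_win (a b : ℤ) (m : ℕ) (i : ℤ) (h1 : i ≤ b) (h2 : a ≤ i - m) :
    InWin a b i ((norm_left m).map Prod.fst) := by
  induction m generalizing i with
  | zero => exact ⟨by simpa using h2, h1⟩
  | succ m ih =>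
      show (a ≤ i ∧ i ≤ b) ∧ InWin a b (i + -1) ((norm_left m).map Prod.fst)
      push_cast at h2
      refine ⟨⟨by omega, h1⟩, ih _ (by omega) (by omega)⟩

theorem norm_left_unit (m : ℕ) : Unit1 ((norm_left m).map Prod.fst) := by
  intro d hd
  simp only [norm_left, List.map_replicate] at hd
  exact Or.inr (List.eq_of_mem_replicate hd)

/-- right pass: writes `c j` at `j` -/
def norm_right (c : ℤ → LL) : ℤ → ℕ → List (ℤ × LL)
  | _, 0 => []
  | i, m + 1 => (1, c (i + 1)) :: norm_right c (i + 1) m

theorem norm_right_length (c : ℤ → LL) (m : ℕ) (i : ℤ) : (norm_right c i m).length = m := by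
  induction m generalizing i with
  | zero => rfl
  | succ m ih => simp [norm_right, ih]

theorem norm_right_sum (c : ℤ → LL) (m : ℕ) (i : ℤ) :
    ((norm_right c i m).map Prod.fst).sum = (m : ℤ) := by
  induction m generalizing i with
  | zero => simp [norm_right]
  | succ m ih =>
      simp only [norm_right, List.map_cons, List.sum_cons, ih]
      push_cast
      ring

theorem norm_right_unit (c : ℤ → LL) (m : ℕ) (i : ℤ) :
    Unit1 ((norm_right c i m).map Prod.fst) := by
  induction m generalizing i with
  | zero => intro d hd; simp [norm_right] at hd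
  | succ m ih =>
      intro d hd
      simp only [norm_right, List.map_cons, List.mem_cons] at hd
      rcases hd with rfl | hd
      · exact Or.inl rfl
      · exact ih _ d hd

theorem norm_right_win (a b : ℤ) (c : ℤ → LL) (m : ℕ) (i : ℤ) (h1 : a ≤ i) (h2 : i + m ≤ b) :
    InWin a b i ((norm_right c i m).map Prod.fst) := by
  induction m generalizing i with
  | zero => exact ⟨h1, by simpa using h2⟩
  | succ m ih =>
      show (a ≤ i ∧ i ≤ b) ∧ InWin a b (i + 1) ((norm_right c (i + 1) m).map Prod.fst)
      push_cast at h2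
      refine ⟨⟨h1, by omega⟩, ih _ (by omega) (by omega)⟩

theorem norm_right_base {r : ℕ → ℕ} (c : ℤ → LL) (m : ℕ) (g : HH r) (j : ℤ) :
    (ev g (norm_right c g.pos m)).base j =
      g.base j + (if g.pos < j ∧ j ≤ g.pos + m then c j else 0) := by
  induction m generalizing g with
  | zero =>
      have : ¬ (g.pos < j ∧ j ≤ g.pos + ((0 : ℕ) : ℤ)) := by push_cast; omega
      rw [if_neg this]
      simp [norm_right, ev]
  | succ m ih =>
      show (ev (g * tau 1 * lam (c (g.pos + 1))) (norm_right c (g.pos + 1) m)).base j = _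
      have hp := norm_step_pos g 1 (c (g.pos + 1))
      have h := ih (g * tau 1 * lam (c (g.pos + 1)))
      rw [hp] at h
      rw [h, norm_step_base]
      push_cast
      by_cases h1 : j = g.pos + 1
      · subst h1
        rw [if_pos rfl, if_neg (by omega), if_pos (by omega), add_zero]
      · rw [if_neg h1, add_zero]
        by_cases h2 : g.pos + 1 < j ∧ j ≤ g.pos + 1 + m
        · rw [if_pos h2, if_pos (by omega)]
        · rw [if_neg h2, if_neg (by omega)]

theorem norm_path {r : ℕ → ℕ} (g : HH r) (R : ℤ) (hR : 0 ≤ R) (hpos : |g.pos| ≤ R)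
    (hb : ∀ j, j ∉ Finset.Icc (-R) R → g.base j = 0) :
    ∃ l : List (ℤ × LL), Unit1 (l.map Prod.fst) ∧ (l.length : ℤ) ≤ 6 * R + 6 ∧
      InWin (-(R + 1)) (R + 1) g.pos (l.map Prod.fst) ∧ (ev g l).pos = 0 ∧
      ∀ j, (ev g l).base j = 0 := by
  have hp := abs_le.1 hpos
  obtain ⟨m1, hm1⟩ : ∃ m1 : ℕ, (m1 : ℤ) = g.pos + (R + 1) :=
    ⟨(g.pos + (R + 1)).toNat, Int.toNat_of_nonneg (by omega)⟩
  obtain ⟨m2, hm2⟩ : ∃ m2 : ℕ, (m2 : ℤ) = 2 * R + 1 :=
    ⟨(2 * R + 1).toNat, Int.toNat_of_nonneg (by omega)⟩
  obtain ⟨m3, hm3⟩ : ∃ m3 : ℕ, (m3 : ℤ) = R := ⟨R.toNat, Int.toNat_of_nonneg hR⟩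
  set c : ℤ → LL := fun j => -(g.base j) with hc
  have s1 := norm_left_sum m1
  have s2 := norm_right_sum c m2 (-(R + 1))
  have s3 := norm_left_sum m3
  have p1 : (ev g (norm_left m1)).pos = -(R + 1) := by
    rw [norm_ev_pos, s1]; omega
  have p2 : (ev (ev g (norm_left m1)) (norm_right c (-(R + 1)) m2)).pos = R := by
    rw [norm_ev_pos, s2, p1]; omega
  refine ⟨norm_left m1 ++ (norm_right c (-(R + 1)) m2 ++ norm_left m3), ?_, ?_, ?_, ?_, ?_⟩
  · intro d hd
    simp only [List.map_append, List.mem_append] at hd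
    rcases hd with hd | hd | hd
    · exact norm_left_unit _ d hd
    · exact norm_right_unit _ _ _ d hd
    · exact norm_left_unit _ d hd
  · simp only [List.length_append, norm_right_length, norm_left, List.length_replicate]
    push_cast
    omega
  · rw [List.map_append, List.map_append]
    refine norm_inWin_append _ _ _ _ _ (norm_left_win _ _ _ _ (by omega) (by omega)) ?_
    rw [s1]
    have e1 : g.pos + -(m1 : ℤ) = -(R + 1) := by omega
    rw [e1]
    refine norm_inWin_append _ _ _ _ _ (norm_right_win _ _ _ _ _ (by omega) (by omega)) ?_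
    rw [s2]
    exact norm_left_win _ _ _ _ (by omega) (by omega)
  · rw [norm_ev_append, norm_ev_append, norm_ev_pos, p2, s3]
    omega
  · intro j
    rw [norm_ev_append, norm_ev_append, norm_left_base]
    have h := norm_right_base c m2 (ev g (norm_left m1)) j
    rw [p1] at h
    rw [h, norm_left_base]
    by_cases hj : -(R + 1) < j ∧ j ≤ -(R + 1) + m2
    · rw [if_pos hj, hc]
      simp
    · rw [if_neg hj, add_zero]
      apply hb
      rw [Finset.mem_Icc]
      omega

end Pool.Agent.TH595.SP
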