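import Pool.Agent.TH595.SP.Defs

set_option autoImplicit false

/-!
Sweeps which write prescribed words in one factor of `HH r`.
-/

namespace Pool.Agent.TH595.SP

open scoped BigOperators

theorem stage_ev_append {r : ℕ → ℕ} (g : HH r) (l1 l2 : List (ℤ × LL)) :
    ev g (l1 ++ l2) = ev (ev g l1) l2 := by
  induction l1 generalizing g with
  | nil => rfl
  | cons p l ih => exact ih _

theorem stage_inWin_append (a b i : ℤ) (l1 l2 : List ℤ) (h1 : InWin a b i l1)
    (h2 : InWin a b (i + l1.sum) l2) : InWin a b i (l1 ++ l2) := by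
  induction l1 generalizing i with
  | nil => simpa using h2
  | cons d l ih =>
    refine ⟨h1.1, ih _ h1.2 ?_⟩
    have : i + (d :: l).sum = i + d + l.sum := by simp [add_assoc]
    rwa [this] at h2

theorem stage_inWin_ones (b i : ℤ) (m : ℕ) (hi : 0 ≤ i) (h : i + m ≤ b) :
    InWin 0 b i (List.replicate m 1) := by
  induction m generalizing i with
  | zero => exact ⟨hi, by simpa using h⟩
  | succ m ih =>
    refine ⟨⟨hi, ?_⟩, ih (i + 1) (by omega) ?_⟩
    · push_cast at h; omega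
    · push_cast at h; omega

theorem stage_inWin_neg (b i : ℤ) (m : ℕ) (hi : (m : ℤ) ≤ i) (h : i ≤ b) :
    InWin 0 b i (List.replicate m (-1)) := by
  induction m generalizing i with
  | zero => exact ⟨by simpa using hi, h⟩
  | succ m ih =>
    push_cast at hi
    exact ⟨⟨by omega, h⟩, ih (i + -1) (by omega) (by omega)⟩

/-- right pass -/
def stage_R (s : ℕ) (a : ZMod (2 * 64 ^ s) → LA) (m : ℕ) : List (ℤ × LL) :=
  (List.range m).map fun j => ((1 : ℤ), (a (((j + 1 : ℕ)) : ZMod (2 * 64 ^ s)), (0 : LB)))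

/-- left pass -/
def stage_L (s : ℕ) (b : ZMod (2 * 64 ^ s) → LB) (m : ℕ) : List (ℤ × LL) :=
  (List.range m).map fun j => ((-1 : ℤ), ((0 : LA),
    b (((2 * 64 ^ s - 1 - j + 64 ^ s : ℤ)) : ZMod (2 * 64 ^ s))))

theorem stage_R_fst (s : ℕ) (a : ZMod (2 * 64 ^ s) → LA) (m : ℕ) :
    (stage_R s a m).map Prod.fst = List.replicate m 1 := by
  simp [stage_R, List.map_map, Function.comp_def, List.map_const']

theorem stage_L_fst (s : ℕ) (b : ZMod (2 * 64 ^ s) → LB) (m : ℕ) :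
    (stage_L s b m).map Prod.fst = List.replicate m (-1) := by
  simp [stage_L, List.map_map, Function.comp_def, List.map_const']

theorem stage_R_succ (s : ℕ) (a : ZMod (2 * 64 ^ s) → LA) (m : ℕ) :
    stage_R s a (m + 1) = stage_R s a m ++
      [((1 : ℤ), (a (((m + 1 : ℕ)) : ZMod (2 * 64 ^ s)), (0 : LB)))] := by
  simp [stage_R, List.range_succ]

theorem stage_L_succ (s : ℕ) (b : ZMod (2 * 64 ^ s) → LB) (m : ℕ) :
    stage_L s b (m + 1) = stage_L s b m ++
      [((-1 : ℤ), ((0 : LA), b (((2 * 64 ^ s - 1 - m + 64 ^ s : ℤ)) : ZMod (2 * 64 ^ s))))] := by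
  simp [stage_L, List.range_succ]

theorem stage_cast_inj {K x y : ℕ} (hxy : x < y) (hd : y - x < K)
    (h : (x : ZMod K) = (y : ZMod K)) : False := by
  rw [ZMod.natCast_eq_natCast_iff'] at h
  have h1 : (K : ℕ) ∣ y - x := (Nat.modEq_iff_dvd' hxy.le).1 h
  exact absurd (Nat.le_of_dvd (by omega) h1) (by omega)

open Classical in
theorem stage_R_state {r : ℕ → ℕ} (s : ℕ) (a : ZMod (2 * 64 ^ s) → LA) (g : HH r)
    (hg : g.pos = 0) (m : ℕ) (hm : m ≤ 2 * 64 ^ s) :
    (ev g (stage_R s a m)).pos = m ∧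
    (∀ j, (ev g (stage_R s a m)).base j = g.base j +
      if 1 ≤ j ∧ j ≤ m then (a ((j : ℤ) : ZMod (2 * 64 ^ s)), (0 : LB)) else 0) ∧
    ∀ y, (ev g (stage_R s a m)).F s y = g.F s y *
      if ∃ x : ℕ, 1 ≤ x ∧ x ≤ m ∧ (x : ZMod (2 * 64 ^ s)) = y then iA (a y) else 1 := by
  induction m with
  | zero =>
    refine ⟨by simpa [stage_R, ev] using hg, ?_, ?_⟩
    · intro j
      have : ¬ (1 ≤ j ∧ j ≤ ((0 : ℕ) : ℤ)) := by push_cast; omega
      rw [if_neg this]
      simp [stage_R, ev]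
    · intro y
      have : ¬ ∃ x : ℕ, 1 ≤ x ∧ x ≤ 0 ∧ (x : ZMod (2 * 64 ^ s)) = y := by
        rintro ⟨x, h1, h2, -⟩; omega
      rw [if_neg this]
      simp [stage_R, ev]
  | succ m ih =>
    obtain ⟨h1, h2, h3⟩ := ih (by omega)
    rw [stage_R_succ, stage_ev_append]
    simp only [ev]
    refine ⟨?_, ?_, ?_⟩
    · simp [lam, tau, h1]
    · intro j
      simp only [HH.mul_base, HH.mul_pos, h1, h2 j, lam, tau, add_zero]
      rcases lt_trichotomy j ((m : ℤ) + 1) with h | h | h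
      · have e1 : ¬ (j - ((m : ℤ) + 1) = 0) := by omega
        have e2 : (1 ≤ j ∧ j ≤ (m : ℤ)) ↔ (1 ≤ j ∧ j ≤ ((m + 1 : ℕ) : ℤ)) := by
          push_cast; omega
        simp only [e1, if_false, add_zero, e2]
      · have e2 : ¬ (1 ≤ j ∧ j ≤ (m : ℤ)) := by omega
        have e3 : (1 ≤ j ∧ j ≤ ((m + 1 : ℕ) : ℤ)) := by push_cast; omega
        rw [if_neg e2, if_pos e3, if_pos (by omega), h]
        push_cast
        simp
      · have e1 : ¬ (j - ((m : ℤ) + 1) = 0) := by omega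
        have e2 : ¬ (1 ≤ j ∧ j ≤ (m : ℤ)) := by omega
        have e3 : ¬ (1 ≤ j ∧ j ≤ ((m + 1 : ℕ) : ℤ)) := by push_cast; omega
        simp only [e1, e2, e3, if_false, add_zero]
    · intro y
      simp only [HH.mul_F, HH.mul_pos, h1, h3 y, lam, tau, mul_one, iB_zero, ite_self]
      by_cases hy : y - (((m : ℤ) + 1 : ℤ) : ZMod (2 * 64 ^ s)) = 0
      · have hy' : ((m + 1 : ℕ) : ZMod (2 * 64 ^ s)) = y := by
          push_cast at hy ⊢
          rw [sub_eq_zero] at hy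
          exact hy.symm
        have e1 : ¬ ∃ x : ℕ, 1 ≤ x ∧ x ≤ m ∧ (x : ZMod (2 * 64 ^ s)) = y := by
          rintro ⟨x, hx1, hx2, hx3⟩
          exact stage_cast_inj (K := 2 * 64 ^ s) (x := x) (y := m + 1) (by omega) (by omega)
            (hx3.trans hy'.symm)
        have e2 : ∃ x : ℕ, 1 ≤ x ∧ x ≤ m + 1 ∧ (x : ZMod (2 * 64 ^ s)) = y :=
          ⟨m + 1, by omega, le_rfl, hy'⟩
        rw [if_pos hy, if_neg e1, if_pos e2, hy', mul_one]
      · have e1 : (∃ x : ℕ, 1 ≤ x ∧ x ≤ m + 1 ∧ (x : ZMod (2 * 64 ^ s)) = y) ↔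
            ∃ x : ℕ, 1 ≤ x ∧ x ≤ m ∧ (x : ZMod (2 * 64 ^ s)) = y := by
          constructor
          · rintro ⟨x, hx1, hx2, hx3⟩
            refine ⟨x, hx1, ?_, hx3⟩
            by_contra hc
            have : x = m + 1 := by omega
            subst this
            apply hy
            rw [← hx3]
            push_cast
            ring
          · rintro ⟨x, hx1, hx2, hx3⟩
            exact ⟨x, hx1, by omega, hx3⟩
        rw [if_neg hy, mul_one]
        simp only [e1]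

open Classical in
theorem stage_L_state {r : ℕ → ℕ} (s : ℕ) (b : ZMod (2 * 64 ^ s) → LB) (g : HH r)
    (hg : g.pos = 2 * 64 ^ s) (m : ℕ) (hm : m ≤ 2 * 64 ^ s) :
    (ev g (stage_L s b m)).pos = 2 * 64 ^ s - m ∧
    (∀ j, (ev g (stage_L s b m)).base j = g.base j +
      if 2 * 64 ^ s - (m : ℤ) ≤ j ∧ j < 2 * 64 ^ s then
        ((0 : LA), b ((j + 64 ^ s : ℤ) : ZMod (2 * 64 ^ s))) else 0) ∧
    ∀ y, (ev g (stage_L s b m)).F s y = g.F s y *
      if ∃ x : ℕ, 2 * 64 ^ s ≤ x + m ∧ x < 2 * 64 ^ s ∧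
        ((x + 64 ^ s : ℕ) : ZMod (2 * 64 ^ s)) = y then iB (b y) else 1 := by
  induction m with
  | zero =>
    refine ⟨by simpa [stage_L, ev] using hg, ?_, ?_⟩
    · intro j
      have : ¬ (2 * 64 ^ s - ((0 : ℕ) : ℤ) ≤ j ∧ j < 2 * 64 ^ s) := by push_cast; omega
      rw [if_neg this]
      simp [stage_L, ev]
    · intro y
      have : ¬ ∃ x : ℕ, 2 * 64 ^ s ≤ x + 0 ∧ x < 2 * 64 ^ s ∧
          ((x + 64 ^ s : ℕ) : ZMod (2 * 64 ^ s)) = y := by
        rintro ⟨x, h1, h2, -⟩; omega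
      rw [if_neg this]
      simp [stage_L, ev]
  | succ m ih =>
    obtain ⟨h1, h2, h3⟩ := ih (by omega)
    rw [stage_L_succ, stage_ev_append]
    simp only [ev]
    obtain ⟨q, hq⟩ : ∃ q : ℤ, q = 2 * 64 ^ s - (m : ℤ) - 1 := ⟨_, rfl⟩
    have hpos : (2 * 64 ^ s - (m : ℤ)) + -1 = q := by rw [hq]; ring
    refine ⟨?_, ?_, ?_⟩
    · simp only [HH.mul_pos, h1, lam, tau, add_zero]
      push_cast
      ring
    · intro j
      simp only [HH.mul_base, HH.mul_pos, h1, h2 j, lam, tau, add_zero, hpos]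
      rcases lt_trichotomy j q with h | h | h
      · have e1 : ¬ (j - q = 0) := by omega
        have e2 : ¬ (2 * 64 ^ s - (m : ℤ) ≤ j ∧ j < 2 * 64 ^ s) := by omega
        have e3 : ¬ (2 * 64 ^ s - ((m + 1 : ℕ) : ℤ) ≤ j ∧ j < 2 * 64 ^ s) := by
          push_cast; omega
        rw [if_neg e2, if_neg e3, if_neg e1]
        simp
      · have e2 : ¬ (2 * 64 ^ s - (m : ℤ) ≤ j ∧ j < 2 * 64 ^ s) := by omega
        have e3 : (2 * 64 ^ s - ((m + 1 : ℕ) : ℤ) ≤ j ∧ j < 2 * 64 ^ s) := by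
          push_cast; omega
        have e4 : (2 * 64 ^ s - 1 - (m : ℤ) + 64 ^ s : ℤ) = j + 64 ^ s := by rw [h, hq]; ring
        rw [if_neg e2, if_pos e3, if_pos (by omega), e4]
        simp
      · have e1 : ¬ (j - q = 0) := by omega
        have e2 : (2 * 64 ^ s - (m : ℤ) ≤ j ∧ j < 2 * 64 ^ s) ↔
            (2 * 64 ^ s - ((m + 1 : ℕ) : ℤ) ≤ j ∧ j < 2 * 64 ^ s) := by
          push_cast; omega
        simp only [e2]
        rw [if_neg e1]
        simp
    · intro y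
      simp only [HH.mul_F, HH.mul_pos, h1, h3 y, lam, tau, mul_one, iA_zero, ite_self, hpos,
        one_mul]
      obtain ⟨t, ht⟩ : ∃ t : ℕ, (t : ℤ) = q := ⟨q.toNat, by
        rw [Int.toNat_of_nonneg]
        have : ((m + 1 : ℕ) : ℤ) ≤ ((2 * 64 ^ s : ℕ) : ℤ) := by exact_mod_cast hm
        push_cast at this
        omega⟩
      have htq : t + (m + 1) = 2 * 64 ^ s := by
        have : ((t + (m + 1) : ℕ) : ℤ) = ((2 * 64 ^ s : ℕ) : ℤ) := by
          push_cast; rw [ht, hq]; ring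
        exact_mod_cast this
      have e4 : (2 * 64 ^ s - 1 - (m : ℤ) + 64 ^ s : ℤ) = ((t + 64 ^ s : ℕ) : ℤ) := by
        push_cast; rw [ht, hq]; ring
      rw [e4, ← ht, Int.cast_natCast, Int.cast_natCast]
      by_cases hy : y - ((t : ℕ) : ZMod (2 * 64 ^ s)) = ((64 ^ s : ℕ) : ZMod (2 * 64 ^ s))
      · have hy' : ((t + 64 ^ s : ℕ) : ZMod (2 * 64 ^ s)) = y := by
          rw [sub_eq_iff_eq_add] at hy
          rw [hy]; push_cast; ring
        have e1 : ¬ ∃ x : ℕ, 2 * 64 ^ s ≤ x + m ∧ x < 2 * 64 ^ s ∧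
            ((x + 64 ^ s : ℕ) : ZMod (2 * 64 ^ s)) = y := by
          rintro ⟨x, hx1, hx2, hx3⟩
          refine stage_cast_inj (K := 2 * 64 ^ s) (x := t + 64 ^ s) (y := x + 64 ^ s)
            (by omega) (by omega) (hy'.trans hx3.symm)
        have e2 : ∃ x : ℕ, 2 * 64 ^ s ≤ x + (m + 1) ∧ x < 2 * 64 ^ s ∧
            ((x + 64 ^ s : ℕ) : ZMod (2 * 64 ^ s)) = y :=
          ⟨t, by omega, by omega, hy'⟩
        rw [if_pos hy, if_neg e1, if_pos e2, hy', mul_one]
      · have e1 : (∃ x : ℕ, 2 * 64 ^ s ≤ x + (m + 1) ∧ x < 2 * 64 ^ s ∧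
              ((x + 64 ^ s : ℕ) : ZMod (2 * 64 ^ s)) = y) ↔
            ∃ x : ℕ, 2 * 64 ^ s ≤ x + m ∧ x < 2 * 64 ^ s ∧
              ((x + 64 ^ s : ℕ) : ZMod (2 * 64 ^ s)) = y := by
          constructor
          · rintro ⟨x, hx1, hx2, hx3⟩
            refine ⟨x, ?_, hx2, hx3⟩
            by_contra hc
            have : x = t := by omega
            subst this
            apply hy
            rw [← hx3]
            push_cast
            ring
          · rintro ⟨x, hx1, hx2, hx3⟩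
            exact ⟨x, by omega, hx2, hx3⟩
        rw [if_neg hy, mul_one]
        simp only [e1]

/-- one round -/
def stage_round (s : ℕ) (p : (ZMod (2 * 64 ^ s) → LA) × (ZMod (2 * 64 ^ s) → LB)) :
    List (ℤ × LL) :=
  stage_R s p.1 (2 * 64 ^ s) ++ stage_L s p.2 (2 * 64 ^ s)

theorem stage_round_fst (s : ℕ) (p : (ZMod (2 * 64 ^ s) → LA) × (ZMod (2 * 64 ^ s) → LB)) :
    (stage_round s p).map Prod.fst =
      List.replicate (2 * 64 ^ s) (1 : ℤ) ++ List.replicate (2 * 64 ^ s) (-1 : ℤ) := by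
  rw [stage_round, List.map_append, stage_R_fst, stage_L_fst]

theorem stage_round_state {r : ℕ → ℕ} (s : ℕ)
    (p : (ZMod (2 * 64 ^ s) → LA) × (ZMod (2 * 64 ^ s) → LB)) (g : HH r) (hg : g.pos = 0) :
    (ev g (stage_round s p)).pos = 0 ∧
    (∀ j, (ev g (stage_round s p)).base j = g.base j +
      (if 1 ≤ j ∧ j ≤ 2 * 64 ^ s then (p.1 ((j : ℤ) : ZMod (2 * 64 ^ s)), (0 : LB)) else 0) +
      (if 0 ≤ j ∧ j < 2 * 64 ^ s then
        ((0 : LA), p.2 ((j + 64 ^ s : ℤ) : ZMod (2 * 64 ^ s))) else 0)) ∧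
    ∀ y, (ev g (stage_round s p)).F s y = g.F s y * (iA (p.1 y) * iB (p.2 y)) := by
  classical
  have hk : 0 < 64 ^ s := by positivity
  have : NeZero (2 * 64 ^ s) := ⟨by positivity⟩
  obtain ⟨h1, h2, h3⟩ := stage_R_state s p.1 g hg (2 * 64 ^ s) le_rfl
  have h1' : (ev g (stage_R s p.1 (2 * 64 ^ s))).pos = 2 * 64 ^ s := by
    rw [h1]; push_cast; ring
  obtain ⟨k1, k2, k3⟩ := stage_L_state s p.2 _ h1' (2 * 64 ^ s) le_rfl
  rw [stage_round, stage_ev_append]
  refine ⟨?_, ?_, ?_⟩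
  · rw [k1]; push_cast; ring
  · intro j
    rw [k2, h2]
    push_cast
    simp only [sub_self]
  · intro y
    have e1 : ∃ x : ℕ, 1 ≤ x ∧ x ≤ 2 * 64 ^ s ∧ (x : ZMod (2 * 64 ^ s)) = y := by
      by_cases hy : y.val = 0
      · refine ⟨2 * 64 ^ s, by omega, le_rfl, ?_⟩
        rw [ZMod.natCast_self, ← ZMod.natCast_zmod_val y, hy, Nat.cast_zero]
      · exact ⟨y.val, by omega, (ZMod.val_lt y).le, ZMod.natCast_zmod_val y⟩
    have e2 : ∃ x : ℕ, 2 * 64 ^ s ≤ x + 2 * 64 ^ s ∧ x < 2 * 64 ^ s ∧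
        ((x + 64 ^ s : ℕ) : ZMod (2 * 64 ^ s)) = y := by
      refine ⟨(y - ((64 ^ s : ℕ) : ZMod (2 * 64 ^ s))).val, by omega, ZMod.val_lt _, ?_⟩
      rw [Nat.cast_add, ZMod.natCast_zmod_val]
      ring
    rw [k3, h3, if_pos e1, if_pos e2, mul_assoc]

theorem stage_aux {r : ℕ → ℕ} (s : ℕ)
    (W : List ((ZMod (2 * 64 ^ s) → LA) × (ZMod (2 * 64 ^ s) → LB)))
    (g : HH r) (hg : g.pos = 0) :
    ∃ l : List (ℤ × LL), Unit1 (l.map Prod.fst) ∧ l.length = 4 * 64 ^ s * W.length ∧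
      (l.map Prod.fst).sum = 0 ∧
      InWin 0 (2 * 64 ^ s) 0 (l.map Prod.fst) ∧ (ev g l).pos = 0 ∧
      (∀ j, (ev g l).base j = g.base j +
        (if 1 ≤ j ∧ j ≤ 2 * 64 ^ s then
          ((W.map fun p => p.1 ((j : ℤ) : ZMod (2 * 64 ^ s))).sum, (0 : LB)) else 0) +
        (if 0 ≤ j ∧ j < 2 * 64 ^ s then
          ((0 : LA), (W.map fun p => p.2 ((j + 64 ^ s : ℤ) : ZMod (2 * 64 ^ s))).sum) else 0)) ∧
      ∀ y, (ev g l).F s y = g.F s y * (W.map fun p => iA (p.1 y) * iB (p.2 y)).prod := by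
  induction W generalizing g with
  | nil =>
    refine ⟨[], ?_, by simp, by simp, ?_, hg, ?_, ?_⟩
    · intro d hd; simp at hd
    · exact ⟨le_rfl, by positivity⟩
    · intro j
      have e : ((0 : LA), (0 : LB)) = (0 : LL) := rfl
      simp [ev, e]
    · intro y; simp [ev]
  | cons p W ih =>
    obtain ⟨h1, h2, h3⟩ := stage_round_state s p g hg
    obtain ⟨l, l1, l2, l3, l4, l5, l6, l7⟩ := ih _ h1
    refine ⟨stage_round s p ++ l, ?_, ?_, ?_, ?_, ?_, ?_, ?_⟩
    · rw [List.map_append, stage_round_fst]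
      intro d hd
      rw [List.mem_append, List.mem_append] at hd
      rcases hd with (hd | hd) | hd
      · left; exact List.eq_of_mem_replicate hd
      · right; exact List.eq_of_mem_replicate hd
      · exact l1 d hd
    · rw [List.length_append, l2, List.length_cons]
      have : (stage_round s p).length = 4 * 64 ^ s := by
        simp [stage_round, stage_R, stage_L]; ring
      rw [this]; ring
    · rw [List.map_append, stage_round_fst, List.sum_append, l3, List.sum_append]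
      simp
    · rw [List.map_append, stage_round_fst]
      refine stage_inWin_append _ _ _ _ _ (stage_inWin_append _ _ _ _ _ ?_ ?_) ?_
      · exact stage_inWin_ones _ _ _ le_rfl (by push_cast; omega)
      · refine stage_inWin_neg _ _ _ ?_ ?_
        · simp
        · simp
      · simpa using l4
    · rw [stage_ev_append]; exact l5
    · intro j
      rw [stage_ev_append, l6, h2]
      by_cases e1 : 1 ≤ j ∧ j ≤ 2 * 64 ^ s <;> by_cases e2 : 0 ≤ j ∧ j < 2 * 64 ^ s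
      · simp only [if_pos e1, if_pos e2, List.map_cons, List.sum_cons]
        ext <;> simp <;> ring
      · simp only [if_pos e1, if_neg e2, List.map_cons, List.sum_cons]
        ext <;> simp <;> ring
      · simp only [if_neg e1, if_pos e2, List.map_cons, List.sum_cons]
        ext <;> simp <;> ring
      · simp only [if_neg e1, if_neg e2]
        ext <;> simp
    · intro y
      rw [stage_ev_append, l7, h3, List.map_cons, List.prod_cons]
      simp only [mul_assoc]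

theorem stage_path {r : ℕ → ℕ} (s : ℕ)
    (W : List ((ZMod (2 * 64 ^ s) → LA) × (ZMod (2 * 64 ^ s) → LB)))
    (hA : ∀ y, (W.map fun p => p.1 y).sum = 0) (hB : ∀ y, (W.map fun p => p.2 y).sum = 0)
    (g : HH r) (hg : g.pos = 0) :
    ∃ l : List (ℤ × LL), Unit1 (l.map Prod.fst) ∧ l.length = 4 * 64 ^ s * W.length ∧
      InWin 0 (2 * 64 ^ s) 0 (l.map Prod.fst) ∧ (ev g l).pos = 0 ∧ (ev g l).base = g.base ∧
      ∀ y, (ev g l).F s y = g.F s y * (W.map fun p => iA (p.1 y) * iB (p.2 y)).prod := by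
  obtain ⟨l, l1, l2, -, l4, l5, l6, l7⟩ := stage_aux s W g hg
  refine ⟨l, l1, l2, l4, l5, ?_, l7⟩
  funext j
  have e : ((0 : LA), (0 : LB)) = (0 : LL) := rfl
  rw [l6 j, hA, hB, e]
  simp

end Pool.Agent.TH595.SP
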