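import Pool.Agent.TH595.SP.Defs

set_option autoImplicit false

namespace Pool.Agent.TH595.SP

open scoped BigOperators

/-- the abelianization of the dihedral group -/
def tot_chi {r : ℕ} (c : ZMod r →+* ZMod 2) : DihedralGroup r → ZMod 2 × ZMod 2
  | .r i => (c i, c i)
  | .sr j => (c j, c j + 1)

lemma tot_chi_mul {r : ℕ} (c : ZMod r →+* ZMod 2) (a b : DihedralGroup r) :
    tot_chi c (a * b) = tot_chi c a + tot_chi c b := by
  have h2 : ∀ x y : ZMod 2, x - y = x + y := by decide
  have h3 : ∀ x y : ZMod 2, y + 1 + (x + 1) = y + x := by decide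
  rcases a with i | i <;> rcases b with j | j
  · rw [DihedralGroup.r_mul_r]
    simp [tot_chi]
  · rw [DihedralGroup.r_mul_sr]
    simp only [tot_chi, map_sub, h2, Prod.mk_add_mk]
    refine Prod.ext (add_comm _ _) ?_
    simp only
    ring
  · rw [DihedralGroup.sr_mul_r]
    simp only [tot_chi, map_add, Prod.mk_add_mk]
    refine Prod.ext rfl ?_
    simp only
    ring
  · rw [DihedralGroup.sr_mul_sr]
    simp only [tot_chi, map_sub, h2, Prod.mk_add_mk]
    refine Prod.ext (add_comm _ _) ?_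
    simp only [h3]
    ring

lemma tot_chi_A {r : ℕ} (c : ZMod r →+* ZMod 2) (a : ZMod 2) :
    tot_chi c (dzo (-1) a) = (a, 0) := by
  have h01 : ∀ a : ZMod 2, a = 0 ∨ a = 1 := by decide
  rcases h01 a with rfl | rfl
  · rw [dzo_zero, DihedralGroup.one_def]
    simp [tot_chi]
  · have h10 : ¬ ((1 : ZMod 2) = 0) := by decide
    simp only [dzo, h10, if_false, tot_chi, map_neg, map_one]
    decide

lemma tot_chi_B {r : ℕ} (c : ZMod r →+* ZMod 2) (a : ZMod 2) :
    tot_chi c (dzo 0 a) = (0, a) := by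
  have h01 : ∀ a : ZMod 2, a = 0 ∨ a = 1 := by decide
  rcases h01 a with rfl | rfl
  · rw [dzo_zero, DihedralGroup.one_def]
    simp [tot_chi]
  · have h10 : ¬ ((1 : ZMod 2) = 0) := by decide
    simp only [dzo, h10, if_false, tot_chi, map_zero, zero_add]

theorem exists_tot {r : ℕ} [NeZero r] (hr : Even r) : ∃ p : Gam r → LL,
    (∀ g h, p (g * h) = p g + p h) ∧ (∀ a, p (iA a) = (a, 0)) ∧ (∀ b, p (iB b) = (0, b)) := by
  have hd : 2 ∣ r := hr.two_dvd
  let c : ZMod r →+* ZMod 2 := ZMod.castHom hd (ZMod 2)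
  refine ⟨fun g => (fun i => (tot_chi c (g.q i)).1,
    (fun i => (tot_chi c (g.q i)).2, ∑ x : TX r, g.lamp x)), ?_, ?_, ?_⟩
  · intro g h
    refine Prod.ext ?_ (Prod.ext ?_ ?_)
    · funext i
      simp [tot_chi_mul]
    · funext i
      simp [tot_chi_mul]
    · simp only [Gam.mul_lamp, Prod.snd_add, Finset.sum_add_distrib]
      congr 1
      exact Fintype.sum_bijective (qact g.q⁻¹) (Function.bijective_iff_has_inverse.2
        ⟨qact g.q, fun x => qact_qact_inv g.q x, fun x => qact_inv_qact g.q x⟩) _ _ fun x => rfl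
  · intro a
    refine Prod.ext ?_ (Prod.ext ?_ ?_)
    · funext i
      simp [iA, tot_chi_A]
    · funext i
      simp [iA, tot_chi_A]
    · simp [iA]
  · intro b
    refine Prod.ext ?_ (Prod.ext ?_ ?_)
    · funext i
      simp [iB, tot_chi_B]
    · funext i
      simp [iB, tot_chi_B]
    · simp [iB]

end Pool.Agent.TH595.SP
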