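import Pool.Agent.TH595.SP.Defs

set_option autoImplicit false

/-!
Letter totals along a path.
-/

namespace Pool.Agent.TH595.SP

open scoped BigOperators

variable {r : ℕ → ℕ}

theorem totev_p_one {m : ℕ} (p : Gam m → LL) (hp : ∀ g h, p (g * h) = p g + p h) :
    p 1 = 0 := by
  have h := hp 1 1
  rw [mul_one] at h
  exact left_eq_add.1 h

theorem totev_sum {M : Type*} [AddCommMonoid M] (a b q : ℤ) (h1 : a ≤ q) (h2 : q ≤ b)
    (P : ℤ → Prop) [DecidablePred P] (f : ℤ → M) (m : M) :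
    ∑ j ∈ Finset.Icc a b, (if P j then f j + (if j = q then m else 0) else 0) =
      ∑ j ∈ Finset.Icc a b, (if P j then f j else 0) + (if P q then m else 0) := by
  have e : ∀ j ∈ Finset.Icc a b, (if P j then f j + (if j = q then m else 0) else 0) =
      (if P j then f j else 0) + (if j = q then (if P q then m else 0) else 0) := by
    intro j _
    by_cases hj : j = q
    · subst hj
      by_cases hP : P j
      · simp [hP]
      · simp [hP]
    · by_cases hP : P j
      · simp [hP, hj]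
      · simp [hP, hj]
  rw [Finset.sum_congr rfl e, Finset.sum_add_distrib, Finset.sum_ite_eq',
    if_pos (Finset.mem_Icc.2 ⟨h1, h2⟩)]

theorem totev_step (a b : ℤ) (s : ℕ) (p : Gam (r s) → LL) (hp : ∀ g h, p (g * h) = p g + p h)
    (hA : ∀ x, p (iA x) = (x, 0)) (hB : ∀ x, p (iB x) = (0, x)) (g : HH r) (d : ℤ) (u : LL)
    (h1 : a ≤ g.pos + d) (h2 : g.pos + d ≤ b) (h : TotW a b s p g) :
    TotW a b s p (g * tau d * lam u) := by
  intro x
  have hp1 := totev_p_one p hp
  have eF : (g * tau d * lam u).F s x = g.F s x *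
      ((if ((g.pos + d : ℤ) : ZMod (2 * 64 ^ s)) = x then iA u.1 else 1) *
       (if ((g.pos + d + 64 ^ s : ℤ) : ZMod (2 * 64 ^ s)) = x then iB u.2 else 1)) := by
    rw [HH.mul_F, HH.mul_F]
    have e1 : (tau d : HH r).F s (x - (g.pos : ZMod (2 * 64 ^ s))) = 1 := rfl
    rw [e1, mul_one]
    congr 1
    have e2 : (g * tau d : HH r).pos = g.pos + d := rfl
    rw [e2]
    change (if x - ((g.pos + d : ℤ) : ZMod (2 * 64 ^ s)) = 0 then iA u.1 else 1) *
      (if x - ((g.pos + d : ℤ) : ZMod (2 * 64 ^ s)) = ((64 ^ s : ℕ) : ZMod (2 * 64 ^ s))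
        then iB u.2 else 1) = _
    have c1 : (x - ((g.pos + d : ℤ) : ZMod (2 * 64 ^ s)) = 0) ↔
        (((g.pos + d : ℤ) : ZMod (2 * 64 ^ s)) = x) := by
      rw [sub_eq_zero]; exact eq_comm
    have c2 : (x - ((g.pos + d : ℤ) : ZMod (2 * 64 ^ s)) = ((64 ^ s : ℕ) : ZMod (2 * 64 ^ s))) ↔
        (((g.pos + d + 64 ^ s : ℤ) : ZMod (2 * 64 ^ s)) = x) := by
      rw [sub_eq_iff_eq_add]
      push_cast
      rw [add_comm ((64 : ZMod (2 * 64 ^ s)) ^ s)]
      exact eq_comm
    simp only [c1, c2]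
  have eb : ∀ j, (g * tau d * lam u).base j = g.base j + (if j = g.pos + d then u else 0) := by
    intro j
    rw [HH.mul_base, HH.mul_base]
    have e2 : (g * tau d : HH r).pos = g.pos + d := rfl
    rw [e2]
    change g.base j + 0 + (if j - (g.pos + d) = 0 then u else 0) = _
    rw [add_zero]
    simp only [sub_eq_zero]
  rw [eF, hp, hp, h x]
  have s1 : ∑ j ∈ Finset.Icc a b, (if ((j : ℤ) : ZMod (2 * 64 ^ s)) = x then
      ((g * tau d * lam u).base j).1 else 0) =
      ∑ j ∈ Finset.Icc a b, (if ((j : ℤ) : ZMod (2 * 64 ^ s)) = x then (g.base j).1 else 0) +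
      (if ((g.pos + d : ℤ) : ZMod (2 * 64 ^ s)) = x then u.1 else 0) := by
    rw [← totev_sum a b (g.pos + d) h1 h2]
    refine Finset.sum_congr rfl fun j _ => ?_
    rw [eb j, Prod.fst_add]
    congr 2
    split_ifs <;> rfl
  have s2 : ∑ j ∈ Finset.Icc a b, (if ((j + 64 ^ s : ℤ) : ZMod (2 * 64 ^ s)) = x then
      ((g * tau d * lam u).base j).2 else 0) =
      ∑ j ∈ Finset.Icc a b, (if ((j + 64 ^ s : ℤ) : ZMod (2 * 64 ^ s)) = x then (g.base j).2 else 0) +
      (if ((g.pos + d + 64 ^ s : ℤ) : ZMod (2 * 64 ^ s)) = x then u.2 else 0) := by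
    rw [← totev_sum a b (g.pos + d) h1 h2
      (fun j => ((j + 64 ^ s : ℤ) : ZMod (2 * 64 ^ s)) = x)]
    refine Finset.sum_congr rfl fun j _ => ?_
    rw [eb j, Prod.snd_add]
    congr 2
    split_ifs <;> rfl
  rw [s1, s2]
  have t1 : p (if ((g.pos + d : ℤ) : ZMod (2 * 64 ^ s)) = x then iA u.1 else 1) =
      ((if ((g.pos + d : ℤ) : ZMod (2 * 64 ^ s)) = x then u.1 else 0), 0) := by
    split_ifs
    · exact hA _
    · exact hp1
  have t2 : p (if ((g.pos + d + 64 ^ s : ℤ) : ZMod (2 * 64 ^ s)) = x then iB u.2 else 1) =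
      (0, (if ((g.pos + d + 64 ^ s : ℤ) : ZMod (2 * 64 ^ s)) = x then u.2 else 0)) := by
    split_ifs
    · exact hB _
    · exact hp1
  rw [t1, t2]
  simp only [Prod.mk_add_mk, add_zero, zero_add]

theorem totev_head {a b i : ℤ} {l : List ℤ} (h : InWin a b i l) : a ≤ i ∧ i ≤ b := by
  cases l with
  | nil => exact h
  | cons d l => exact h.1

theorem totW_ev (a b : ℤ) (s : ℕ) (p : Gam (r s) → LL) (hp : ∀ g h, p (g * h) = p g + p h)
    (hA : ∀ x, p (iA x) = (x, 0)) (hB : ∀ x, p (iB x) = (0, x)) (g : HH r) (l : List (ℤ × LL))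
    (hw : InWin a b g.pos (l.map Prod.fst)) (h : TotW a b s p g) : TotW a b s p (ev g l) := by
  induction l generalizing g with
  | nil => exact h
  | cons q l ih =>
    have hw2 : InWin a b (g.pos + q.1) (l.map Prod.fst) := hw.2
    have hh := totev_head hw2
    have hpos : (g * tau q.1 * lam q.2 : HH r).pos = g.pos + q.1 := by
      show g.pos + q.1 + 0 = g.pos + q.1
      rw [add_zero]
    exact ih (g * tau q.1 * lam q.2) (by rw [hpos]; exact hw2)
      (totev_step a b s p hp hA hB g q.1 q.2 hh.1 hh.2 h)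

theorem totW_lam (a b : ℤ) (s : ℕ) (p : Gam (r s) → LL) (hp : ∀ g h, p (g * h) = p g + p h)
    (hA : ∀ x, p (iA x) = (x, 0)) (hB : ∀ x, p (iB x) = (0, x)) (ha : a ≤ 0) (hb : 0 ≤ b) (u : LL) :
    TotW a b s p (lam u : HH r) := by
  have h1 : TotW a b s p (1 : HH r) := by
    intro x
    rw [HH.one_F, totev_p_one p hp]
    simp
    rfl
  have h2 := totev_step a b s p hp hA hB (1 : HH r) 0 u (by simpa using ha) (by simpa using hb) h1
  have e : (tau 0 : HH r) = 1 := HH.hext (fun _ => rfl) (fun _ _ => rfl) rfl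
  rw [e, one_mul, one_mul] at h2
  exact h2

theorem tot_zero_of_totW (a b : ℤ) (s : ℕ) (p : Gam (r s) → LL) (g : HH r) (h : TotW a b s p g)
    (h0 : ∀ j, g.base j = 0) (x : ZMod (2 * 64 ^ s)) : p (g.F s x) = 0 := by
  rw [h x]
  simp [h0]

theorem tot_wprod {r0 : ℕ} (p : Gam r0 → LL) (hp : ∀ g h, p (g * h) = p g + p h)
    (hA : ∀ x, p (iA x) = (x, 0)) (hB : ∀ x, p (iB x) = (0, x)) (w : List LL) :
    p (wprod w) = w.sum := by
  induction w with
  | nil => exact totev_p_one p hp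
  | cons u w ih =>
    have e : (wprod (u :: w) : Gam r0) = iA u.1 * iB u.2 * wprod w := by
      unfold wprod
      rw [List.map_cons, List.prod_cons]
    rw [e, hp, hp, hA, hB, ih, List.sum_cons]
    congr 1
    simp

end Pool.Agent.TH595.SP
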