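import Pool.Agent.TH595.SP.Defs

set_option autoImplicit false

/-!
Word length bounds in `HH r`.
-/

namespace Pool.Agent.TH595.SP

open scoped BigOperators

variable {r : ℕ → ℕ}

theorem wlenx_ne (s : ℕ) : ((64 ^ s : ℕ) : ZMod (2 * 64 ^ s)) ≠ 0 := by
  intro h
  rw [ZMod.natCast_eq_zero_iff] at h
  have h1 : 0 < 64 ^ s := by positivity
  have := Nat.le_of_dvd h1 h
  omega

theorem wlenx_lam_mul (u v : LL) : (lam u * lam v : HH r) = lam (u + v) := by
  refine HH.hext ?_ ?_ ?_
  · intro j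
    simp only [lam, HH.mul_base, sub_zero]
    split_ifs <;> simp
  · intro s x
    simp only [lam, HH.mul_F, Int.cast_zero, sub_zero]
    by_cases h0 : x = 0
    · have h1 : x ≠ ((64 ^ s : ℕ) : ZMod (2 * 64 ^ s)) := by
        rw [h0]; exact (wlenx_ne s).symm
      rw [if_pos h0, if_neg h1, if_pos h0, if_neg h1, if_pos h0, if_neg h1]
      simp [iA_add]
    · rw [if_neg h0, if_neg h0, if_neg h0]
      by_cases h1 : x = ((64 ^ s : ℕ) : ZMod (2 * 64 ^ s))
      · rw [if_pos h1, if_pos h1, if_pos h1]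
        simp [iB_add]
      · rw [if_neg h1, if_neg h1, if_neg h1]
        simp
  · simp [lam]

theorem wlenx_lam_inv (u : LL) : (lam u : HH r)⁻¹ = lam (-u) := by
  have h0 : (lam 0 : HH r) = 1 := by
    have h := wlenx_lam_mul (r := r) 0 0
    rw [add_zero] at h
    exact mul_eq_left.1 h
  rw [inv_eq_iff_mul_eq_one, wlenx_lam_mul, add_neg_cancel, h0]

theorem wlenx_tau_inv (a : ℤ) : (tau a : HH r)⁻¹ = tau (-a) := by
  rw [inv_eq_iff_mul_eq_one]
  refine HH.hext ?_ ?_ ?_
  · intro j; simp [tau]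
  · intro s x; simp [tau]
  · simp [tau]

theorem wlenx_gens_inv : ∀ g ∈ gens r, g⁻¹ ∈ gens r := by
  rintro g (h | h | ⟨u, h⟩)
  · right; left; rw [h, wlenx_tau_inv]
  · left; rw [h, wlenx_tau_inv, neg_neg]
  · right; right; exact ⟨-u, by rw [h, wlenx_lam_inv]⟩

theorem wlenx_le {G : Type*} [Group G] (S : Set G) (g : G) (l : List G) (hl : ∀ x ∈ l, x ∈ S)
    (hp : l.prod = g) : wlen S g ≤ l.length :=
  Nat.sInf_le ⟨l, rfl, hl, hp⟩

theorem wlenx_attained (g : HH r) (hg : g ∈ Subgroup.closure (gens r)) :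
    ∃ l : List (HH r), l.length = wlen (gens r) g ∧ (∀ x ∈ l, x ∈ gens r) ∧ l.prod = g := by
  have hne : {n | ∃ l : List (HH r), l.length = n ∧ (∀ x ∈ l, x ∈ gens r) ∧ l.prod = g}.Nonempty := by
    have hg' : g ∈ Submonoid.closure (gens r ∪ (gens r)⁻¹) := by
      rw [← Subgroup.closure_toSubmonoid]; exact hg
    obtain ⟨l, hl, hp⟩ := Submonoid.exists_list_of_mem_closure hg'
    refine ⟨l.length, l, rfl, ?_, hp⟩
    intro x hx
    rcases hl x hx with h | h
    · exact h
    · have := wlenx_gens_inv _ h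
      rwa [inv_inv] at this
  exact Nat.sInf_mem hne

theorem wlenx_ev (l : List (ℤ × LL)) (hu : Unit1 (l.map Prod.fst)) : ∀ g : HH r,
    ∃ m : List (HH r), m.length = 2 * l.length ∧ (∀ x ∈ m, x ∈ gens r) ∧ g * m.prod = ev g l := by
  induction l with
  | nil => intro g; exact ⟨[], rfl, by simp, by simp [ev]⟩
  | cons p l ih =>
    intro g
    obtain ⟨m, h1, h2, h3⟩ := ih (fun x hx => hu x (by simp only [List.map_cons]; exact List.mem_cons_of_mem _ hx))
      (g * tau p.1 * lam p.2)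
    refine ⟨tau p.1 :: lam p.2 :: m, ?_, ?_, ?_⟩
    · simp [h1]; ring
    · intro x hx
      rcases List.mem_cons.1 hx with h | hx
      · rcases hu p.1 (by simp) with h' | h'
        · left; rw [h, h']
        · right; left; rw [h, h']
      · rcases List.mem_cons.1 hx with h | hx
        · right; right; exact ⟨p.2, h⟩
        · exact h2 x hx
    · rw [ev, ← h3]
      simp [mul_assoc]

theorem wlen_le_of_ev (g : HH r) (l : List (ℤ × LL)) (hu : Unit1 (l.map Prod.fst))
    (h : ev g l = 1) : wlen (gens r) g ≤ 2 * l.length := by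
  obtain ⟨m, h1, h2, h3⟩ := wlenx_ev l hu g
  rw [h] at h3
  have h4 : (m.map (·⁻¹)).reverse.prod = g := by
    rw [← List.prod_inv_reverse]
    exact (eq_inv_of_mul_eq_one_left h3).symm
  have := wlenx_le (gens r) g (m.map (·⁻¹)).reverse (by
    intro x hx
    rw [List.mem_reverse, List.mem_map] at hx
    obtain ⟨y, hy, rfl⟩ := hx
    exact wlenx_gens_inv _ (h2 y hy)) h4
  rw [List.length_reverse, List.length_map, h1] at this
  exact this

theorem abs_pos_le_wlen (g : HH r) (hg : g ∈ Subgroup.closure (gens r)) :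
    |g.pos| ≤ (wlen (gens r) g : ℤ) := by
  obtain ⟨l, h1, h2, h3⟩ := wlenx_attained g hg
  rw [← h1, ← h3]
  clear h1 h3 hg g
  induction l with
  | nil => simp
  | cons x l ih =>
    have ih' := ih (fun y hy => h2 y (List.mem_cons_of_mem _ hy))
    have hx : |x.pos| ≤ 1 := by
      rcases h2 x List.mem_cons_self with h | h | ⟨u, h⟩
      · rw [h]; simp [tau]
      · rw [h]; simp [tau]
      · rw [h]; simp [lam]
    rw [List.prod_cons, HH.mul_pos, List.length_cons]
    push_cast
    have := abs_add_le x.pos l.prod.pos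
    linarith

theorem wlenx_psi_A {r0 : ℕ} (g : Gam r0) (a : LA) : psi (g * iA a) = psi g := by
  unfold psi
  congr 2
  ext x
  simp [iA]

theorem wlenx_psi_B {r0 : ℕ} [NeZero r0] (g : Gam r0) (b : LB) : psi (g * iB b) ≤ psi g + 1 := by
  unfold psi
  have hsub : ({x | (g * iB b).lamp x ≠ 0} : Set (TX r0)) ⊆
      {x | g.lamp x ≠ 0} ∪ {qact g.q 0} := by
    intro x hx
    simp only [Set.mem_ofPred_eq, Gam.mul_lamp, iB] at hx
    by_cases h0 : qact g.q⁻¹ x = 0
    · right
      rw [Set.mem_singleton_iff, ← h0, qact_qact_inv]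
    · left
      rw [if_neg h0, add_zero] at hx
      exact hx
  have h1 := Set.ncard_le_ncard hsub (Set.toFinite _)
  have h2 := Set.ncard_union_le ({x | g.lamp x ≠ 0} : Set (TX r0)) {qact g.q 0}
  rw [Set.ncard_singleton] at h2
  exact_mod_cast h1.trans h2

theorem wlenx_psi_one {r0 : ℕ} : psi (1 : Gam r0) = 0 := by
  unfold psi
  simp

theorem wlenx_step [∀ s, NeZero (r s)] (s : ℕ) (g x : HH r) (hx : x ∈ gens r) :
    ∑ y : ZMod (2 * 64 ^ s), psi ((g * x).F s y) ≤ ∑ y : ZMod (2 * 64 ^ s), psi (g.F s y) + 1 := by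
  rcases hx with h | h | ⟨u, h⟩
  · rw [h]
    have : ∀ y, (g * tau 1).F s y = g.F s y := by intro y; simp [tau]
    simp only [this]
    linarith
  · rw [h]
    have : ∀ y, (g * tau (-1)).F s y = g.F s y := by intro y; simp [tau]
    simp only [this]
    linarith
  · rw [h]
    have h1 : ∀ y, psi ((g * lam u).F s y) ≤ psi (g.F s y) +
        (if y = (g.pos : ZMod (2 * 64 ^ s)) + ((64 ^ s : ℕ) : ZMod (2 * 64 ^ s)) then 1 else 0) := by
      intro y
      have h2 : (g * lam u).F s y = g.F s y * ((if y - (g.pos : ZMod (2 * 64 ^ s)) = 0 then iA u.1 else 1) *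
        (if y - (g.pos : ZMod (2 * 64 ^ s)) = ((64 ^ s : ℕ) : ZMod (2 * 64 ^ s)) then iB u.2 else 1)) := rfl
      rw [h2, ← mul_assoc]
      have h3 : psi (g.F s y * (if y - (g.pos : ZMod (2 * 64 ^ s)) = 0 then iA u.1 else 1)) =
          psi (g.F s y) := by
        split_ifs
        · exact wlenx_psi_A _ _
        · rw [mul_one]
      by_cases h4 : y - (g.pos : ZMod (2 * 64 ^ s)) = ((64 ^ s : ℕ) : ZMod (2 * 64 ^ s))
      · have h5 : y = (g.pos : ZMod (2 * 64 ^ s)) + ((64 ^ s : ℕ) : ZMod (2 * 64 ^ s)) := by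
          rw [← h4]; ring
        rw [if_pos h4, if_pos h5]
        exact (wlenx_psi_B _ _).trans (by rw [h3])
      · have h5 : ¬ y = (g.pos : ZMod (2 * 64 ^ s)) + ((64 ^ s : ℕ) : ZMod (2 * 64 ^ s)) := by
          intro h5; apply h4; rw [h5]; ring
        rw [if_neg h4, if_neg h5, mul_one, h3, add_zero]
    refine (Finset.sum_le_sum fun y _ => h1 y).trans ?_
    rw [Finset.sum_add_distrib]
    simp

theorem psi_le_wlen [∀ s, NeZero (r s)] (s : ℕ) (g : HH r) (hg : g ∈ Subgroup.closure (gens r)) :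
    ∑ x : ZMod (2 * 64 ^ s), psi (g.F s x) ≤ (wlen (gens r) g : ℝ) := by
  obtain ⟨l, h1, h2, h3⟩ := wlenx_attained g hg
  rw [← h1, ← h3]
  clear h1 h3 hg g
  have key : ∀ g : HH r, ∑ x : ZMod (2 * 64 ^ s), psi ((g * l.prod).F s x) ≤
      ∑ x : ZMod (2 * 64 ^ s), psi (g.F s x) + l.length := by
    induction l with
    | nil => intro g; simp
    | cons x l ih =>
      intro g
      rw [List.prod_cons, ← mul_assoc, List.length_cons]
      refine (ih (fun y hy => h2 y (List.mem_cons_of_mem _ hy)) (g * x)).trans ?_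
      have := wlenx_step s g x (h2 x List.mem_cons_self)
      push_cast
      linarith
  have := key 1
  rw [one_mul] at this
  refine this.trans ?_
  simp [wlenx_psi_one]

end Pool.Agent.TH595.SP
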