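import Pool.Agent.TH595.SP.Cap
import Pool.Agent.TH595.SP.Tot
import Pool.Agent.TH595.SP.KcB
import Pool.Agent.TH595.SP.Lt
import Pool.Agent.TH595.SP.Inv
import Pool.Agent.TH595.SP.TotEv
import Pool.Agent.TH595.SP.Stage
import Pool.Agent.TH595.SP.Norm
import Pool.Agent.TH595.SP.Wlen

set_option autoImplicit false

/-!
Upper bound for the word length: words for inverses, padding, one stage.
-/

namespace Pool.Agent.TH595.SP

open scoped BigOperators

/-! ### words -/

theorem upA_LA_add_self (a : LA) : a + a = 0 := by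
  funext i; exact CharTwo.add_self_eq_zero (a i)

theorem upA_LB_add_self (b : LB) : b + b = 0 := by
  refine Prod.ext ?_ ?_
  · funext i; exact CharTwo.add_self_eq_zero (b.1 i)
  · exact CharTwo.add_self_eq_zero b.2

theorem upA_iA_inv {r : ℕ} (a : LA) : (iA a : Gam r)⁻¹ = iA a := by
  rw [inv_eq_iff_mul_eq_one, ← iA_add, upA_LA_add_self, iA_zero]

theorem upA_iB_inv {r : ℕ} (b : LB) : (iB b : Gam r)⁻¹ = iB b := by
  rw [inv_eq_iff_mul_eq_one, ← iB_add, upA_LB_add_self, iB_zero]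

theorem upA_wprod_nil {r : ℕ} : (wprod [] : Gam r) = 1 := rfl

theorem upA_wprod_cons {r : ℕ} (p : LL) (w : List LL) :
    (wprod (p :: w) : Gam r) = iA p.1 * iB p.2 * wprod w := by
  simp [wprod]

theorem upA_wprod_append {r : ℕ} (w1 w2 : List LL) :
    (wprod (w1 ++ w2) : Gam r) = wprod w1 * wprod w2 := by
  simp [wprod]

/-- the inverse of a word of length `m` is a word of length `m + 1` -/
theorem upA_inv_aux {r : ℕ} (w : List LL) : ∃ (w' : List LL) (a : LA), w'.length = w.length ∧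
    (wprod w' : Gam r) * iA a = (wprod w)⁻¹ := by
  induction w with
  | nil => exact ⟨[], 0, rfl, by simp [upA_wprod_nil, iA_zero]⟩
  | cons p w ih =>
    obtain ⟨w', a, h1, h2⟩ := ih
    refine ⟨w' ++ [(a, p.2)], p.1, by simp [h1], ?_⟩
    rw [upA_wprod_append, upA_wprod_cons, upA_wprod_cons, upA_wprod_nil, mul_one, mul_inv_rev,
      mul_inv_rev, upA_iA_inv, upA_iB_inv, ← h2]
    simp [mul_assoc]

theorem upA_inv_word {r : ℕ} (w : List LL) : ∃ w' : List LL, w'.length = w.length + 1 ∧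
    (wprod w' : Gam r) = (wprod w)⁻¹ := by
  obtain ⟨w', a, h1, h2⟩ := upA_inv_aux (r := r) w
  refine ⟨w' ++ [(a, 0)], by simp [h1], ?_⟩
  rw [upA_wprod_append, upA_wprod_cons, upA_wprod_nil, mul_one, iB_zero, mul_one, h2]

theorem upA_wprod_replicate {r : ℕ} (m : ℕ) :
    (wprod (List.replicate m (0 : LL)) : Gam r) = 1 := by
  induction m with
  | zero => rfl
  | succ m ih =>
    rw [List.replicate_succ, upA_wprod_cons, ih]
    simp [iA_zero, iB_zero]

/-- padding -/
theorem upA_pad {r : ℕ} (g : Gam r) (M : ℕ) (h : ∃ w : List LL, w.length ≤ M ∧ wprod w = g) :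
    ∃ w : List LL, w.length = M ∧ wprod w = g := by
  obtain ⟨w, h1, h2⟩ := h
  refine ⟨w ++ List.replicate (M - w.length) 0, ?_, ?_⟩
  · simp; omega
  · rw [upA_wprod_append, upA_wprod_replicate, mul_one, h2]

/-- table of words -/
theorem upA_table {Y : Type*} (wd : Y → List LL) (M : ℕ) (h : ∀ y, (wd y).length = M) :
    ∃ W : List ((Y → LA) × (Y → LB)), W.length = M ∧
      ∀ y, W.map (fun p => (p.1 y, p.2 y)) = wd y := by
  refine ⟨List.ofFn (fun i : Fin M => (fun y => ((wd y).getD i 0).1, fun y => ((wd y).getD i 0).2)),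
    by simp, ?_⟩
  intro y
  apply List.ext_getElem
  · simp [h y]
  · intro i h1 h2
    simp only [List.getElem_map, List.getElem_ofFn, Prod.mk.eta]
    rw [List.getD_eq_getElem]

variable {r : ℕ → ℕ}

theorem upA_ev_append (g : HH r) (l1 l2 : List (ℤ × LL)) : ev g (l1 ++ l2) = ev (ev g l1) l2 := by
  induction l1 generalizing g with
  | nil => rfl
  | cons p l1 ih => exact ih _

theorem upA_ev_pos (g : HH r) (l : List (ℤ × LL)) :
    (ev g l).pos = g.pos + (l.map Prod.fst).sum := by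
  induction l generalizing g with
  | nil => simp [ev]
  | cons p l ih =>
    rw [ev, ih]
    simp [tau, lam, add_assoc]

theorem upA_lam_pos (u : LL) : (lam u : HH r).pos = 0 := rfl

/-- after the stages `≥ t` -/
def UpQ (r : ℕ → ℕ) (u0 : LL) (l0 : List (ℤ × LL)) (R : ℤ) (t : ℕ) (E : ℕ) : Prop :=
  ∃ l1 : List (ℤ × LL), Unit1 (l1.map Prod.fst) ∧ l1.length ≤ E ∧
    InWin (-(4 * R + 4)) (4 * R + 4) 0 ((l0 ++ l1).map Prod.fst) ∧
    (ev (lam u0 : HH r) (l0 ++ l1)).pos = 0 ∧ (∀ j, (ev (lam u0 : HH r) (l0 ++ l1)).base j = 0) ∧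
    ∀ s, t ≤ s → ∀ x, (ev (lam u0 : HH r) (l0 ++ l1)).F s x = 1

theorem upA_unit1_append {l1 l2 : List ℤ} (h1 : Unit1 l1) (h2 : Unit1 l2) : Unit1 (l1 ++ l2) := by
  intro d hd
  rcases List.mem_append.1 hd with h | h
  · exact h1 d h
  · exact h2 d h

/-- start of the induction -/
theorem upA_start (u0 : LL) (l0 : List (ℤ × LL)) (R : ℤ) (hR : 1 ≤ R)
    (hRm : Rm 0 (l0.map Prod.fst) ≤ R) (t : ℕ) (ht : 2 * R + 2 < 64 ^ t) (E : ℕ)
    (hE : 6 * R + 6 ≤ E) : UpQ r u0 l0 R t E := by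
  have hin : InWin (-R) R 0 (l0.map Prod.fst) := inWin_Rm _ _ _ hRm
  have hpos : (ev (lam u0 : HH r) l0).pos = (l0.map Prod.fst).sum := by
    rw [upA_ev_pos, upA_lam_pos, zero_add]
  obtain ⟨l1, hu1, hlen, hwin, hp, hb⟩ := norm_path (ev (lam u0 : HH r) l0) R (by omega)
    (by
      rw [hpos]
      have := abs_sum_le_Rm 0 (l0.map Prod.fst)
      rw [zero_add] at this
      exact this.trans hRm)
    (base_ev_outside (-R) R (lam u0) l0 (by simpa [upA_lam_pos] using hin) (by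
      intro j hj
      have : j ≠ 0 := by
        rintro rfl
        exact hj (by simp; omega)
      simp [lam, this]))
  have hwin1 : InWin (-(R + 1)) (R + 1) 0 ((l0 ++ l1).map Prod.fst) := by
    rw [List.map_append, inWin_append]
    refine ⟨inWin_mono _ _ _ _ _ _ (by omega) (by omega) hin, ?_⟩
    rw [zero_add, ← hpos]
    exact hwin
  refine ⟨l1, hu1, by omega, inWin_mono _ _ _ _ _ _ (by omega) (by omega) hwin1, ?_, ?_, ?_⟩
  · rw [upA_ev_append]; exact hp
  · rw [upA_ev_append]; exact hb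
  · intro s hs x
    have hpow : (64 : ℤ) ^ t ≤ 64 ^ s := pow_le_pow_right₀ (by norm_num) hs
    refine F_eq_one_of_invW (-(R + 1)) (R + 1) s _ ?_ ?_ x
    · refine invW_ev _ _ _ (by omega) _ _ (by simpa [upA_lam_pos] using hwin1) ?_
      exact invW_lam _ _ _ (by omega) (by omega) _
    · rw [upA_ev_append]; exact hb

/-- one stage -/
theorem upA_step (hr : ∀ s, Even (r s) ∧ 0 < r s) (u0 : LL) (l0 : List (ℤ × LL)) (R : ℤ)
    (hR : 1 ≤ R) (t : ℕ) (ht : (64 : ℤ) ^ t ≤ 2 * R + 2) (E : ℕ) (h : UpQ r u0 l0 R (t + 1) E) :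
    UpQ r u0 l0 R t (E + 4 * 64 ^ t *
      min (4 * r t ^ 3 + 4) (kc (64 ^ t) 0 (l0.map Prod.fst) + 4 * E / 64 ^ t + 3)) := by
  obtain ⟨l1, hu1, hlen, hwin, hp, hb, hF⟩ := h
  have : NeZero (r t) := ⟨(hr t).2.ne'⟩
  obtain ⟨p, hpm, hpA, hpB⟩ := exists_tot (r := r t) (hr t).1
  set h0 : HH r := ev (lam u0 : HH r) (l0 ++ l1) with hh0
  set M := min (4 * r t ^ 3 + 4) (kc (64 ^ t) 0 (l0.map Prod.fst) + 4 * E / 64 ^ t + 3) with hM
  have htot : ∀ x, p (h0.F t x) = 0 := by
    intro x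
    refine tot_zero_of_totW (-(4 * R + 4)) (4 * R + 4) t p h0 ?_ hb x
    refine totW_ev _ _ _ p hpm hpA hpB _ _ (by simpa [upA_lam_pos] using hwin) ?_
    exact totW_lam _ _ _ p hpm hpA hpB (by omega) (by omega) _
  have hp1 : p 1 = 0 := by
    have := hpm 1 1
    rw [mul_one] at this
    simpa using this
  have hpinv : ∀ g, p g⁻¹ = - p g := by
    intro g
    have := hpm g g⁻¹
    rw [mul_inv_cancel, hp1] at this
    exact (neg_eq_of_add_eq_zero_right this.symm).symm
  -- words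
  have hword : ∀ y, ∃ w : List LL, w.length = M ∧ wprod w = (h0.F t y)⁻¹ := by
    intro y
    apply upA_pad
    obtain ⟨w1, hw1, hw1'⟩ := cap_lemma (h0.F t y)⁻¹
    obtain ⟨w2, hw2, hw2'⟩ := letters_le (r := r) t u0 (l0 ++ l1) y
    obtain ⟨w3, hw3, hw3'⟩ := upA_inv_word (r := r t) w2
    rw [hw2'] at hw3'
    have hkc : kc (64 ^ t) 0 ((l0 ++ l1).map Prod.fst) ≤
        kc (64 ^ t) 0 (l0.map Prod.fst) + 4 * E / 64 ^ t + 1 := by
      rw [List.map_append]
      have h1 := kc_append (64 ^ t) (one_le_pow₀ (by norm_num)) 0 (by simp)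
        (l0.map Prod.fst) (l1.map Prod.fst) hu1
      rw [List.length_map] at h1
      have h2 : 64 ^ t * kc (64 ^ t) 0 (l0.map Prod.fst ++ l1.map Prod.fst) ≤
          64 ^ t * kc (64 ^ t) 0 (l0.map Prod.fst) + 4 * E + 64 ^ t := by
        have h3 : ((64 ^ t * kc (64 ^ t) 0 (l0.map Prod.fst ++ l1.map Prod.fst) : ℕ) : ℤ) ≤
          ((64 ^ t * kc (64 ^ t) 0 (l0.map Prod.fst) + 4 * E + 64 ^ t : ℕ) : ℤ) := by
          push_cast
          have h4 : (l1.length : ℤ) ≤ E := by exact_mod_cast hlen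
          linarith
        exact_mod_cast h3
      have hk : 0 < 64 ^ t := by positivity
      have h5 : kc (64 ^ t) 0 (l0.map Prod.fst ++ l1.map Prod.fst) ≤
          (64 ^ t * kc (64 ^ t) 0 (l0.map Prod.fst) + 4 * E + 64 ^ t) / 64 ^ t := by
        rw [Nat.le_div_iff_mul_le hk, mul_comm]; exact h2
      have h6 : (64 ^ t * kc (64 ^ t) 0 (l0.map Prod.fst) + 4 * E + 64 ^ t) / 64 ^ t =
          kc (64 ^ t) 0 (l0.map Prod.fst) + 4 * E / 64 ^ t + 1 := by
        rw [Nat.add_div_right _ hk, Nat.mul_add_div hk]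
      omega
    rcases le_total (4 * r t ^ 3 + 4) (kc (64 ^ t) 0 (l0.map Prod.fst) + 4 * E / 64 ^ t + 3)
      with hle | hle
    · refine ⟨w1, ?_, hw1'⟩
      rw [hM, min_eq_left hle]; exact hw1
    · refine ⟨w3, ?_, hw3'⟩
      rw [hM, min_eq_right hle]; omega
  choose wd hwd1 hwd2 using hword
  obtain ⟨W, hWlen, hW⟩ := upA_table wd M hwd1
  have hsum : ∀ y, (wd y).sum = 0 := by
    intro y
    rw [← tot_wprod p hpm hpA hpB (wd y), hwd2, hpinv, htot, neg_zero]
  have hmap1 : ∀ y, (W.map fun p => p.1 y).sum = 0 := by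
    intro y
    have h1 : (W.map fun p => p.1 y) = (wd y).map Prod.fst := by
      rw [← hW y, List.map_map]; rfl
    have h2 : ((wd y).map Prod.fst).sum = (wd y).sum.1 := by
      exact (map_list_sum (AddMonoidHom.fst LA LB) (wd y)).symm
    rw [h1, h2, hsum y]; rfl
  have hmap2 : ∀ y, (W.map fun p => p.2 y).sum = 0 := by
    intro y
    have h1 : (W.map fun p => p.2 y) = (wd y).map Prod.snd := by
      rw [← hW y, List.map_map]; rfl
    have h2 : ((wd y).map Prod.snd).sum = (wd y).sum.2 := by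
      exact (map_list_sum (AddMonoidHom.snd LA LB) (wd y)).symm
    rw [h1, h2, hsum y]; rfl
  obtain ⟨l2, hu2, hlen2, hwin2, hp2, hb2, hF2⟩ := stage_path t W hmap1 hmap2 h0 hp
  have hev : ev (lam u0 : HH r) (l0 ++ (l1 ++ l2)) = ev h0 l2 := by
    rw [← List.append_assoc, upA_ev_append]
  have hpos0 : 0 + ((l0 ++ l1).map Prod.fst).sum = 0 := by
    have := upA_ev_pos (lam u0 : HH r) (l0 ++ l1)
    rw [← hh0, hp, upA_lam_pos] at this
    exact this.symm
  refine ⟨l1 ++ l2, ?_, ?_, ?_, ?_, ?_, ?_⟩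
  · rw [List.map_append]; exact upA_unit1_append hu1 hu2
  · rw [List.length_append, hlen2, hWlen]; omega
  · rw [← List.append_assoc, List.map_append, inWin_append]
    refine ⟨hwin, ?_⟩
    rw [hpos0]
    exact inWin_mono _ _ _ _ _ _ (by omega) (by omega) hwin2
  · rw [hev]; exact hp2
  · intro j; rw [hev, hb2]; exact hb j
  · intro s hs x
    rw [hev]
    rcases Nat.lt_or_ge t s with hlt | hge
    · have hpow : (64 : ℤ) ^ (t + 1) ≤ 64 ^ s := pow_le_pow_right₀ (by norm_num) hlt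
      have hpow1 : (64 : ℤ) ^ (t + 1) = 64 * 64 ^ t := by rw [pow_succ]; ring
      have hpos1 : (0 : ℤ) < 64 ^ t := by positivity
      refine F_eq_one_of_invW 0 (2 * 64 ^ t) s _ ?_ ?_ x
      · refine invW_ev _ _ _ (by omega) _ _ (by rw [hp]; exact hwin2) ?_
        exact invW_of_trivial _ _ _ _ hb (hF s hlt)
      · intro j; rw [hb2]; exact hb j
    · have hst : s = t := by omega
      subst hst
      rw [hF2]
      have h1 : (W.map fun p => (iA (p.1 x) * iB (p.2 x) : Gam (r s))).prod = wprod (wd x) := by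
        rw [wprod, ← hW x, List.map_map]; rfl
      rw [h1, hwd2, mul_inv_cancel]

/-- end of the induction -/
theorem upA_end (u0 : LL) (l0 : List (ℤ × LL)) (R : ℤ) (E : ℕ)
    (h : UpQ r u0 l0 R 0 E) : wlen (gens r) (ev (lam u0 : HH r) l0) ≤ 2 * E := by
  obtain ⟨l1, hu1, hlen, hwin, hp, hb, hF⟩ := h
  have h1 : ev (ev (lam u0 : HH r) l0) l1 = 1 := by
    rw [← upA_ev_append]
    exact HH.hext (fun j => by rw [hb]; rfl) (fun s x => by rw [hF s (Nat.zero_le _)]; rfl)
      (by rw [hp]; rfl)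
  have := wlen_le_of_ev (ev (lam u0 : HH r) l0) l1 hu1 h1
  omega

end Pool.Agent.TH595.SP
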