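import Pool.Agent.TH595.SP.UpA

set_option autoImplicit false

/-!
Upper bound for the word length: the recursion over the stages.
-/

namespace Pool.Agent.TH595.SP

open scoped BigOperators

/-- weighted sum of the numbers `b t'` over `t ≤ t' < m` -/
noncomputable def BB (b : ℕ → ℝ) (m t : ℕ) : ℝ := ∑ t' ∈ Finset.Ico t m, 17 ^ (t' - t) * b t'

theorem BB_rec (b : ℕ → ℝ) (m t : ℕ) (h : t < m) : BB b m t = b t + 17 * BB b m (t + 1) := by
  unfold BB
  rw [Finset.sum_eq_sum_Ico_succ_bot h, Finset.mul_sum]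
  congr 1
  · simp
  · apply Finset.sum_congr rfl
    intro i hi
    have h1 : t + 1 ≤ i := (Finset.mem_Ico.1 hi).1
    have h2 : i - t = (i - (t + 1)) + 1 := by omega
    rw [h2, pow_succ]; ring

theorem BB_nonneg (b : ℕ → ℝ) (hb : ∀ t, 0 ≤ b t) (m t : ℕ) : 0 ≤ BB b m t := by
  unfold BB
  exact Finset.sum_nonneg fun i _ => mul_nonneg (by positivity) (hb i)

theorem BB_mono (b : ℕ → ℝ) (hb : ∀ t, 0 ≤ b t) (m m' t : ℕ) (h : m ≤ m') :
    BB b m t ≤ BB b m' t := by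
  unfold BB
  exact Finset.sum_le_sum_of_subset_of_nonneg (Finset.Ico_subset_Ico_right h)
    fun i _ _ => mul_nonneg (by positivity) (hb i)

theorem BB_last (b : ℕ → ℝ) (hb : ∀ t, 0 ≤ b t) (m t : ℕ) (h : t ≤ m) :
    17 ^ (m - t) * b m ≤ BB b (m + 1) t := by
  unfold BB
  exact Finset.single_le_sum (f := fun t' => (17 : ℝ) ^ (t' - t) * b t')
    (fun i _ => mul_nonneg (by positivity) (hb i)) (Finset.mem_Ico.2 ⟨h, by omega⟩)

variable {r : ℕ → ℕ}

/-- the recursion -/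
theorem upB_rec (hr : ∀ s, Even (r s) ∧ 0 < r s) (u0 : LL) (l0 : List (ℤ × LL)) (R : ℤ)
    (hR : 1 ≤ R) (hRm : Rm 0 (l0.map Prod.fst) = R) (S : ℕ) (hS : (64 : ℤ) ^ S ≤ 2 * R + 2)
    (hS1 : 2 * R + 2 < 64 ^ (S + 1)) (b : ℕ → ℝ)
    (hb : ∀ t, b t = 64 ^ t * (kc (64 ^ t) 0 (l0.map Prod.fst) : ℝ)) :
    ∀ m t : ℕ, t + m = S + 1 → ∃ E : ℕ, UpQ r u0 l0 R t E ∧
      (E : ℝ) ≤ 16 * BB b (S + 1) t + 17 ^ m * (384 * b S) ∧
      (E : ℝ) ≤ 12 * R + ∑ t' ∈ Finset.Ico t (S + 1),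
        min (32 * 64 ^ t' * (r t' : ℝ) ^ 3) (6500 * BB b (S + 1) t') := by
  have hkc : ∀ t, t ≤ S → 1 ≤ kc (64 ^ t) 0 (l0.map Prod.fst) := by
    intro t ht
    apply one_le_kc _ (one_le_pow₀ (by norm_num))
    rw [hRm]
    have : (64 : ℤ) ^ t ≤ 64 ^ S := pow_le_pow_right₀ (by norm_num) ht
    omega
  have hb0 : ∀ t, 0 ≤ b t := by intro t; rw [hb]; positivity
  have hbS : (R : ℝ) ≤ 32 * b S := by
    rw [hb]
    have h1 : (1 : ℝ) ≤ (kc (64 ^ S) 0 (l0.map Prod.fst) : ℝ) := by exact_mod_cast hkc S le_rfl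
    have h2 : (2 * R + 2 : ℝ) < 64 ^ (S + 1) := by exact_mod_cast hS1
    have h3 : (64 : ℝ) ^ (S + 1) = 64 * 64 ^ S := by rw [pow_succ]; ring
    have h4 : (0 : ℝ) < 64 ^ S := by positivity
    nlinarith
  intro m
  induction m with
  | zero =>
    intro t ht
    have ht' : t = S + 1 := by omega
    subst ht'
    refine ⟨(6 * R + 6).toNat, upA_start u0 l0 R hR hRm.le _ hS1 _ (by omega), ?_, ?_⟩
    · have h1 : (((6 * R + 6).toNat : ℕ) : ℝ) = 6 * R + 6 := by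
        have : (((6 * R + 6).toNat : ℕ) : ℤ) = 6 * R + 6 := Int.toNat_of_nonneg (by omega)
        exact_mod_cast this
      rw [h1]
      have h2 : (1 : ℝ) ≤ R := by exact_mod_cast hR
      have h3 := BB_nonneg b hb0 (S + 1) (S + 1)
      rw [pow_zero, one_mul]
      linarith
    · have h1 : (((6 * R + 6).toNat : ℕ) : ℝ) = 6 * R + 6 := by
        have : (((6 * R + 6).toNat : ℕ) : ℤ) = 6 * R + 6 := Int.toNat_of_nonneg (by omega)
        exact_mod_cast this
      rw [h1]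
      have h2 : (1 : ℝ) ≤ R := by exact_mod_cast hR
      simp
      linarith
  | succ m ih =>
    intro t ht
    obtain ⟨E, hQ, hE1, hE2⟩ := ih (t + 1) (by omega)
    have htS : t ≤ S := by omega
    have hpow : (64 : ℤ) ^ t ≤ 64 ^ S := pow_le_pow_right₀ (by norm_num) htS
    refine ⟨_, upA_step hr u0 l0 R hR t (by omega) E hQ, ?_⟩
    set K := kc (64 ^ t) 0 (l0.map Prod.fst) with hK
    have hK1 : (1 : ℝ) ≤ (K : ℝ) := by exact_mod_cast hkc t htS
    have hbt : b t = 64 ^ t * (K : ℝ) := hb t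
    have hpos : (0 : ℝ) < 64 ^ t := by positivity
    have hr1 : (1 : ℝ) ≤ (r t : ℝ) ^ 3 := by
      have : (1 : ℝ) ≤ (r t : ℝ) := by exact_mod_cast (hr t).2
      exact one_le_pow₀ this
    -- the cost of the stage
    have hc1 : ((4 * 64 ^ t * min (4 * r t ^ 3 + 4) (K + 4 * E / 64 ^ t + 3) : ℕ) : ℝ) ≤
        32 * 64 ^ t * (r t : ℝ) ^ 3 := by
      have h1 : ((4 * 64 ^ t * min (4 * r t ^ 3 + 4) (K + 4 * E / 64 ^ t + 3) : ℕ) : ℝ) ≤
          ((4 * 64 ^ t * (4 * r t ^ 3 + 4) : ℕ) : ℝ) := by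
        exact_mod_cast Nat.mul_le_mul_left _ (min_le_left _ _)
      refine h1.trans ?_
      push_cast
      nlinarith
    have hc2 : ((4 * 64 ^ t * min (4 * r t ^ 3 + 4) (K + 4 * E / 64 ^ t + 3) : ℕ) : ℝ) ≤
        16 * b t + 16 * E := by
      have h1 : ((4 * 64 ^ t * min (4 * r t ^ 3 + 4) (K + 4 * E / 64 ^ t + 3) : ℕ) : ℝ) ≤
          ((4 * 64 ^ t * (K + 4 * E / 64 ^ t + 3) : ℕ) : ℝ) := by
        exact_mod_cast Nat.mul_le_mul_left _ (min_le_right _ _)
      have h2 : 4 * E / 64 ^ t * 64 ^ t ≤ 4 * E := Nat.div_mul_le_self _ _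
      have h3 : ((4 * E / 64 ^ t : ℕ) : ℝ) * 64 ^ t ≤ 4 * E := by exact_mod_cast h2
      refine h1.trans ?_
      rw [hbt]
      push_cast
      have h4 : (4 : ℝ) * 64 ^ t * (K + ((4 * E / 64 ^ t : ℕ) : ℝ) + 3) =
        4 * (64 ^ t * K) + 4 * (((4 * E / 64 ^ t : ℕ) : ℝ) * 64 ^ t) + 12 * 64 ^ t := by ring
      have h5 : ((4 * E / 64 ^ t : ℕ) : ℝ) = (((4 * E) / 64 ^ t : ℕ) : ℝ) := rfl
      have h6 : (64 : ℝ) ^ t ≤ 64 ^ t * K := by nlinarith
      rw [h4]
      nlinarith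
    have hBrec := BB_rec b (S + 1) t (by omega)
    have hBn := BB_nonneg b hb0 (S + 1) (t + 1)
    generalize 4 * 64 ^ t * min (4 * r t ^ 3 + 4) (K + 4 * E / 64 ^ t + 3) = c at hc1 hc2 ⊢
    rw [Nat.cast_add]
    constructor
    · have h17 : (17 : ℝ) ^ (m + 1) = 17 * 17 ^ m := by rw [pow_succ]; ring
      rw [hBrec, h17]
      nlinarith
    · have hlast := BB_last b hb0 S t htS
      have hm : S - t = m := by omega
      rw [hm] at hlast
      have hE3 : 16 * b t + 16 * (E : ℝ) ≤ 6500 * BB b (S + 1) t := by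
        have h7 := hb0 t
        nlinarith
      rw [Finset.sum_eq_sum_Ico_succ_bot (by omega : t < S + 1)]
      have h8 : (c : ℝ) ≤
          min (32 * 64 ^ t * (r t : ℝ) ^ 3) (6500 * BB b (S + 1) t) := le_min hc1 (hc2.trans hE3)
      linarith

/-- deterministic upper bound -/
theorem det_upper (hr : ∀ s, Even (r s) ∧ 0 < r s) (u0 : LL) (l0 : List (ℤ × LL))
    (hu : Unit1 (l0.map Prod.fst)) (hne : l0 ≠ []) (N : ℕ) (hN : l0.length ≤ N) (b : ℕ → ℝ)
    (hb : ∀ t, b t = 64 ^ t * (kc (64 ^ t) 0 (l0.map Prod.fst) : ℝ)) :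
    (wlen (gens r) (ev (lam u0 : HH r) l0) : ℝ) ≤ 24 * (Rm 0 (l0.map Prod.fst) : ℝ) +
      ∑ t ∈ Finset.range (N + 1), min (64 * 64 ^ t * (r t : ℝ) ^ 3) (13000 * BB b (N + 1) t) := by
  set R := Rm 0 (l0.map Prod.fst) with hRdef
  have hR : 1 ≤ R := one_le_Rm _ hu (by simpa using hne)
  have hRN : R ≤ N := by
    have : ∀ (l : List ℤ) (i : ℤ), Unit1 l → Rm i l ≤ |i| + l.length := by
      intro l
      induction l with
      | nil => intro i _; simp [Rm]
      | cons d l ih =>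
        intro i hd
        have h1 := ih (i + d) (fun x hx => hd x (List.mem_cons_of_mem _ hx))
        have h2 : |d| = 1 := by
          rcases hd d (List.mem_cons_self) with h | h <;> simp [h]
        have h3 := abs_add_le i d
        rw [Rm, List.length_cons]
        push_cast
        refine max_le (by linarith [(Nat.cast_nonneg l.length : (0 : ℤ) ≤ l.length)]) (by linarith)
    have h1 := this _ 0 hu
    rw [List.length_map] at h1
    simp only [abs_zero, zero_add] at h1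
    have h2 : (l0.length : ℤ) ≤ N := by exact_mod_cast hN
    exact h1.trans h2
  -- the largest scale
  obtain ⟨S, hS, hS1⟩ : ∃ S : ℕ, (64 : ℤ) ^ S ≤ 2 * R + 2 ∧ 2 * R + 2 < 64 ^ (S + 1) := by
    have h1 : ∃ m : ℕ, 2 * R + 2 < 64 ^ (m + 1) := by
      refine ⟨(2 * R + 2).toNat, ?_⟩
      have h2 : (2 * R + 2).toNat < 64 ^ ((2 * R + 2).toNat + 1) :=
        (Nat.lt_pow_self (by norm_num)).trans_le (Nat.pow_le_pow_right (by norm_num) (by omega))
      have h3 : (((2 * R + 2).toNat : ℕ) : ℤ) = 2 * R + 2 := Int.toNat_of_nonneg (by omega)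
      rw [← h3]
      exact_mod_cast h2
    classical
    refine ⟨Nat.find h1, ?_, Nat.find_spec h1⟩
    rcases Nat.eq_zero_or_pos (Nat.find h1) with h0 | h0
    · rw [h0]; simp; omega
    · have := Nat.find_min h1 (Nat.sub_lt h0 Nat.one_pos)
      rw [not_lt] at this
      rwa [Nat.sub_add_cancel h0] at this
  have hSN : S ≤ N := by
    by_contra hcon
    rw [not_le] at hcon
    have h1 : (64 : ℤ) ^ (N + 1) ≤ 64 ^ S := pow_le_pow_right₀ (by norm_num) hcon
    have h2 : (N + 1) < 64 ^ (N + 1) := Nat.lt_pow_self (by norm_num)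
    have h3 : ((N + 1 : ℕ) : ℤ) < 64 ^ (N + 1) := by exact_mod_cast h2
    have h4 : (64 : ℤ) ^ (N + 1) = 64 * 64 ^ N := by rw [pow_succ]; ring
    have h5 : N < 64 ^ N := Nat.lt_pow_self (by norm_num)
    have h6 : (N : ℤ) < 64 ^ N := by exact_mod_cast h5
    have h7 : (1 : ℤ) ≤ 64 ^ N := one_le_pow₀ (by norm_num)
    omega
  have hb0 : ∀ t, 0 ≤ b t := by intro t; rw [hb]; positivity
  obtain ⟨E, hQ, -, hE⟩ := upB_rec hr u0 l0 R hR rfl S hS hS1 b hb (S + 1) 0 (by omega)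
  have hw : (wlen (gens r) (ev (lam u0 : HH r) l0) : ℝ) ≤ 2 * E := by
    exact_mod_cast upA_end u0 l0 R E hQ
  have hmono : ∑ t' ∈ Finset.Ico 0 (S + 1), min (32 * 64 ^ t' * (r t' : ℝ) ^ 3)
      (6500 * BB b (S + 1) t') ≤ ∑ t' ∈ Finset.range (N + 1),
        min (32 * 64 ^ t' * (r t' : ℝ) ^ 3) (6500 * BB b (N + 1) t') := by
    rw [Nat.Ico_zero_eq_range]
    refine (Finset.sum_le_sum (g := fun t' => min (32 * 64 ^ t' * (r t' : ℝ) ^ 3)
      (6500 * BB b (N + 1) t')) ?_).trans ?_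
    · intro i _
      refine min_le_min le_rfl ?_
      exact mul_le_mul_of_nonneg_left (BB_mono b hb0 _ _ _ (by omega)) (by norm_num)
    · refine Finset.sum_le_sum_of_subset_of_nonneg (Finset.range_mono (by omega)) ?_
      intro i _ _
      exact le_min (by positivity) (mul_nonneg (by norm_num) (BB_nonneg b hb0 _ _))
  have h2 : ∑ t ∈ Finset.range (N + 1), min (64 * 64 ^ t * (r t : ℝ) ^ 3)
      (13000 * BB b (N + 1) t) = 2 * ∑ t' ∈ Finset.range (N + 1),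
        min (32 * 64 ^ t' * (r t' : ℝ) ^ 3) (6500 * BB b (N + 1) t') := by
    rw [Finset.mul_sum]
    refine Finset.sum_congr rfl fun i _ => ?_
    rw [mul_min_of_nonneg _ _ (by norm_num : (0 : ℝ) ≤ 2)]
    congr 1 <;> ring
  rw [h2]
  linarith

end Pool.Agent.TH595.SP
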