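import Pool.Agent.TH595.SP.UpB
import Pool.Agent.TH595.SP.El
import Pool.Agent.TH595.SP.KcE

set_option autoImplicit false

/-!
Upper bound for the speed.
-/

namespace Pool.Agent.TH595.SP

open scoped BigOperators

variable {r : ℕ → ℕ}

theorem upC_geom (m t : ℕ) : ∑ t' ∈ Finset.Ico t m, (17 / 64 : ℝ) ^ (t' - t) ≤ 2 := by
  rw [Finset.sum_Ico_eq_sum_range]
  have h1 : ∑ k ∈ Finset.range (m - t), (17 / 64 : ℝ) ^ (t + k - t) =
      ∑ k ∈ Finset.range (m - t), (17 / 64 : ℝ) ^ k := by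
    refine Finset.sum_congr rfl fun k _ => ?_
    rw [Nat.add_sub_cancel_left]
  rw [h1, geom_sum_eq (by norm_num)]
  have h2 : (0 : ℝ) ≤ (17 / 64) ^ (m - t) := by positivity
  rw [div_le_iff_of_neg (by norm_num)]
  linarith

theorem upC_BB (n m t : ℕ) :
    avgP n (fun l => BB (fun t => 64 ^ t * (kc (64 ^ t) 0 l : ℝ)) m t) ≤ 32 * (n / 64 ^ t) := by
  unfold BB
  rw [avgP_sum]
  have h1 : ∀ t' ∈ Finset.Ico t m,
      avgP n (fun l => 17 ^ (t' - t) * (64 ^ t' * (kc (64 ^ t') 0 l : ℝ))) ≤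
        (16 * n / 64 ^ t) * (17 / 64 : ℝ) ^ (t' - t) := by
    intro t' ht'
    have h0 : t ≤ t' := (Finset.mem_Ico.1 ht').1
    rw [avgP_smul, avgP_smul]
    have h2 := avgP_kc (64 ^ t') (one_le_pow₀ (by norm_num)) n
    have h3 : (0 : ℝ) < 64 ^ t' := by positivity
    have h4 : (17 : ℝ) ^ (t' - t) * (64 ^ t' * avgP n (fun l => (kc (64 ^ t') 0 l : ℝ))) ≤
        17 ^ (t' - t) * (64 ^ t' * (16 * n / (((64 ^ t' : ℤ) : ℝ)) ^ 2)) := by gcongr
    refine h4.trans (le_of_eq ?_)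
    push_cast
    have h5 : (64 : ℝ) ^ t' = 64 ^ t * 64 ^ (t' - t) := by
      rw [← pow_add]; congr 1; omega
    rw [h5, div_pow]
    field_simp
  refine (Finset.sum_le_sum h1).trans ?_
  rw [← Finset.mul_sum]
  have h2 := upC_geom m t
  have h3 : (0 : ℝ) ≤ 16 * n / 64 ^ t := by positivity
  calc (16 * n / 64 ^ t : ℝ) * ∑ t' ∈ Finset.Ico t m, (17 / 64 : ℝ) ^ (t' - t)
      ≤ (16 * n / 64 ^ t) * 2 := mul_le_mul_of_nonneg_left h2 h3
    _ = 32 * (n / 64 ^ t) := by ring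

theorem upC_Rm (n : ℕ) (hn : 1 ≤ n) :
    avgP n (fun l => (Rm 0 l : ℝ)) ≤ 66 * Real.sqrt n := by
  set k : ℕ := Nat.sqrt n with hk
  have hk1 : 1 ≤ k := by rw [hk, Nat.le_sqrt]; simpa using hn
  have hk2 : (k : ℝ) ≤ Real.sqrt n := Real.nat_sqrt_le_real_sqrt
  have hk3 : Real.sqrt n ≤ 2 * k := by
    have h1 : Real.sqrt n < k + 1 := by
      have := Real.real_sqrt_lt_nat_sqrt_succ (a := n)
      exact_mod_cast this
    have h2 : (1 : ℝ) ≤ k := by exact_mod_cast hk1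
    linarith
  have hkpos : (0 : ℝ) < k := by exact_mod_cast hk1
  have h1 : avgP n (fun l => (Rm 0 l : ℝ)) ≤ avgP n (fun l => 2 * (k : ℝ) * (kc k 0 l : ℝ) + 2 * k) := by
    apply avgP_mono
    intro l hl _
    have := Rm_le (k : ℤ) (by exact_mod_cast hk1) l hl
    have h2 : (Rm 0 l : ℝ) ≤ 2 * (k : ℝ) * ((kc k 0 l : ℝ) + 1) := by exact_mod_cast this
    linarith
  refine h1.trans ?_
  rw [avgP_add, avgP_smul, avgP_const]
  have h2 := avgP_kc (k : ℤ) (by exact_mod_cast hk1) n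
  push_cast at h2
  have h3 : 2 * (k : ℝ) * avgP n (fun l => (kc k 0 l : ℝ)) ≤ 2 * k * (16 * n / (k : ℝ) ^ 2) :=
    mul_le_mul_of_nonneg_left h2 (by positivity)
  have h4 : 2 * (k : ℝ) * (16 * n / (k : ℝ) ^ 2) = 32 * n / k := by field_simp; ring
  have h5 : 32 * (n : ℝ) / k ≤ 64 * Real.sqrt n := by
    rw [div_le_iff₀ hkpos]
    have h6 : (n : ℝ) = Real.sqrt n * Real.sqrt n := (Real.mul_self_sqrt (by positivity)).symm
    have h7 : 0 ≤ Real.sqrt n := Real.sqrt_nonneg _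
    nlinarith
  linarith

/-- upper bound for the speed -/
theorem upper_speed (hr : ∀ s, Even (r s) ∧ 0 < r s) (n : ℕ) (hn : 1 ≤ n) :
    ((Av (stp r))^[n] (fun g => (wlen (gens r) g : ℝ))) 1 ≤
      416000 * (Real.sqrt n + ∑ s ∈ Finset.range (n + 1), blk r s n) := by
  obtain ⟨m, rfl⟩ : ∃ m, n = m + 1 := ⟨n - 1, by omega⟩
  rw [iter_eq]
  have h1 : avgP (m + 1) (fun l => EL l (fun g : HH r => (wlen (gens r) g : ℝ)) 1) ≤
      avgP (m + 1) (fun l => 24 * (Rm 0 l : ℝ) + ∑ t ∈ Finset.range (m + 1 + 1),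
        min (64 * 64 ^ t * (r t : ℝ) ^ 3)
          (13000 * BB (fun t => 64 ^ t * (kc (64 ^ t) 0 l : ℝ)) (m + 1 + 1) t)) := by
    apply avgP_mono
    intro l hl hlen
    apply EL_le
    intro u us hus
    rw [one_mul]
    have hz : (l.zip us).map Prod.fst = l := List.map_fst_zip (by omega)
    have := det_upper hr u (l.zip us) (by rw [hz]; exact hl)
      (by
        intro h0
        rw [h0] at hz
        rw [← hz] at hlen
        simp at hlen)
      (m + 1) (by rw [← hlen]; rw [List.length_zip]; omega)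
      (fun t => 64 ^ t * (kc (64 ^ t) 0 l : ℝ)) (by intro t; rw [hz])
    rw [hz] at this
    exact this
  refine h1.trans ?_
  rw [avgP_add, avgP_smul, avgP_sum, mul_add]
  have h2 := upC_Rm (m + 1) hn
  have h3 : ∀ t ∈ Finset.range (m + 1 + 1), avgP (m + 1) (fun l => min (64 * 64 ^ t * (r t : ℝ) ^ 3)
      (13000 * BB (fun t => 64 ^ t * (kc (64 ^ t) 0 l : ℝ)) (m + 1 + 1) t)) ≤
        416000 * blk r t ((m + 1 : ℕ) : ℝ) := by
    intro t _
    have h4 : avgP (m + 1) (fun l => min (64 * 64 ^ t * (r t : ℝ) ^ 3)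
      (13000 * BB (fun t => 64 ^ t * (kc (64 ^ t) 0 l : ℝ)) (m + 1 + 1) t)) ≤
        64 * 64 ^ t * (r t : ℝ) ^ 3 := by
      refine (avgP_mono (m + 1) _ (fun _ => 64 * 64 ^ t * (r t : ℝ) ^ 3) ?_).trans
        (le_of_eq (avgP_const _ _))
      intro l _ _
      exact min_le_left _ _
    have h5 : avgP (m + 1) (fun l => min (64 * 64 ^ t * (r t : ℝ) ^ 3)
      (13000 * BB (fun t => 64 ^ t * (kc (64 ^ t) 0 l : ℝ)) (m + 1 + 1) t)) ≤
        416000 * (((m + 1 : ℕ) : ℝ) / 64 ^ t) := by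
      refine (avgP_mono (m + 1) _ (fun l => 13000 *
        BB (fun t => 64 ^ t * (kc (64 ^ t) 0 l : ℝ)) (m + 1 + 1) t) ?_).trans ?_
      · intro l _ _
        exact min_le_right _ _
      · rw [avgP_smul]
        have := upC_BB (m + 1) (m + 1 + 1) t
        linarith
    unfold blk
    rw [mul_min_of_nonneg _ _ (by norm_num : (0 : ℝ) ≤ 416000)]
    refine le_min h5 (h4.trans ?_)
    have h6 : (0 : ℝ) ≤ 64 ^ t * (r t : ℝ) ^ 3 := by positivity
    linarith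
  have h4 := Finset.sum_le_sum h3
  rw [← Finset.mul_sum] at h4
  have h5 : 0 ≤ Real.sqrt ((m + 1 : ℕ) : ℝ) := Real.sqrt_nonneg _
  linarith

end Pool.Agent.TH595.SP
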